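import Pool.Agent.H48.PI.Defs

/-!
# The tail of `X` for plane symmetric solutions (MP_c15324_an), part (B) of THEOREM P-infinity: definitions

THEOREM (`tail_X`, module TailX): `2s < α ≤ a`, `q = κ(1+α)+a < 2` (structure `PP`). For every `M` there is `K` such that for all planar
classical solutions with mass, energy, entropy `≤ M`, all `V ≥ 1` and `0 < r ≤ t < T`
`∫_r^t ∫x XW a V (f τ x) univ ≤ K (V^(-(1-a)) (1+(t-r)) + H(f r) - H(f t))`.
`XW` is `X` with the weight `om(R) = min(1,R/V)^(4-a)`, which is conserved in collisions (`R(v,w)² = ⟨v⟩²+⟨w⟩²`). (Proof: helper48.)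

(A1) test function `phV = (V²+⟨v⟩²)^(a/2) - V^a ≤ V^(a-2)⟨v⟩²`; its increment in a collision is `R^a (G(u')-G(u))`,
`G(u) = (λ²+u²)^(a/2)+(λ²+1-u²)^(a/2)`, `λ = V/R`, and everything scales with `om`. Modules PovSV (scalar), Pov1V (angular integral), PovV (fiber), TimAV.
(A2) the proof of `ent_fiber` restricted to the pairs with `R > ρ` (`R` is conserved), then `XW = ∫_0^1 XS({om(R) > y}) dy` (layer cake):
modules EntAZ, EntFZ, EntW, TimBV. In time: `C₂ (H(f r) - H(f t))`, no constant.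
(A3) `Tv(v,w) = Th(v,w) om(min(⟨v⟩,⟨w⟩))`: modules WgtV, ThV (Hölder), HwV (weak form with a monotone weight), FibV
(`|∫ Tv(v,w) Q(g)(w) dw| ≤ K ⟨v⟩² XM(g)`), SliV, TimCV (`l = 1`).
`XM` has the weight `om(R) min(R,V)^(q-2)`: `XM ≤ R₀^(q-2) XW + (R₀/V)^(4-a) X` (module XWB), the first term is absorbed for `R₀` large.
-/

set_option autoImplicit false

open MeasureTheory Set Filter Topology Pool.Agent.H25.Kin Pool.Agent.H48.PL Pool.Agent.H48.PI

namespace Pool.Agent.H25.PT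

variable {d : ℕ}

/-- `∫∫ g(v) g(w) |v-w|^γ R^a ω(v,w)` -/
noncomputable def XG (a : ℝ) (ω : Vec d × Vec d → ℝ) (g : Vec d → ℝ) : ℝ := ∫ p, dens a g p * ω p

/-- the weight `om(R) min(R,V)^(q-2)` -/
noncomputable def omM (a q V R : ℝ) : ℝ := om a V R * min R V ^ (q - 2)

/-- `∫∫ g(v) g(w) |v-w|^γ R^a om(R) min(R,V)^(q-2)` -/
noncomputable def XM (a q V : ℝ) (g : Vec d → ℝ) : ℝ := ∫ p, dens a g p * omM a q V (RR p.1 p.2)

/-- the test function `(V²+⟨v⟩²)^(a/2) - V^a` -/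
noncomputable def phV (a V : ℝ) (v : Vec d) : ℝ := (V ^ 2 + jb v ^ 2) ^ (a / 2) - V ^ a

/-- the antisymmetric weight `Th(v,w) om(min(⟨v⟩,⟨w⟩))` -/
noncomputable def Tv (e : Fin d) (s a α V : ℝ) (v w : Vec d) : ℝ :=
  Th e s a α v w * om a V (min (jb v) (jb w))

/-- the pairs with `R > ρ` -/
def Gt (ρ : ℝ) : Set (Vec d × Vec d) := {p | ρ < RR p.1 p.2}

end Pool.Agent.H25.PT
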