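import Pool.Agent.H25.PT.XWB
import Pool.Agent.H48.PL.XC
import Pool.Agent.H48.PL.Glob
import Pool.Agent.H48.PL.PlI

/-!
# Module XWC: continuity in `(t,x)` of weighted pair integrals

Copy of PL/XC (`XS_bdd`, `XS_cont`, `XSt_cont`) with an arbitrary measurable weight `ω`, `0 ≤ ω ≤ 1` (dominated convergence with the same bound). `XW a V g A = XG a ω g` with
`ω = A.indicator (om a V (RR ..))` (measurable `A`), `XM = XG a (omM ..)`. `XG_pl`: for a planar solution `x ↦ XG a ω (f t x)` is `PlF` (as `X_pl` in PL/Glob).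
-/

set_option autoImplicit false

open MeasureTheory Set Filter Topology Pool.Agent.H25.Kin Pool.Agent.H48.PL Pool.Agent.H48.PI

namespace Pool.Agent.H25.PT

variable {d : ℕ} {a V q T : ℝ} {Q f : ℝ → Vec d → Vec d → ℝ} {g : Vec d → ℝ} {ω : Vec d × Vec d → ℝ}

lemma XW_eq_XG {A : Set (Vec d × Vec d)} (hA : MeasurableSet A) :
    XW a V g A = XG a (A.indicator fun p => om a V (RR p.1 p.2)) g := by
  unfold XW XG
  rw [← integral_indicator hA]
  refine integral_congr_ae (Eventually.of_forall fun p => ?_)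
  by_cases hp : p ∈ A
  · simp only [indicator_of_mem hp]
  · simp only [indicator_of_notMem hp, mul_zero]

lemma XM_eq_XG : XM a q V g = XG a (fun p => omM a q V (RR p.1 p.2)) g := rfl

private lemma xw_kin (ha : 0 ≤ a) (ha1 : a ≤ 1) (v w : Vec d) :
    |len (v - w) ^ (1 + a) * RR v w ^ a| ≤
      32 * ((d : ℝ) + 1) ^ 6 * ((1 + ‖v‖) ^ 3 * (1 + ‖w‖) ^ 3) := by
  have hR := RR_pos v w
  have hR1 := one_le_RR v w
  have hl := len_nonneg (v - w)
  have h0 : 0 ≤ len (v - w) ^ (1 + a) * RR v w ^ a :=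
    mul_nonneg (Real.rpow_nonneg hl _) (Real.rpow_nonneg hR.le _)
  rw [abs_of_nonneg h0]
  have h1 : len (v - w) ^ (1 + a) ≤ (2 * RR v w) ^ (2 : ℕ) := by
    calc len (v - w) ^ (1 + a) ≤ (2 * RR v w) ^ (1 + a) :=
          Real.rpow_le_rpow hl (len_le_RR v w) (by linarith)
      _ ≤ (2 * RR v w) ^ ((2 : ℕ) : ℝ) :=
          Real.rpow_le_rpow_of_exponent_le (by linarith) (by push_cast; linarith)
      _ = (2 * RR v w) ^ (2 : ℕ) := Real.rpow_natCast _ _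
  have h2 : RR v w ^ a ≤ RR v w := by
    calc RR v w ^ a ≤ RR v w ^ (1 : ℝ) := Real.rpow_le_rpow_of_exponent_le hR1 ha1
      _ = RR v w := Real.rpow_one _
  have h3 : RR v w ≤ 2 * (jb v * jb w) := by
    have h4 := RR_le v w
    have h5 := one_le_jb v
    have h6 := one_le_jb w
    nlinarith
  have h4 : jb v * jb w ≤ (((d : ℝ) + 1) * (1 + ‖v‖)) * (((d : ℝ) + 1) * (1 + ‖w‖)) :=
    mul_le_mul (jb_le_w v) (jb_le_w w) (jb_pos w).le (by positivity)
  calc len (v - w) ^ (1 + a) * RR v w ^ a ≤ (2 * RR v w) ^ (2 : ℕ) * RR v w :=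
        mul_le_mul h1 h2 (Real.rpow_nonneg hR.le _) (by positivity)
    _ = 4 * RR v w ^ 3 := by ring
    _ ≤ 4 * (2 * ((((d : ℝ) + 1) * (1 + ‖v‖)) * (((d : ℝ) + 1) * (1 + ‖w‖)))) ^ 3 := by
        gcongr
        linarith
    _ = 32 * ((d : ℝ) + 1) ^ 6 * ((1 + ‖v‖) ^ 3 * (1 + ‖w‖) ^ 3) := by ring

private lemma xw_dens {C : ℝ} (ha : 0 ≤ a) (ha1 : a ≤ 1) (hC : 0 ≤ C) {g : Vec d → ℝ}
    (hg : ∀ v, |g v| ≤ C * ((1 + ‖v‖) ^ (3 + (d + 1)))⁻¹) (p : Vec d × Vec d) :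
    |dens a g p| ≤ 32 * ((d : ℝ) + 1) ^ 6 * (C * C) * (wt d p.1 * wt d p.2) := by
  unfold dens
  rw [abs_mul, abs_mul]
  have h1 := hg p.1
  have h2 := hg p.2
  have h3 := xw_kin ha ha1 p.1 p.2
  have w1 := w_pos p.1
  have w2 := w_pos p.2
  have e1 := wt_bound (d := d) (a := 1) (b := C) zero_le_one hC p.1 3
  have e2 := wt_bound (d := d) (a := 1) (b := C) zero_le_one hC p.2 3
  calc |g p.1| * |g p.2| * |len (p.1 - p.2) ^ (1 + a) * RR p.1 p.2 ^ a|
      ≤ (C * ((1 + ‖p.1‖) ^ (3 + (d + 1)))⁻¹) * (C * ((1 + ‖p.2‖) ^ (3 + (d + 1)))⁻¹) *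
        (32 * ((d : ℝ) + 1) ^ 6 * ((1 + ‖p.1‖) ^ 3 * (1 + ‖p.2‖) ^ 3)) := by
        refine mul_le_mul (mul_le_mul h1 h2 (abs_nonneg _) (by positivity)) h3 (abs_nonneg _)
          (by positivity)
    _ = 32 * ((d : ℝ) + 1) ^ 6 * (((1 * (1 + ‖p.1‖) ^ 3) * (C * ((1 + ‖p.1‖) ^ (3 + (d + 1)))⁻¹)) *
        ((1 * (1 + ‖p.2‖) ^ 3) * (C * ((1 + ‖p.2‖) ^ (3 + (d + 1)))⁻¹))) := by ring
    _ = 32 * ((d : ℝ) + 1) ^ 6 * (C * C) * (wt d p.1 * wt d p.2) := by rw [e1, e2]; ring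

private lemma xw_dens_cont (ha : 0 ≤ a) {g : Vec d → ℝ} (hg : Continuous g) :
    Continuous (dens a g) := by
  unfold dens
  have h1 : Continuous fun p : Vec d × Vec d => len (p.1 - p.2) ^ (1 + a) :=
    (continuous_len.comp (continuous_fst.sub continuous_snd)).rpow_const
      fun _ => Or.inr (by linarith)
  have h2 : Continuous fun p : Vec d × Vec d => RR p.1 p.2 ^ a :=
    RR_cont.rpow_const fun _ => Or.inr ha
  exact ((hg.comp continuous_fst).mul (hg.comp continuous_snd)).mul (h1.mul h2)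

private lemma xw_int : Integrable fun p : Vec d × Vec d => wt d p.1 * wt d p.2 :=
  (integrable_wt (d := d)).mul_prod (integrable_wt (d := d))

private lemma xw_slice (hf : IsClassicalSol T Q f) {t : ℝ} (ht : t ∈ Ico 0 T) (x : Vec d) :
    Continuous (f t x) :=
  (hf.cont_slice ht).comp (by fun_prop : Continuous fun v : Vec d => (x, v))

private lemma xw_bd (ha : 0 ≤ a) (ha1 : a ≤ 1) (hf : IsClassicalSol T Q f) {T₁ : ℝ} (h1 : T₁ < T) :
    ∃ K, 0 ≤ K ∧ ∀ t ∈ Icc 0 T₁, ∀ x, ∀ p : Vec d × Vec d,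
      |dens a (f t x) p| ≤ K * (wt d p.1 * wt d p.2) := by
  obtain ⟨C, hC0, hC⟩ := hf.f_le h1 (3 + (d + 1))
  exact ⟨32 * ((d : ℝ) + 1) ^ 6 * (C * C), by positivity,
    fun t ht x p => xw_dens ha ha1 hC0 (hC t ht x) p⟩

private lemma xw_mul {ω : Vec d × Vec d → ℝ} (h0 : ∀ p, 0 ≤ ω p) (h1 : ∀ p, ω p ≤ 1) {D K : ℝ}
    {p : Vec d × Vec d} (h : |D| ≤ K) : |D * ω p| ≤ K := by
  rw [abs_mul, abs_of_nonneg (h0 p)]
  exact (mul_le_of_le_one_right (abs_nonneg D) (h1 p)).trans h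

private lemma xw_bdd (ha : 0 ≤ a) (ha1 : a ≤ 1) (hf : IsClassicalSol T Q f)
    (h0 : ∀ p, 0 ≤ ω p) (h1 : ∀ p, ω p ≤ 1) {T₁ : ℝ} (hT : T₁ < T) :
    ∃ C, ∀ t ∈ Icc 0 T₁, ∀ x, |XG a ω (f t x)| ≤ C := by
  obtain ⟨K, hK0, hK⟩ := xw_bd ha ha1 hf hT
  refine ⟨∫ p : Vec d × Vec d, K * (wt d p.1 * wt d p.2), fun t ht x => ?_⟩
  have hi : Integrable fun p : Vec d × Vec d => K * (wt d p.1 * wt d p.2) := xw_int.const_mul K
  unfold XG
  rw [← Real.norm_eq_abs]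
  refine norm_integral_le_of_norm_le hi (Eventually.of_forall fun p => ?_)
  rw [Real.norm_eq_abs]
  exact xw_mul h0 h1 (hK t ht x p)

theorem XG_cont (ha : 0 ≤ a) (ha1 : a ≤ 1) (hf : IsClassicalSol T Q f) (hω : Measurable ω)
    (h0 : ∀ p, 0 ≤ ω p) (h1 : ∀ p, ω p ≤ 1) :
    ContinuousOn (fun q : ℝ × Vec d => XG a ω (f q.1 q.2)) (Ico 0 T ×ˢ univ) := by
  intro q hq
  have hq1 : q.1 ∈ Ico 0 T := hq.1
  have hlt : (q.1 + T) / 2 < T := by linarith [hq1.2]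
  obtain ⟨K, hK0, hK⟩ := xw_bd ha ha1 hf hlt
  have hsub : ∀ r ∈ Icc 0 ((q.1 + T) / 2), r ∈ Ico 0 T := fun r hr => ⟨hr.1, hr.2.trans_lt hlt⟩
  have key : ContinuousOn (fun q : ℝ × Vec d => XG a ω (f q.1 q.2))
      (Icc 0 ((q.1 + T) / 2) ×ˢ univ) := by
    unfold XG
    refine continuousOn_of_dominated (bound := fun p => K * (wt d p.1 * wt d p.2)) ?_ ?_ ?_ ?_
    · intro r hr
      exact (xw_dens_cont ha (xw_slice hf (hsub _ hr.1) r.2)).aestronglyMeasurable.mul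
        hω.aestronglyMeasurable
    · intro r hr
      refine Eventually.of_forall fun p => ?_
      rw [Real.norm_eq_abs]
      exact xw_mul h0 h1 (hK r.1 hr.1 r.2 p)
    · exact xw_int.const_mul K
    · refine Eventually.of_forall fun p => ?_
      have hc : ∀ v : Vec d, ContinuousOn (fun r : ℝ × Vec d => f r.1 r.2 v)
          (Icc 0 ((q.1 + T) / 2) ×ˢ univ) := by
        intro v
        have h1 : Continuous fun r : ℝ × Vec d => (r.1, r.2, v) := by fun_prop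
        exact hf.isCont.comp h1.continuousOn fun r hr => ⟨hsub _ hr.1, mem_univ _⟩
      unfold dens
      exact (((hc p.1).mul (hc p.2)).mul continuousOn_const).mul continuousOn_const
  refine (key q ⟨⟨hq1.1, by linarith [hq1.2]⟩, mem_univ _⟩).mono_of_mem_nhdsWithin ?_
  have hop : {r : ℝ × Vec d | r.1 < (q.1 + T) / 2} ∈ 𝓝 q :=
    (isOpen_lt continuous_fst continuous_const).mem_nhds (by
      change q.1 < (q.1 + T) / 2
      linarith [hq1.2])
  filter_upwards [mem_nhdsWithin_of_mem_nhds hop, self_mem_nhdsWithin] with r hr hr2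
  exact ⟨⟨hr2.1.1, le_of_lt hr⟩, mem_univ _⟩

private lemma xw_sl (ha : 0 ≤ a) (ha1 : a ≤ 1) (hf : IsClassicalSol T Q f) (hω : Measurable ω)
    (h0 : ∀ p, 0 ≤ ω p) (h1 : ∀ p, ω p ≤ 1) {t : ℝ} (ht : t ∈ Ico 0 T) :
    Continuous fun x : Vec d => XG a ω (f t x) := by
  have h2 : Continuous fun x : Vec d => (t, x) := by fun_prop
  exact (XG_cont ha ha1 hf hω h0 h1).comp_continuous h2 fun x => ⟨ht, mem_univ _⟩

theorem XGt_cont (ha : 0 ≤ a) (ha1 : a ≤ 1) (hf : IsClassicalSol T Q f) (hω : Measurable ω)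
    (h0 : ∀ p, 0 ≤ ω p) (h1 : ∀ p, ω p ≤ 1) :
    ContinuousOn (fun t : ℝ => ∫ x, XG a ω (f t x) ∂(muD d)) (Ico 0 T) := by
  intro t ht
  have hlt : (t + T) / 2 < T := by linarith [ht.2]
  obtain ⟨C, hC⟩ := xw_bdd ha ha1 hf h0 h1 hlt
  have hX := XG_cont ha ha1 hf hω h0 h1
  have hsub : ∀ r ∈ Icc 0 ((t + T) / 2), r ∈ Ico 0 T := fun r hr => ⟨hr.1, hr.2.trans_lt hlt⟩
  have key : ContinuousOn (fun t : ℝ => ∫ x, XG a ω (f t x) ∂(muD d)) (Icc 0 ((t + T) / 2)) := by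
    refine continuousOn_of_dominated (bound := fun _ => C) ?_ ?_ ?_ ?_
    · intro r hr
      exact (xw_sl ha ha1 hf hω h0 h1 (hsub r hr)).aestronglyMeasurable
    · intro r hr
      refine Eventually.of_forall fun x => ?_
      rw [Real.norm_eq_abs]
      exact hC r hr x
    · exact integrable_const C
    · refine Eventually.of_forall fun x => ?_
      have h1 : Continuous fun r : ℝ => (r, x) := by fun_prop
      exact hX.comp h1.continuousOn fun r hr => ⟨hsub r hr, mem_univ _⟩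
  refine (key t ⟨ht.1, by linarith [ht.2]⟩).mono_of_mem_nhdsWithin ?_
  filter_upwards [mem_nhdsWithin_of_mem_nhds (Iio_mem_nhds (show t < (t + T) / 2 by linarith [ht.2])),
    self_mem_nhdsWithin] with r hr hr2
  exact ⟨hr2.1, le_of_lt hr⟩

theorem XG_int (ha : 0 ≤ a) (ha1 : a ≤ 1) (hf : IsClassicalSol T Q f) (hω : Measurable ω)
    (h0 : ∀ p, 0 ≤ ω p) (h1 : ∀ p, ω p ≤ 1) {t : ℝ} (ht : t ∈ Ico 0 T) :
    Integrable (fun x => XG a ω (f t x)) (muD d) := by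
  obtain ⟨C, hC⟩ := xw_bdd ha ha1 hf h0 h1 ht.2
  refine Integrable.of_bound (xw_sl ha ha1 hf hω h0 h1 ht).aestronglyMeasurable C
    (Eventually.of_forall fun x => ?_)
  rw [Real.norm_eq_abs]
  exact hC t ⟨ht.1, le_rfl⟩ x

theorem XG_pl (ha : 0 ≤ a) (ha1 : a ≤ 1) (hf : IsClassicalSol T Q f) {e : Fin d} (hpl : Planar e T f)
    (hω : Measurable ω) (h0 : ∀ p, 0 ≤ ω p) (h1 : ∀ p, ω p ≤ 1) {t : ℝ} (ht : t ∈ Ico 0 T) :
    PlF e (fun x => XG a ω (f t x)) := by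
  refine ⟨xw_sl ha ha1 hf hω h0 h1 ht, fun x i => ?_, fun x y h => ?_⟩
  · have h2 : f t (x + Pi.single i 1) = f t x := by
      funext v
      exact hf.periodic t ht x v i
    simp only [h2]
  · have h2 : f t x = f t y := by
      funext v
      exact hpl t ht x y v h
    simp only [h2]

/-- the two weights are measurable with values in `[0,1]` -/
lemma wt_om (ha1 : a ≤ 1) (hV : 1 ≤ V) {A : Set (Vec d × Vec d)} (hA : MeasurableSet A) :
    Measurable (A.indicator fun p : Vec d × Vec d => om a V (RR p.1 p.2)) ∧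
      (∀ p, 0 ≤ A.indicator (fun p : Vec d × Vec d => om a V (RR p.1 p.2)) p) ∧
      ∀ p, A.indicator (fun p : Vec d × Vec d => om a V (RR p.1 p.2)) p ≤ 1 := by
  have hV0 : 0 < V := by linarith
  refine ⟨(((om_cont ha1 V).comp RR_cont).measurable).indicator hA, fun p => ?_, fun p => ?_⟩
  · exact indicator_nonneg (fun p _ => om_nonneg hV0 (RR_pos p.1 p.2).le) p
  · by_cases hp : p ∈ A
    · rw [indicator_of_mem hp]
      exact om_le_one ha1 hV0 (RR_pos p.1 p.2).le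
    · rw [indicator_of_notMem hp]
      exact zero_le_one

lemma wt_omM (ha1 : a ≤ 1) (hq2 : q ≤ 2) (hV : 1 ≤ V) :
    Measurable (fun p : Vec d × Vec d => omM a q V (RR p.1 p.2)) ∧
      (∀ p : Vec d × Vec d, 0 ≤ omM a q V (RR p.1 p.2)) ∧ ∀ p : Vec d × Vec d, omM a q V (RR p.1 p.2) ≤ 1 := by
  refine ⟨?_, fun p => omM_nonneg hV (one_le_RR p.1 p.2), fun p => omM_le_one ha1 hq2 hV (one_le_RR p.1 p.2)⟩
  have h1 : Measurable fun p : Vec d × Vec d => om a V (RR p.1 p.2) :=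
    ((om_cont ha1 V).comp RR_cont).measurable
  have h2 : Measurable fun p : Vec d × Vec d => RR p.1 p.2 := RR_cont.measurable
  unfold omM
  exact h1.mul ((h2.min measurable_const).pow_const _)

end Pool.Agent.H25.PT
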