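import Pool.Agent.H25.PT.EntAZ
import Pool.Agent.H48.PL.EntB

/-!
# Module EntFZ: (A2) on a fiber, restricted to `R > ρ₁`

Copy of `ent_fiber` (PL/EntF) with `ent_cutG` instead of `ent_cut` and all sets intersected with `Gt ρ₁` (`XS_reg` is for arbitrary measurable sets; `Gt ρ₁` is open: `RR_cont`).
-/

set_option autoImplicit false

open MeasureTheory Set Filter Topology Pool.Agent.H25.Kin Pool.Agent.H82.BK Pool.Agent.H82.CM
open Pool.Agent.H48.PL Pool.Agent.H48.PI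
open Pool.Agent.H15.AV (UNice gau)

namespace Pool.Agent.H25.PT

variable {d : ℕ} {s a C Ca cb : ℝ} {b : ℝ → ℝ}

private lemma entFZ_dens_le {g G : Vec d → ℝ} (hg : ∀ v, 0 ≤ g v) (hgG : ∀ v, g v ≤ G v)
    (p : Vec d × Vec d) : dens a g p ≤ dens a G p := by
  unfold dens
  have h1 : 0 ≤ len (p.1 - p.2) ^ (1 + a) * RR p.1 p.2 ^ a :=
    mul_nonneg (Real.rpow_nonneg (Real.sqrt_nonneg _) _) (Real.rpow_nonneg (Real.sqrt_nonneg _) _)
  refine mul_le_mul_of_nonneg_right ?_ h1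
  exact mul_le_mul (hgG _) (hgG _) (hg _) ((hg _).trans (hgG _))

private lemma entFZ_XS_le (ha : 0 ≤ a) (ha1 : a ≤ 1) {g G : Vec d → ℝ} (hg : ∀ v, 0 ≤ g v)
    (hgr : RD g) (hgc : Continuous g) (hGr : RD G) (hGc : Continuous G)
    (hgG : ∀ v, g v ≤ G v) (A : Set (Vec d × Vec d)) : XS a g A ≤ XS a G A :=
  integral_mono (dens_integrable ha ha1 hgr hgc).integrableOn
    (dens_integrable ha ha1 hGr hGc).integrableOn fun p => entFZ_dens_le hg hgG p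

private lemma entFZ_meas (ρ : ℝ) : MeasurableSet {p : Vec d × Vec d | RR p.1 p.2 ≤ ρ} := by
  have h : Measurable fun p : Vec d × Vec d => RR p.1 p.2 := by
    unfold RR nsq
    fun_prop
  exact measurableSet_le h measurable_const

theorem ent_fiberG (HL : HypL d (1 + a) s b C Ca cb) (ha : 0 < a) (ha1 : a ≤ 1) (e : Fin d) {δ : ℝ}
    (hδ : 0 < δ) (hδ1 : δ < 1) : ∃ ε₁ C₂ : ℝ, 0 < ε₁ ∧ 0 ≤ C₂ ∧
    ∀ Cl : ℕ → ℝ, ∀ η > 0, ∃ δ₀ > 0, ∀ δ' ∈ Ioc (0 : ℝ) δ₀, ∀ g : Vec d → ℝ, UNice Cl g → ∀ ρ₁ : ℝ,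
      XS a g ((CmpS δ ∩ (NtS e ε₁ (kpa s a))ᶜ) ∩ Gt ρ₁) ≤
        C₂ * XS a g ((CmpS (δ / 2) ∩ NtS e ε₁ (kpa s a)) ∩ Gt ρ₁) -
          C₂ * (∫ v, boltzQ (1 + a) b g v * Real.log (g v + δ' * gau v)) + η := by

  obtain ⟨ε₁, C₂, hε₁, hC₂, hcut⟩ := ent_cutG HL ha ha1 e hδ hδ1
  refine ⟨ε₁, C₂, hε₁, hC₂, fun Cl η hη => ?_⟩
  set η' : ℝ := η / (3 * C₂ + 3) with hη'def
  have hden : 0 < 3 * C₂ + 3 := by linarith
  have hη' : 0 < η' := div_pos hη hden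
  have hη3 : 3 * (C₂ * η') ≤ η := by
    have h1 : η' * (3 * C₂ + 3) = η := div_mul_cancel₀ _ hden.ne'
    linarith
  obtain ⟨δa, hδa, hδah, hdec⟩ := cut_decomp HL.H Cl hη'
  obtain ⟨δb, hδb, hreg⟩ := XS_reg (d := d) ha.le ha1 Cl hη'
  obtain ⟨δc, hδc, hH⟩ := Pool.Agent.H15.AV.hth_boltz HL.H Cl η' hη'
  refine ⟨min (min δa δb) δc, lt_min (lt_min hδa hδb) hδc, fun δ' hδ' g hg ρ₁ => ?_⟩
  have hd0 : 0 < δ' := hδ'.1
  have hda : δ' ≤ δa := hδ'.2.trans ((min_le_left _ _).trans (min_le_left _ _))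
  have hdb : δ' ≤ δb := hδ'.2.trans ((min_le_left _ _).trans (min_le_right _ _))
  have hdc : δ' ≤ δc := hδ'.2.trans (min_le_right _ _)
  have hd1 : δ' ≤ 1 := by linarith
  obtain ⟨hGr, hGc, hGpos, hGl⟩ := reg_props hg hd0 hd1
  have hgr : RD g := hg.nice.rd
  have hgc : Continuous g := hg.nice.cont
  have hgG : ∀ v, g v ≤ g v + δ' * gau v := fun v => by
    have : 0 ≤ δ' * gau v := mul_nonneg hd0.le (Real.exp_pos _).le
    linarith
  set A : Set (Vec d × Vec d) := (CmpS δ ∩ (NtS e ε₁ (kpa s a))ᶜ) ∩ Gt ρ₁ with hA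
  set B : Set (Vec d × Vec d) := (CmpS (δ / 2) ∩ NtS e ε₁ (kpa s a)) ∩ Gt ρ₁ with hB
  have hGm : MeasurableSet (Gt (d := d) ρ₁) := measurableSet_lt measurable_const RR_cont.measurable
  have hAm : MeasurableSet A := ((measurableSet_CmpS δ).inter (measurableSet_NtS e ε₁ _).compl).inter hGm
  have hBm : MeasurableSet B := ((measurableSet_CmpS (δ / 2)).inter (measurableSet_NtS e ε₁ _)).inter hGm
  set J : ℝ := ∫ v, boltzQ (1 + a) b g v * Real.log (g v + δ' * gau v) with hJ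
  have hJη : J ≤ η' := hH δ' ⟨hd0, hdc⟩ g hg
  have hδJ : δ' * J ≤ η' := by
    rcases le_total J 0 with h | h
    · exact (mul_nonpos_of_nonneg_of_nonpos hd0.le h).trans hη'.le
    · exact (mul_le_of_le_one_left h hd1).trans hJη
  have hBreg := hreg δ' ⟨hd0, hdb⟩ g hg B hBm
  have hρ : ∀ ρ : ℝ, XS a g (A ∩ {p | RR p.1 p.2 ≤ ρ}) ≤ C₂ * XS a g B - C₂ * J + η := by
    intro ρ
    obtain ⟨ε₀, hε₀, hε⟩ := hcut _ hGr hGc hGpos hGl ρ
    have hlim := boltz_weak_tendsto HL.H hg.nice hGl hGc.measurable.log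
    have hlim2 : Tendsto (fun ε => C₂ * (XS a g B + η') +
        C₂ * (-((1 - δ') * ∫ v, boltzCut (1 + a) b ε g v * Real.log (g v + δ' * gau v)) + η'))
        (𝓝[>] 0) (𝓝 (C₂ * (XS a g B + η') + C₂ * (-((1 - δ') * J) + η'))) :=
      (((hlim.const_mul (1 - δ')).neg.add_const η').const_mul C₂).const_add _
    have hev : ∀ᶠ ε in 𝓝[>] (0 : ℝ), XS a g (A ∩ {p | RR p.1 p.2 ≤ ρ}) ≤ C₂ * (XS a g B + η') +
        C₂ * (-((1 - δ') * ∫ v, boltzCut (1 + a) b ε g v * Real.log (g v + δ' * gau v)) + η') := by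
      filter_upwards [Ioc_mem_nhdsGT hε₀] with ε hεm
      have h1 := hε ε hεm.1 hεm.2 ρ₁
      have h2 := hdec δ' ⟨hd0, hda⟩ g hg ε hεm.1
      have h3 := entFZ_XS_le ha.le ha1 hg.nonneg hgr hgc hGr hGc hgG (A ∩ {p | RR p.1 p.2 ≤ ρ})
      have h4 := mul_le_mul_of_nonneg_left h2 hC₂
      have h5 := mul_le_mul_of_nonneg_left hBreg hC₂
      linarith
    have h6 := ge_of_tendsto hlim2 hev
    have h7 := mul_le_mul_of_nonneg_left hδJ hC₂
    have h8 : C₂ * (XS a g B + η') + C₂ * (-((1 - δ') * J) + η') =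
        C₂ * XS a g B - C₂ * J + C₂ * (δ' * J) + 2 * (C₂ * η') := by ring
    rw [h8] at h6
    linarith
  have hmono : Monotone fun n : ℕ => A ∩ {p : Vec d × Vec d | RR p.1 p.2 ≤ (n : ℝ)} := by
    intro m n hmn
    refine inter_subset_inter_right _ fun p hp => ?_
    have : (m : ℝ) ≤ n := Nat.cast_le.2 hmn
    exact le_trans hp this
  have hU : (⋃ n : ℕ, A ∩ {p : Vec d × Vec d | RR p.1 p.2 ≤ (n : ℝ)}) = A := by
    rw [← inter_iUnion]
    refine inter_eq_left.2 fun p _ => ?_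
    obtain ⟨n, hn⟩ := exists_nat_ge (RR p.1 p.2)
    exact mem_iUnion.2 ⟨n, hn⟩
  have hlim := tendsto_setIntegral_of_monotone (μ := volume) (f := dens a g)
    (s := fun n : ℕ => A ∩ {p : Vec d × Vec d | RR p.1 p.2 ≤ (n : ℝ)})
    (fun n => hAm.inter (entFZ_meas _)) hmono
    (dens_integrable ha.le ha1 hgr hgc).integrableOn
  rw [hU] at hlim
  exact le_of_tendsto' hlim fun n => hρ n

end Pool.Agent.H25.PT
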