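import Pool.Agent.H25.PT.OmB
import Pool.Agent.H48.PL.XB

/-!
# Module XWB: elementary facts about `XW`, `XM`, and the layer cake formula

All integrands are `dens a g p` (integrable, `dens_integrable`, nonnegative, `dens_nonneg`) times a measurable function with values in `[0,1]`
(`Integrable.mono`/`Integrable.bdd_mul`). `XW`, `XM` nonnegative, `XW ≤ XS`, `XM ≤ R₀^(q-2) XW + (R₀/V)^(4-a) XS` (`omM_le`, `one_le_RR`).
* `XW_univ_le`, `XW_cmp_le`: as `XS_univ_le`, `XS_cmp_le` (set integrals of a nonnegative integrable function).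
* `XW_layer`: `XW a V g A = ∫ y in Ioc 0 1, XS a g (A ∩ {p | y < om a V (RR p.1 p.2)})`: layer cake (`Integrable.integral_eq_integral_meas_lt` for the measure
  `(volume.restrict A).withDensity (ofReal ∘ dens a g)`, or Fubini for the function `dens a g p * 1[y < om]` on `A × (0,1)`: `∫ y in (0,1), 1[y < x] = x` for `x ∈ [0,1]`).
  For `y ∈ (0,1]` the set `{y < om a V (RR p.1 p.2)}` is `Gt (V y^(1/(4-a)))`, for `y < 1`, and empty for `y = 1`.
* `XW_of_Gt`: if `XS a g (A ∩ Gt ρ) ≤ C₂ XS a g (B ∩ Gt ρ) + κ` for all `ρ` then `XW A ≤ C₂ XW B + κ`: integrate over `y ∈ (0,1)`.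
-/

set_option autoImplicit false

open MeasureTheory Set Filter Topology Pool.Agent.H25.Kin Pool.Agent.H48.PL Pool.Agent.H48.PI

namespace Pool.Agent.H25.PT

variable {d : ℕ} {a V q : ℝ} {g : Vec d → ℝ}

lemma measurableSet_Gt (ρ : ℝ) : MeasurableSet (Gt ρ : Set (Vec d × Vec d)) :=
  measurableSet_lt measurable_const RR_cont.measurable

private lemma wint {f : Vec d × Vec d → ℝ} (ha : 0 ≤ a) (ha1 : a ≤ 1) (hg : RD g) (hgc : Continuous g)
    (hf : Continuous f) (hf0 : ∀ p, 0 ≤ f p) (hf1 : ∀ p, f p ≤ 1) :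
    Integrable fun p : Vec d × Vec d => dens a g p * f p := by
  have hI := dens_integrable (a := a) ha ha1 hg hgc
  refine hI.norm.mono' (((dens_cont ha hgc).mul hf).aestronglyMeasurable) (Filter.Eventually.of_forall fun p => ?_)
  rw [norm_mul]
  refine mul_le_of_le_one_right (norm_nonneg _) ?_
  rw [Real.norm_eq_abs, abs_of_nonneg (hf0 p)]
  exact hf1 p

lemma XW_integrable (ha : 0 ≤ a) (ha1 : a ≤ 1) (hV : 1 ≤ V) (hg : RD g) (hgc : Continuous g) :
    Integrable fun p : Vec d × Vec d => dens a g p * om a V (RR p.1 p.2) :=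
  wint ha ha1 hg hgc (om_RR_cont ha1 V) (fun p => om_nonneg (by linarith) (RR_pos _ _).le)
    fun p => om_le_one ha1 (by linarith) (RR_pos _ _).le

lemma XM_integrable (ha : 0 ≤ a) (ha1 : a ≤ 1) (hq2 : q ≤ 2) (hV : 1 ≤ V) (hg : RD g) (hgc : Continuous g) :
    Integrable fun p : Vec d × Vec d => dens a g p * omM a q V (RR p.1 p.2) :=
  wint ha ha1 hg hgc (omM_RR_cont ha1 q hV) (fun p => omM_nonneg hV (one_le_RR _ _))
    fun p => omM_le_one ha1 hq2 hV (one_le_RR _ _)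

private lemma dom_nonneg (hV : 1 ≤ V) (hg : ∀ v, 0 ≤ g v) (p : Vec d × Vec d) :
    0 ≤ dens a g p * om a V (RR p.1 p.2) :=
  mul_nonneg (dens_nonneg hg p) (om_nonneg (by linarith) (RR_pos _ _).le)

lemma XW_nonneg (hV : 1 ≤ V) (hg : ∀ v, 0 ≤ g v) (A : Set (Vec d × Vec d)) : 0 ≤ XW a V g A :=
  integral_nonneg fun p => dom_nonneg hV hg p

lemma XM_nonneg (hV : 1 ≤ V) (hg : ∀ v, 0 ≤ g v) : 0 ≤ XM a q V g :=
  integral_nonneg fun p => mul_nonneg (dens_nonneg hg p) (omM_nonneg hV (one_le_RR _ _))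

lemma XW_le_XS (ha : 0 ≤ a) (ha1 : a ≤ 1) (hV : 1 ≤ V) (hg : RD g) (hgc : Continuous g)
    (hg0 : ∀ v, 0 ≤ g v) (A : Set (Vec d × Vec d)) : XW a V g A ≤ XS a g A := by
  unfold XW XS
  refine integral_mono (XW_integrable ha ha1 hV hg hgc).integrableOn
    (dens_integrable ha ha1 hg hgc).integrableOn fun p => ?_
  exact mul_le_of_le_one_right (dens_nonneg hg0 p) (om_le_one ha1 (by linarith) (RR_pos _ _).le)

lemma XM_le (ha : 0 ≤ a) (ha1 : a ≤ 1) (hq2 : q ≤ 2) {R₀ : ℝ} (hR₀ : 1 ≤ R₀) (hV : R₀ ≤ V) (hg : RD g)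
    (hgc : Continuous g) (hg0 : ∀ v, 0 ≤ g v) :
    XM a q V g ≤ R₀ ^ (q - 2) * XW a V g univ + (R₀ / V) ^ (4 - a) * XS a g univ := by
  have hV1 : 1 ≤ V := hR₀.trans hV
  have h1 := XW_integrable (V := V) ha ha1 hV1 hg hgc
  have h2 := dens_integrable (a := a) ha ha1 hg hgc
  unfold XM XW XS
  rw [setIntegral_univ, setIntegral_univ, ← integral_const_mul, ← integral_const_mul,
    ← integral_add (h1.const_mul _) (h2.const_mul _)]
  refine integral_mono (XM_integrable ha ha1 hq2 hV1 hg hgc) ((h1.const_mul _).add (h2.const_mul _)) fun p => ?_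
  have h3 := omM_le (a := a) ha ha1 hq2 hR₀ hV (one_le_RR p.1 p.2)
  have h4 := mul_le_mul_of_nonneg_left h3 (dens_nonneg (a := a) hg0 p)
  calc dens a g p * omM a q V (RR p.1 p.2) ≤ _ := h4
    _ = R₀ ^ (q - 2) * (dens a g p * om a V (RR p.1 p.2)) + (R₀ / V) ^ (4 - a) * dens a g p := by ring

lemma XW_cmp_le (ha : 0 ≤ a) (ha1 : a ≤ 1) (hV : 1 ≤ V) (hg : RD g) (hgc : Continuous g)
    (hg0 : ∀ v, 0 ≤ g v) {δ : ℝ} (hδ : 0 ≤ δ) (e : Fin d) (ε κ : ℝ) :
    XW a V g (CmpS δ) ≤ XW a V g (CmpS δ ∩ (NtS e ε κ)ᶜ) + XW a V g (CmpS (δ / 2) ∩ NtS e ε κ) := by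
  have hI := XW_integrable (V := V) ha ha1 hV hg hgc
  have h1 : XW a V g (CmpS δ) = XW a V g (CmpS δ ∩ NtS e ε κ) + XW a V g (CmpS δ ∩ (NtS e ε κ)ᶜ) := by
    unfold XW
    rw [← setIntegral_union (disjoint_compl_right.mono inter_subset_right inter_subset_right)
      ((measurableSet_CmpS δ).inter (measurableSet_NtS e ε κ).compl) hI.integrableOn
      hI.integrableOn, inter_union_compl]
  have h2 : XW a V g (CmpS δ ∩ NtS e ε κ) ≤ XW a V g (CmpS (δ / 2) ∩ NtS e ε κ) := by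
    unfold XW
    exact setIntegral_mono_set hI.integrableOn (Filter.Eventually.of_forall fun p => dom_nonneg hV hg0 p)
      (HasSubset.Subset.eventuallyLE (inter_subset_inter_left _ (CmpS_mono (by linarith))))
  linarith

lemma XW_univ_le (ha : 0 ≤ a) (ha1 : a ≤ 1) (hV : 1 ≤ V) (hg : RD g) (hgc : Continuous g)
    (hg0 : ∀ v, 0 ≤ g v) {δ : ℝ} (hδ : 0 ≤ δ) (e : Fin d) (ε κ : ℝ) :
    XW a V g univ ≤ XW a V g (CmpS δ)ᶜ + (XW a V g (CmpS δ ∩ (NtS e ε κ)ᶜ) +
      XW a V g (CmpS (δ / 2) ∩ NtS e ε κ)) := by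
  have hI := XW_integrable (V := V) ha ha1 hV hg hgc
  have h1 : XW a V g univ = XW a V g (CmpS δ) + XW a V g (CmpS δ)ᶜ := by
    unfold XW
    rw [setIntegral_univ, integral_add_compl (measurableSet_CmpS δ) hI]
  have h2 := XW_cmp_le ha ha1 hV hg hgc hg0 hδ e ε κ
  linarith

private lemma int_ite {x : ℝ} (h0 : 0 ≤ x) (h1 : x ≤ 1) :
    ∫ y in Ioo (0 : ℝ) 1, (if y < x then (1 : ℝ) else 0) = x := by
  have e1 : (fun y : ℝ => if y < x then (1 : ℝ) else 0) = (Iio x).indicator fun _ => (1 : ℝ) := by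
    funext y
    by_cases h : y < x
    · simp [h]
    · simp [h]
  rw [e1, setIntegral_indicator measurableSet_Iio]
  have e2 : Ioo (0 : ℝ) 1 ∩ Iio x = Ioo 0 x := by
    ext y
    simp only [mem_inter_iff, mem_Ioo, mem_Iio]
    constructor
    · rintro ⟨⟨a1, _⟩, a3⟩
      exact ⟨a1, a3⟩
    · rintro ⟨a1, a3⟩
      exact ⟨⟨a1, a3.trans_le h1⟩, a3⟩
  rw [e2]
  simp [h0]

/-- the function of the layer cake formula is integrable -/
private lemma lc_int (ha : 0 ≤ a) (ha1 : a ≤ 1) (hg : RD g) (hgc : Continuous g) (A : Set (Vec d × Vec d)) :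
    Integrable (fun q : (Vec d × Vec d) × ℝ => dens a g q.1 * (if q.2 < om a V (RR q.1.1 q.1.2) then (1 : ℝ) else 0))
      ((volume.restrict A).prod (volume.restrict (Ioo (0 : ℝ) 1))) := by
  have hI := (dens_integrable (a := a) ha ha1 hg hgc).integrableOn (s := A)
  have h1 : Integrable (fun q : (Vec d × Vec d) × ℝ => dens a g q.1 * (1 : ℝ))
      ((volume.restrict A).prod (volume.restrict (Ioo (0 : ℝ) 1))) :=
    Integrable.mul_prod (f := dens a g) (g := fun _ : ℝ => (1 : ℝ)) hI (integrable_const _)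
  have hm : MeasurableSet {q : (Vec d × Vec d) × ℝ | q.2 < om a V (RR q.1.1 q.1.2)} :=
    measurableSet_lt measurable_snd ((om_RR_cont ha1 V).measurable.comp measurable_fst)
  have hmeas : Measurable fun q : (Vec d × Vec d) × ℝ =>
      dens a g q.1 * (if q.2 < om a V (RR q.1.1 q.1.2) then (1 : ℝ) else 0) :=
    ((dens_cont ha hgc).measurable.comp measurable_fst).mul (Measurable.ite hm measurable_const measurable_const)
  refine h1.norm.mono' hmeas.aestronglyMeasurable (Filter.Eventually.of_forall fun q => ?_)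
  rw [norm_mul, norm_mul]
  refine mul_le_mul_of_nonneg_left ?_ (norm_nonneg _)
  split_ifs <;> simp

private lemma lc (ha : 0 ≤ a) (ha1 : a ≤ 1) (hV : 1 ≤ V) (hg : RD g) (hgc : Continuous g) {A : Set (Vec d × Vec d)} :
    XW a V g A = ∫ y in Ioo (0 : ℝ) 1, XS a g (A ∩ {p | y < om a V (RR p.1 p.2)}) := by
  have h1 := integral_integral_swap (μ := volume.restrict A) (ν := volume.restrict (Ioo (0 : ℝ) 1))
    (f := fun (p : Vec d × Vec d) (y : ℝ) => dens a g p * (if y < om a V (RR p.1 p.2) then (1 : ℝ) else 0))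
    (lc_int (V := V) ha ha1 hg hgc A)
  have h2 : ∀ p : Vec d × Vec d, ∫ y in Ioo (0 : ℝ) 1, dens a g p * (if y < om a V (RR p.1 p.2) then (1 : ℝ) else 0) =
      dens a g p * om a V (RR p.1 p.2) := by
    intro p
    rw [integral_const_mul, int_ite (om_nonneg (by linarith) (RR_pos _ _).le)
      (om_le_one ha1 (by linarith) (RR_pos _ _).le)]
  have h3 : ∀ y : ℝ, ∫ p in A, dens a g p * (if y < om a V (RR p.1 p.2) then (1 : ℝ) else 0) =
      XS a g (A ∩ {p | y < om a V (RR p.1 p.2)}) := by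
    intro y
    have hm : MeasurableSet {p : Vec d × Vec d | y < om a V (RR p.1 p.2)} :=
      measurableSet_lt measurable_const (om_RR_cont ha1 V).measurable
    have e1 : (fun p : Vec d × Vec d => dens a g p * (if y < om a V (RR p.1 p.2) then (1 : ℝ) else 0)) =
        {p : Vec d × Vec d | y < om a V (RR p.1 p.2)}.indicator (dens a g) := by
      funext p
      by_cases h : y < om a V (RR p.1 p.2)
      · simp [h]
      · simp [h]
    rw [e1, setIntegral_indicator hm]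
    rfl
  simp only [h2, h3] at h1
  exact h1

private lemma om_gt (ha1 : a ≤ 1) (hV : 1 ≤ V) {y : ℝ} (hy : y ∈ Ioo (0 : ℝ) 1) :
    {p : Vec d × Vec d | y < om a V (RR p.1 p.2)} = Gt (V * y ^ (4 - a)⁻¹) := by
  have h4 : 0 < 4 - a := by linarith
  have hV0 : 0 < V := by linarith
  have hy1 : y ^ (4 - a)⁻¹ < 1 := Real.rpow_lt_one hy.1.le hy.2 (inv_pos.2 h4)
  ext p
  have hR := RR_pos p.1 p.2
  have hm : 0 ≤ min 1 (RR p.1 p.2 / V) := le_min zero_le_one (by positivity)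
  simp only [Gt, mem_setOf_eq, om]
  rw [← Real.rpow_inv_lt_iff_of_pos hy.1.le hm h4, lt_min_iff, lt_div_iff₀ hV0, mul_comm]
  exact ⟨fun h => h.2, fun h => ⟨hy1, h⟩⟩

theorem XW_of_Gt (ha : 0 ≤ a) (ha1 : a ≤ 1) (hV : 1 ≤ V) (hg : RD g) (hgc : Continuous g)
    (hg0 : ∀ v, 0 ≤ g v) {A B : Set (Vec d × Vec d)} (hA : MeasurableSet A) (hB : MeasurableSet B)
    {C₂ κ : ℝ} (h : ∀ ρ : ℝ, XS a g (A ∩ Gt ρ) ≤ C₂ * XS a g (B ∩ Gt ρ) + κ) :
    XW a V g A ≤ C₂ * XW a V g B + κ := by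
  have _ := hA
  have _ := hB
  have _ := hg0
  have hi : ∀ A : Set (Vec d × Vec d), IntegrableOn (fun y => XS a g (A ∩ {p | y < om a V (RR p.1 p.2)})) (Ioo 0 1) := by
    intro A
    have h1 := (lc_int (V := V) ha ha1 hg hgc A).integral_prod_right
    refine h1.congr (Filter.Eventually.of_forall fun y => ?_)
    have hm : MeasurableSet {p : Vec d × Vec d | y < om a V (RR p.1 p.2)} :=
      measurableSet_lt measurable_const (om_RR_cont ha1 V).measurable
    have e1 : (fun p : Vec d × Vec d => dens a g p * (if y < om a V (RR p.1 p.2) then (1 : ℝ) else 0)) =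
        {p : Vec d × Vec d | y < om a V (RR p.1 p.2)}.indicator (dens a g) := by
      funext p
      by_cases h : y < om a V (RR p.1 p.2)
      · simp [h]
      · simp [h]
    simp only
    rw [e1, setIntegral_indicator hm]
    rfl
  rw [lc (V := V) ha ha1 hV hg hgc (A := A), lc (V := V) ha ha1 hV hg hgc (A := B)]
  have h2 : ∫ y in Ioo (0 : ℝ) 1, (C₂ * XS a g (B ∩ {p | y < om a V (RR p.1 p.2)}) + κ) =
      C₂ * (∫ y in Ioo (0 : ℝ) 1, XS a g (B ∩ {p | y < om a V (RR p.1 p.2)})) + κ := by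
    rw [integral_add ((hi B).const_mul C₂) (integrable_const _), integral_const_mul]
    simp
  rw [← h2]
  refine setIntegral_mono_on (hi A) (((hi B).const_mul C₂).add (integrable_const _)) measurableSet_Ioo fun y hy => ?_
  rw [om_gt ha1 hV hy]
  exact h _

end Pool.Agent.H25.PT
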