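import Pool.Agent.H25.PT.EntFZ
import Pool.Agent.H25.PT.XWB

/-!
# Module EntW: (A2) on a fiber with the weight `om(R)`

`ent_fiberG` and `XW_of_Gt` with `κ = -C₂ ∫ Q log + η`.
-/

set_option autoImplicit false

open MeasureTheory Set Filter Topology Pool.Agent.H25.Kin Pool.Agent.H82.BK Pool.Agent.H82.CM
open Pool.Agent.H48.PL Pool.Agent.H48.PI
open Pool.Agent.H15.AV (UNice gau)

namespace Pool.Agent.H25.PT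

variable {d : ℕ} {s a C Ca cb : ℝ} {b : ℝ → ℝ}

theorem ent_fiberW (HL : HypL d (1 + a) s b C Ca cb) (ha : 0 < a) (ha1 : a ≤ 1) (e : Fin d) {δ : ℝ}
    (hδ : 0 < δ) (hδ1 : δ < 1) : ∃ ε₁ C₂ : ℝ, 0 < ε₁ ∧ 0 ≤ C₂ ∧
    ∀ Cl : ℕ → ℝ, ∀ η > 0, ∃ δ₀ > 0, ∀ δ' ∈ Ioc (0 : ℝ) δ₀, ∀ g : Vec d → ℝ, UNice Cl g →
      ∀ V : ℝ, 1 ≤ V → XW a V g (CmpS δ ∩ (NtS e ε₁ (kpa s a))ᶜ) ≤
        C₂ * XW a V g (CmpS (δ / 2) ∩ NtS e ε₁ (kpa s a)) -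
          C₂ * (∫ v, boltzQ (1 + a) b g v * Real.log (g v + δ' * gau v)) + η := by
  obtain ⟨ε₁, C₂, hε₁, hC₂, h⟩ := ent_fiberG HL ha ha1 e hδ hδ1
  refine ⟨ε₁, C₂, hε₁, hC₂, fun Cl η hη => ?_⟩
  obtain ⟨δ₀, hδ₀, h3⟩ := h Cl η hη
  refine ⟨δ₀, hδ₀, fun δ' hδ' g hg V hV => ?_⟩
  have h4 := h3 δ' hδ' g hg
  have h5 := XW_of_Gt (A := CmpS δ ∩ (NtS e ε₁ (kpa s a))ᶜ)
    (B := CmpS (δ / 2) ∩ NtS e ε₁ (kpa s a)) (C₂ := C₂)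
    (κ := -(C₂ * (∫ v, boltzQ (1 + a) b g v * Real.log (g v + δ' * gau v))) + η)
    ha.le ha1 hV hg.nice.rd hg.nice.cont hg.nonneg
    ((measurableSet_CmpS δ).inter (measurableSet_NtS e ε₁ _).compl)
    ((measurableSet_CmpS (δ / 2)).inter (measurableSet_NtS e ε₁ _))
    (fun ρ => by
      have := h4 ρ
      linarith)
  linarith

end Pool.Agent.H25.PT
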