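import Pool.Agent.H25.PT.WgtV
import Pool.Agent.H48.PL.ThH

/-!
# Module ThV: `w ↦ Tv(v,w)` is Hölder, with the weight `om(min(⟨v⟩, max(⟨w⟩,⟨w'⟩)))`

Let `jb w' ≤ jb w = W` (otherwise exchange; the right side is symmetric), `m = min(jb v, jb w) = min(jb v, W)`, `m' = min(jb v, jb w') ≤ m`.
`Tv v w - Tv v w' = (Th v w - Th v w') om m + Th v w' (om m - om m')`.
First term: `Th_holder`, constant 8. Second term: zero if `jb w' ≥ jb v`; otherwise `m' = jb w'`, `|Th v w'| = m'^Q |v_e-w'_e|^α ≤ 2 m'^Q jb v^α` (`|v_e - w'_e| ≤ 2 jb v`, `α ≤ 1`),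
`om m - om m' ≤ 4 om m (m-m')/m` (`om_lip`), `m - m' ≤ jb w - jb w' ≤ len (w-w')` and `m - m' ≤ m`, so `(m-m')/m ≤ (len/m)^α`. Altogether `≤ 8 m^(Q-α) jb v^α om m len^α`, and
`m^(Q-α) jb v^α = m^(q-α) m^(a-α) jb v^α ≤ jb v^q W^(a-α)` (`q ≥ 1 ≥ α`, `Q = q + (a-α)`).
-/

set_option autoImplicit false

open MeasureTheory Set Filter Topology Pool.Agent.H25.Kin Pool.Agent.H48.PL Pool.Agent.H48.PI

namespace Pool.Agent.H25.PT

variable {d : ℕ} {s a α V : ℝ}

private lemma thV_aux (P : PP s a α) (e : Fin d) (hV : 1 ≤ V) (v w w' : Vec d) (hw : jb w' ≤ jb w) :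
    |Tv e s a α V v w - Tv e s a α V v w'| ≤
      16 * jb v ^ qq s a α * (om a V (min (jb v) (jb w)) * (jb w ^ (a - α) * len (w - w') ^ α)) := by
  obtain ⟨hα0, ha0, ha1, -⟩ := P.hs0
  obtain ⟨hq1, hq2, hQ1, hQq⟩ := P.hq1
  have hαa := P.hαa
  have hα1 : α ≤ 1 := by linarith
  have hT := Th_holder P e v w w'
  rw [max_eq_left hw] at hT
  have hv1 := one_le_jb v
  have hw1 := one_le_jb w
  have hw'1 := one_le_jb w'
  have hv0 := jb_pos v
  have hw0 := jb_pos w
  have hV0 : 0 < V := by linarith
  set J := jb v with hJ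
  set W := jb w with hW
  set q := qq s a α with hq
  set Q := QQ s a α with hQ
  set L := len (w - w') with hL
  have hL0 : 0 ≤ L := len_nonneg _
  set m := min J W with hm
  set m' := min J (jb w') with hm'
  have hm'1 : 1 ≤ m' := le_min hv1 hw'1
  have hm'm : m' ≤ m := min_le_min_left J hw
  have hm0 : 0 < m := by linarith
  have hmJ : m ≤ J := min_le_left _ _
  have hmW : m ≤ W := min_le_right _ _
  have hom : 0 ≤ om a V m := om_nonneg hV0 hm0.le
  have hLα : 0 ≤ L ^ α := Real.rpow_nonneg hL0 _
  have hWa : 0 ≤ W ^ (a - α) := Real.rpow_nonneg hw0.le _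
  have hJq : 0 ≤ J ^ q := Real.rpow_nonneg hv0.le _
  have hdec : Tv e s a α V v w - Tv e s a α V v w' =
      (Th e s a α v w - Th e s a α v w') * om a V m +
        Th e s a α v w' * (om a V m - om a V m') := by
    unfold Tv
    ring
  have h1 : |(Th e s a α v w - Th e s a α v w') * om a V m| ≤
      8 * (J ^ q * (om a V m * (W ^ (a - α) * L ^ α))) := by
    rw [abs_mul, abs_of_nonneg hom]
    calc |Th e s a α v w - Th e s a α v w'| * om a V m
        ≤ (8 * J ^ q * (W ^ (a - α) * L ^ α)) * om a V m := mul_le_mul_of_nonneg_right hT hom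
      _ = _ := by ring
  have h2 : |Th e s a α v w' * (om a V m - om a V m')| ≤
      8 * (J ^ q * (om a V m * (W ^ (a - α) * L ^ α))) := by
    have hR : 0 ≤ 8 * (J ^ q * (om a V m * (W ^ (a - α) * L ^ α))) :=
      mul_nonneg (by norm_num) (mul_nonneg hJq (mul_nonneg hom (mul_nonneg hWa hLα)))
    rcases le_or_gt J (jb w') with hc | hc
    · have h3 : m = m' := by
        rw [hm, hm', min_eq_left hc, min_eq_left (hc.trans hw)]
      rw [h3, sub_self, mul_zero, abs_zero, ← h3]
      exact hR
    · have hmw : m' = jb w' := min_eq_right hc.le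
      have hTh : |Th e s a α v w'| ≤ m ^ Q * (2 * J ^ α) := by
        unfold Th
        rw [abs_mul, abs_sp]
        have h0 : |min (jb v) (jb w') ^ QQ s a α| = m' ^ Q := by
          rw [abs_of_nonneg (Real.rpow_nonneg (by linarith : (0 : ℝ) ≤ min (jb v) (jb w')) _)]
        rw [h0]
        have h4 : |v e - w' e| ≤ 2 * J := by
          have h5 : |(v - w') e| ≤ len (v - w') := abs_coord_le _ _
          have h6 := len_sub_le v w'
          have h7 := len_le_jb v
          have h8 := len_le_jb w'
          have h9 : (v - w') e = v e - w' e := rfl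
          rw [h9] at h5
          linarith
        have h5 := Real.rpow_le_rpow (abs_nonneg _) h4 hα0.le
        rw [Real.mul_rpow (by norm_num) hv0.le] at h5
        have h6 : (2 : ℝ) ^ α ≤ 2 := by
          have := Real.rpow_le_rpow_of_exponent_le (by norm_num : (1 : ℝ) ≤ 2) hα1
          rwa [Real.rpow_one] at this
        have h7 : 0 ≤ J ^ α := Real.rpow_nonneg hv0.le _
        have h8 : |v e - w' e| ^ α ≤ 2 * J ^ α := by nlinarith
        exact mul_le_mul (Real.rpow_le_rpow (by linarith) hm'm (by linarith)) h8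
          (Real.rpow_nonneg (abs_nonneg _) _) (Real.rpow_nonneg hm0.le _)
      have hmono : om a V m' ≤ om a V m := om_mono (by linarith) hV0 (by linarith) hm'm
      have hlip := om_lip (a := a) ha0.le (by linarith) hV0 (by linarith : 0 < m') hm'm
      have hx0 : 0 ≤ (m - m') / m := div_nonneg (by linarith) hm0.le
      have hx1 : (m - m') / m ≤ 1 := by
        rw [div_le_one hm0]
        linarith
      have hmL : m - m' ≤ L := by
        have h7 := jb_lip w w'
        have h9 := le_abs_self (jb w - jb w')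
        rw [hmw]
        linarith
      have hx2 : (m - m') / m ≤ L ^ α * m ^ (-α) := by
        have h3 : (m - m') / m ≤ ((m - m') / m) ^ α := by
          rcases hx0.eq_or_lt with h4 | h4
          · rw [← h4]
            exact Real.rpow_nonneg le_rfl _
          · have := Real.rpow_le_rpow_of_exponent_ge h4 hx1 hα1
            rwa [Real.rpow_one] at this
        refine h3.trans ?_
        rw [Real.div_rpow (by linarith) hm0.le, div_eq_mul_inv, ← Real.rpow_neg hm0.le]
        exact mul_le_mul_of_nonneg_right (Real.rpow_le_rpow (by linarith) hmL hα0.le)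
          (Real.rpow_nonneg hm0.le _)
      have h3 : om a V m - om a V m' ≤ 4 * (om a V m * (L ^ α * m ^ (-α))) := by
        refine hlip.trans ?_
        have := mul_le_mul_of_nonneg_left hx2 hom
        linarith
      have h4 : m ^ Q * m ^ (-α) * J ^ α ≤ J ^ q * W ^ (a - α) := by
        have h5 : m ^ Q * m ^ (-α) = m ^ (q - α) * m ^ (a - α) := by
          rw [← Real.rpow_add hm0, ← Real.rpow_add hm0, hQq]
          congr 1
          ring
        have h6 : J ^ q = J ^ (q - α) * J ^ α := by
          rw [← Real.rpow_add hv0]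
          congr 1
          ring
        rw [h5, h6]
        have h7 : m ^ (q - α) ≤ J ^ (q - α) := Real.rpow_le_rpow hm0.le hmJ (by linarith)
        have h8 : m ^ (a - α) ≤ W ^ (a - α) := Real.rpow_le_rpow hm0.le hmW (by linarith)
        have h9 : m ^ (q - α) * m ^ (a - α) ≤ J ^ (q - α) * W ^ (a - α) :=
          mul_le_mul h7 h8 (Real.rpow_nonneg hm0.le _) (Real.rpow_nonneg hv0.le _)
        calc m ^ (q - α) * m ^ (a - α) * J ^ α ≤ J ^ (q - α) * W ^ (a - α) * J ^ α :=
              mul_le_mul_of_nonneg_right h9 (Real.rpow_nonneg hv0.le _)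
          _ = J ^ (q - α) * J ^ α * W ^ (a - α) := by ring
      rw [abs_mul, abs_of_nonneg (by linarith : 0 ≤ om a V m - om a V m')]
      calc |Th e s a α v w'| * (om a V m - om a V m')
          ≤ (m ^ Q * (2 * J ^ α)) * (4 * (om a V m * (L ^ α * m ^ (-α)))) :=
            mul_le_mul hTh h3 (by linarith) (by
              have h5 := Real.rpow_nonneg hm0.le Q
              have h6 := Real.rpow_nonneg hv0.le α
              positivity)
        _ = 8 * ((m ^ Q * m ^ (-α) * J ^ α) * (om a V m * L ^ α)) := by ring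
        _ ≤ 8 * ((J ^ q * W ^ (a - α)) * (om a V m * L ^ α)) := by
            have := mul_le_mul_of_nonneg_right h4 (mul_nonneg hom hLα)
            linarith
        _ = _ := by ring
  rw [hdec]
  refine (abs_add_le _ _).trans ((add_le_add h1 h2).trans (le_of_eq ?_))
  ring

lemma Tv_holder (P : PP s a α) (e : Fin d) (hV : 1 ≤ V) (v w w' : Vec d) :
    |Tv e s a α V v w - Tv e s a α V v w'| ≤
      16 * jb v ^ qq s a α * (om a V (min (jb v) (max (jb w) (jb w'))) *
        (max (jb w) (jb w') ^ (a - α) * len (w - w') ^ α)) := by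
  rcases le_total (jb w') (jb w) with h | h
  · rw [max_eq_left h]
    exact thV_aux P e hV v w w' h
  · rw [max_eq_right h, abs_sub_comm, len_comm w w']
    exact thV_aux P e hV v w' w h

end Pool.Agent.H25.PT
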