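import Pool.Agent.H25.PT.HwV
import Pool.Agent.H25.PT.ThV
import Pool.Agent.H25.PT.XWB

/-!
# Module FibV: `∫ Tv(v,w) Q(g)(w) dw`

`hwV_bound` with `ψ = Tv v ·`, `A = 16 jb v^q`, `ω(x) = om a V (min (jb v) (max 0 x))` (monotone, continuous, in `[0,1]`; for `x ≥ 0` it is `om a V (min (jb v) x)`; `Tv_holder`).
Then `jb v^q ω(RR) ≤ jb v² omM a q V (RR)` (`om_psi`, `q = qq s a α ∈ [0,2]`), so `jb v^q XG a ω g ≤ jb v² XM a q V g` (`XM_integrable`, `dens_nonneg`).
-/

set_option autoImplicit false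

open MeasureTheory Set Filter Topology Pool.Agent.H25.Kin Pool.Agent.H82.BK Pool.Agent.H82.CM
open Pool.Agent.H48.PL Pool.Agent.H48.PI

namespace Pool.Agent.H25.PT

variable {d : ℕ} {s a α C Ca cb : ℝ} {b : ℝ → ℝ}

/-- `XG` with the weight of this module is at most `jb v ^ (2 - q)` times `XM` -/
lemma XG_le_XM (ha : 0 ≤ a) (ha1 : a ≤ 1) {q V : ℝ} (hq : 0 ≤ q) (hq2 : q ≤ 2) (hV : 1 ≤ V)
    {g : Vec d → ℝ} (hg : RD g) (hgc : Continuous g) (hg0 : ∀ v, 0 ≤ g v) {j : ℝ} (hj : 1 ≤ j) :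
    j ^ q * XG a (fun p => om a V (min j (max 0 (RR p.1 p.2)))) g ≤ j ^ (2 : ℝ) * XM a q V g := by
  have hV0 : 0 < V := by linarith
  unfold XG XM
  rw [← integral_const_mul, ← integral_const_mul]
  refine integral_mono_of_nonneg (Eventually.of_forall fun p => ?_)
    ((XM_integrable ha ha1 hq2 hV hg hgc).const_mul _) (Eventually.of_forall fun p => ?_)
  · have h1 := dens_nonneg (a := a) hg0 p
    have h2 : 0 ≤ om a V (min j (max 0 (RR p.1 p.2))) :=
      om_nonneg hV0 (le_min (by linarith) (le_max_left _ _))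
    have h3 : 0 ≤ j ^ q := Real.rpow_nonneg (by linarith) _
    exact mul_nonneg h3 (mul_nonneg h1 h2)
  · have h1 := dens_nonneg (a := a) hg0 p
    have h2 : 1 ≤ RR p.1 p.2 := one_le_RR _ _
    have h3 : max 0 (RR p.1 p.2) = RR p.1 p.2 := max_eq_right (by linarith)
    have h4 := om_psi ha ha1 hq hq2 hV hj h2
    have h5 : j ^ (2 : ℝ) = j ^ 2 := Real.rpow_two j
    simp only [h3, h5]
    calc j ^ q * (dens a g p * om a V (min j (RR p.1 p.2)))
        = dens a g p * (j ^ q * om a V (min j (RR p.1 p.2))) := by ring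
      _ ≤ dens a g p * (j ^ 2 * omM a q V (RR p.1 p.2)) := mul_le_mul_of_nonneg_left h4 h1
      _ = j ^ 2 * (dens a g p * omM a q V (RR p.1 p.2)) := by ring

theorem fib_Tv (HL : HypL d (1 + a) s b C Ca cb) (P : PP s a α) (e : Fin d) :
    ∃ K : ℝ, 0 ≤ K ∧ ∀ V : ℝ, 1 ≤ V → ∀ g : Vec d → ℝ, Nice g → (∀ v, 0 ≤ g v) → ∀ v : Vec d,
      |∫ w, Tv e s a α V v w * boltzQ (1 + a) b g w| ≤ K * (jb v ^ (2 : ℝ) * XM a (qq s a α) V g) := by
  have ha0 : 0 < a := P.hs0.2.1
  have ha1 : a ≤ 1 := by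
    obtain ⟨-, -, h, -⟩ := P.hs0
    linarith
  have hq0 : 0 ≤ qq s a α := by
    have := P.hq1.1
    linarith
  have hq2 : qq s a α ≤ 2 := P.hq1.2.1.le
  obtain ⟨K, hK, hk⟩ := hwV_bound (α := α) HL P.hα P.hαa ha1
  refine ⟨16 * K, by positivity, fun V hV g hg hg0 v => ?_⟩
  have hV0 : 0 < V := by linarith
  have hj0 : 0 < jb v := jb_pos v
  have h0 : 0 ≤ 16 * jb v ^ qq s a α := mul_nonneg (by norm_num) (Real.rpow_nonneg hj0.le _)
  have hnn : ∀ x : ℝ, 0 ≤ min (jb v) (max 0 x) := fun x => le_min hj0.le (le_max_left _ _)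
  have h1 := hk (fun x => om a V (min (jb v) (max 0 x)))
    (fun x y hxy => om_mono ha1 hV0 (hnn x) (min_le_min le_rfl (max_le_max le_rfl hxy)))
    ((om_cont ha1 V).comp (continuous_const.min (continuous_const.max continuous_id)))
    (fun x => om_nonneg hV0 (hnn x)) (fun x => om_le_one ha1 hV0 (hnn x))
    (fun w => Tv e s a α V v w) (16 * jb v ^ qq s a α) h0
    (fun w w' => by
      have h2 := Tv_holder P e hV v w w'
      have h3 : max 0 (max (jb w) (jb w')) = max (jb w) (jb w') :=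
        max_eq_right ((jb_pos w).le.trans (le_max_left _ _))
      simp only [h3]
      exact h2) g hg hg0
  have h2 : ∀ w, Tv e s a α V v w * boltzQ (1 + a) b g w =
      boltzQ (1 + a) b g w * Tv e s a α V v w := fun w => mul_comm _ _
  have h3 := XG_le_XM ha0.le ha1 hq0 hq2 hV hg.rd hg.cont hg0 (one_le_jb v)
  simp only [h2]
  calc |∫ w, boltzQ (1 + a) b g w * Tv e s a α V v w|
      ≤ K * (16 * jb v ^ qq s a α *
          XG a (fun p => om a V (min (jb v) (max 0 (RR p.1 p.2)))) g) := h1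
    _ = 16 * K * (jb v ^ qq s a α *
          XG a (fun p => om a V (min (jb v) (max 0 (RR p.1 p.2)))) g) := by ring
    _ ≤ 16 * K * (jb v ^ (2 : ℝ) * XM a (qq s a α) V g) :=
        mul_le_mul_of_nonneg_left h3 (by positivity)

end Pool.Agent.H25.PT
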