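import Pool.Agent.H25.PT.Defs

/-!
# Module OmB: elementary facts about `om a V R = min(1,R/V)^(4-a)` (real numbers only)

`0 ≤ a ≤ 1`, so the exponent `4-a` is in `[3,4]`; `V > 0`.
* `om_scale`: `min 1 (δR/V) ≥ δ min 1 (R/V)`.
* `om_lip`: for `0 < m' ≤ m`: `om m - om m' ≤ 4 om m (m-m')/m`. With `x = min 1 (m/V)`, `y = min 1 (m'/V)`: `y/x ≥ m'/m` (cases), `y^c ≥ x^c (m'/m)^c ≥ x^c (1 - c (1 - m'/m))`
  (Bernoulli: `one_add_mul_self_le_rpow_one_add`, `c = 4-a ≥ 1`), `c ≤ 4`.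
* `om_psi`: `j^q om(min(j,R)) ≤ j² om(R) min(R,V)^(q-2)`, `0 ≤ q ≤ 2`. `j ≥ R`: `j^(q-2) ≤ R^(q-2) ≤ min(R,V)^(q-2)` (`q-2 ≤ 0`). `j < R`, `j ≥ V`: `om j = 1 = om R`,
  `j^(q-2) ≤ V^(q-2)`. `j < R`, `j < V`: with `r = min(R,V) ≥ j`: `om R = (r/V)^(4-a)`, `om j = (j/V)^(4-a)`, and `j^(q+2-a) ≤ r^(q+2-a)`.
* `omM_le`: `1 ≤ R₀ ≤ V`, `q ≤ 2`: if `R ≥ R₀`: `min(R,V)^(q-2) ≤ R₀^(q-2)`; if `1 ≤ R < R₀`: `min(R,V) = R`, `R^(q-2) ≤ 1`, `om R ≤ om R₀ = (R₀/V)^(4-a)`.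
* continuity: `Real.continuous_rpow_const`/`Continuous.rpow_const` (exponent `≥ 0`); `omM` is continuous on `R ≥ 1` only, as a function of `RR p.1 p.2 ≥ 1` it is continuous.
-/

set_option autoImplicit false

open MeasureTheory Set Filter Topology Pool.Agent.H25.Kin Pool.Agent.H48.PL Pool.Agent.H48.PI

namespace Pool.Agent.H25.PT

variable {d : ℕ} {a V R q : ℝ}

private lemma OmB_min_nonneg (hV : 0 < V) (hR : 0 ≤ R) : 0 ≤ min 1 (R / V) :=
  le_min zero_le_one (div_nonneg hR hV.le)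

lemma om_nonneg (hV : 0 < V) (hR : 0 ≤ R) : 0 ≤ om a V R :=
  Real.rpow_nonneg (OmB_min_nonneg hV hR) _

lemma om_le_one (ha1 : a ≤ 1) (hV : 0 < V) (hR : 0 ≤ R) : om a V R ≤ 1 :=
  Real.rpow_le_one (OmB_min_nonneg hV hR) (min_le_left _ _) (by linarith)

lemma om_mono (ha1 : a ≤ 1) (hV : 0 < V) {R R' : ℝ} (hR : 0 ≤ R) (h : R ≤ R') : om a V R ≤ om a V R' :=
  Real.rpow_le_rpow (OmB_min_nonneg hV hR) (min_le_min_left _ (div_le_div_of_nonneg_right h hV.le)) (by linarith)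

lemma om_scale (ha : 0 ≤ a) (ha1 : a ≤ 1) (hV : 0 < V) (hR : 0 ≤ R) {δ : ℝ} (hδ : 0 < δ) (hδ1 : δ ≤ 1) :
    δ ^ (4 : ℕ) * om a V R ≤ om a V (δ * R) := by
  have h1 : δ * min 1 (R / V) ≤ min 1 (δ * R / V) := by
    refine le_min ?_ ?_
    · calc δ * min 1 (R / V) ≤ δ * 1 := mul_le_mul_of_nonneg_left (min_le_left _ _) hδ.le
        _ ≤ 1 := by linarith
    · calc δ * min 1 (R / V) ≤ δ * (R / V) := mul_le_mul_of_nonneg_left (min_le_right _ _) hδ.le
        _ = δ * R / V := by ring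
  have h2 : (δ * min 1 (R / V)) ^ (4 - a) ≤ om a V (δ * R) :=
    Real.rpow_le_rpow (mul_nonneg hδ.le (OmB_min_nonneg hV hR)) h1 (by linarith)
  have h3 : δ ^ (4 : ℕ) ≤ δ ^ (4 - a) := by
    have h4 : δ ^ (4 : ℕ) = δ ^ (4 : ℝ) := by
      rw [← Real.rpow_natCast]
      norm_num
    rw [h4]
    exact Real.rpow_le_rpow_of_exponent_ge hδ hδ1 (by linarith)
  calc δ ^ (4 : ℕ) * om a V R ≤ δ ^ (4 - a) * om a V R := mul_le_mul_of_nonneg_right h3 (om_nonneg hV hR)
    _ = (δ * min 1 (R / V)) ^ (4 - a) := by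
      unfold om
      rw [Real.mul_rpow hδ.le (OmB_min_nonneg hV hR)]
    _ ≤ om a V (δ * R) := h2

lemma om_lip (ha : 0 ≤ a) (ha1 : a ≤ 1) (hV : 0 < V) {m m' : ℝ} (hm' : 0 < m') (h : m' ≤ m) :
    om a V m - om a V m' ≤ 4 * (om a V m * ((m - m') / m)) := by
  have hm : 0 < m := lt_of_lt_of_le hm' h
  have hr0 : 0 < m' / m := div_pos hm' hm
  have hr1 : m' / m ≤ 1 := (div_le_one hm).2 h
  have h1 : min 1 (m / V) * (m' / m) ≤ min 1 (m' / V) := by
    refine le_min ?_ ?_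
    · calc min 1 (m / V) * (m' / m) ≤ 1 * (m' / m) := mul_le_mul_of_nonneg_right (min_le_left _ _) hr0.le
        _ ≤ 1 := by linarith
    · calc min 1 (m / V) * (m' / m) ≤ m / V * (m' / m) := mul_le_mul_of_nonneg_right (min_le_right _ _) hr0.le
        _ = m' / V := by field_simp
  have h2 : om a V m * (m' / m) ^ (4 - a) ≤ om a V m' := by
    unfold om
    rw [← Real.mul_rpow (OmB_min_nonneg hV hm.le) hr0.le]
    exact Real.rpow_le_rpow (mul_nonneg (OmB_min_nonneg hV hm.le) hr0.le) h1 (by linarith)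
  have h3 : 1 + (4 - a) * (m' / m - 1) ≤ (m' / m) ^ (4 - a) := by
    have h4 := one_add_mul_self_le_rpow_one_add (s := m' / m - 1) (p := 4 - a) (by linarith) (by linarith)
    rwa [add_sub_cancel] at h4
  have h5 : 0 ≤ om a V m := om_nonneg hV hm.le
  have h6 : (m - m') / m = 1 - m' / m := by field_simp
  rw [h6]
  have h7 : om a V m * (1 + (4 - a) * (m' / m - 1)) ≤ om a V m' :=
    (mul_le_mul_of_nonneg_left h3 h5).trans h2
  have h8 : 0 ≤ om a V m * (1 - m' / m) := mul_nonneg h5 (by linarith)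
  nlinarith [mul_nonneg ha h8]

lemma om_psi (ha : 0 ≤ a) (ha1 : a ≤ 1) (hq : 0 ≤ q) (hq2 : q ≤ 2) (hV : 1 ≤ V) {j : ℝ} (hj : 1 ≤ j)
    (hR : 1 ≤ R) : j ^ q * om a V (min j R) ≤ j ^ 2 * omM a q V R := by
  have _ := ha
  have hV0 : 0 < V := by linarith
  have hj0 : 0 < j := by linarith
  have hR0 : 0 < R := by linarith
  have hr0 : 0 < min R V := lt_min hR0 hV0
  have e1 : j ^ q = j ^ 2 * j ^ (q - 2) := by
    rw [← Real.rpow_natCast j 2, ← Real.rpow_add hj0]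
    congr 1
    push_cast
    ring
  unfold omM
  rcases le_or_gt R j with h | h
  · rw [min_eq_right h]
    have h1 : j ^ (q - 2) ≤ min R V ^ (q - 2) :=
      Real.rpow_le_rpow_of_nonpos hr0 ((min_le_left _ _).trans h) (by linarith)
    rw [e1]
    have h2 := om_nonneg (a := a) hV0 hR0.le
    calc j ^ 2 * j ^ (q - 2) * om a V R ≤ j ^ 2 * min R V ^ (q - 2) * om a V R :=
          mul_le_mul_of_nonneg_right (mul_le_mul_of_nonneg_left h1 (by positivity)) h2
      _ = j ^ 2 * (om a V R * min R V ^ (q - 2)) := by ring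
  · rw [min_eq_left h.le]
    rcases le_or_gt V j with h3 | h3
    · have h1 : j ^ (q - 2) ≤ min R V ^ (q - 2) :=
        Real.rpow_le_rpow_of_nonpos hr0 ((min_le_right _ _).trans h3) (by linarith)
      have h4 : om a V j = 1 := by
        unfold om
        rw [min_eq_left ((one_le_div hV0).2 h3), Real.one_rpow]
      have h5 : om a V R = 1 := by
        unfold om
        rw [min_eq_left ((one_le_div hV0).2 (h3.trans h.le)), Real.one_rpow]
      rw [h4, h5, e1, mul_one, one_mul]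
      exact mul_le_mul_of_nonneg_left h1 (by positivity)
    · have hjr : j ≤ min R V := le_min h.le h3.le
      have h4 : om a V j = j ^ (4 - a) / V ^ (4 - a) := by
        unfold om
        rw [min_eq_right ((div_le_one hV0).2 h3.le), Real.div_rpow hj0.le hV0.le]
      have h5 : om a V R = min R V ^ (4 - a) / V ^ (4 - a) := by
        unfold om
        rw [← Real.div_rpow hr0.le hV0.le]
        congr 1
        rcases le_or_gt R V with h6 | h6
        · rw [min_eq_left h6, min_eq_right ((div_le_one hV0).2 h6)]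
        · rw [min_eq_right h6.le, min_eq_left ((one_le_div hV0).2 h6.le), div_self hV0.ne']
      have hVc : 0 < V ^ (4 - a) := Real.rpow_pos_of_pos hV0 _
      have h6 : j ^ (q - 2) * j ^ (4 - a) ≤ min R V ^ (4 - a) * min R V ^ (q - 2) := by
        rw [← Real.rpow_add hj0, ← Real.rpow_add hr0, add_comm (4 - a) (q - 2)]
        exact Real.rpow_le_rpow hj0.le hjr (by linarith)
      rw [h4, h5, e1]
      calc j ^ 2 * j ^ (q - 2) * (j ^ (4 - a) / V ^ (4 - a)) = j ^ 2 * (j ^ (q - 2) * j ^ (4 - a)) / V ^ (4 - a) := by ring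
        _ ≤ j ^ 2 * (min R V ^ (4 - a) * min R V ^ (q - 2)) / V ^ (4 - a) :=
          div_le_div_of_nonneg_right (mul_le_mul_of_nonneg_left h6 (by positivity)) hVc.le
        _ = j ^ 2 * (min R V ^ (4 - a) / V ^ (4 - a) * min R V ^ (q - 2)) := by ring

lemma omM_nonneg (hV : 1 ≤ V) (hR : 1 ≤ R) : 0 ≤ omM a q V R :=
  mul_nonneg (om_nonneg (by linarith) (by linarith)) (Real.rpow_nonneg (le_min (by linarith) (by linarith)) _)

lemma omM_le_one (ha1 : a ≤ 1) (hq2 : q ≤ 2) (hV : 1 ≤ V) (hR : 1 ≤ R) : omM a q V R ≤ 1 :=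
  mul_le_one₀ (om_le_one ha1 (by linarith) (by linarith)) (Real.rpow_nonneg (le_min (by linarith) (by linarith)) _)
    (Real.rpow_le_one_of_one_le_of_nonpos (le_min hR hV) (by linarith))

lemma omM_le (ha : 0 ≤ a) (ha1 : a ≤ 1) (hq2 : q ≤ 2) {R₀ : ℝ} (hR₀ : 1 ≤ R₀) (hV : R₀ ≤ V) (hR : 1 ≤ R) :
    omM a q V R ≤ R₀ ^ (q - 2) * om a V R + (R₀ / V) ^ (4 - a) := by
  have _ := ha
  have hV0 : 0 < V := by linarith
  have hom := om_nonneg (a := a) hV0 (by linarith : 0 ≤ R)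
  have hp : 0 ≤ (R₀ / V) ^ (4 - a) := Real.rpow_nonneg (div_nonneg (by linarith) hV0.le) _
  unfold omM
  rcases le_or_gt R₀ R with h | h
  · have h1 : min R V ^ (q - 2) ≤ R₀ ^ (q - 2) :=
      Real.rpow_le_rpow_of_nonpos (by linarith) (le_min h hV) (by linarith)
    have h2 := mul_le_mul_of_nonneg_left h1 hom
    linarith
  · have h1 : min R V ^ (q - 2) ≤ 1 :=
      Real.rpow_le_one_of_one_le_of_nonpos (le_min hR (by linarith)) (by linarith)
    have h2 : om a V R ≤ (R₀ / V) ^ (4 - a) := by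
      refine (om_mono ha1 hV0 (by linarith) h.le).trans (le_of_eq ?_)
      unfold om
      rw [min_eq_right ((div_le_one hV0).2 hV)]
    have h3 : om a V R * min R V ^ (q - 2) ≤ om a V R * 1 := mul_le_mul_of_nonneg_left h1 hom
    have h4 : 0 ≤ R₀ ^ (q - 2) * om a V R := mul_nonneg (Real.rpow_nonneg (by linarith) _) hom
    linarith

lemma om_cont (ha1 : a ≤ 1) (V : ℝ) : Continuous (om a V) :=
  (continuous_const.min (continuous_id.div_const V)).rpow_const fun _ => Or.inr (by linarith)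

lemma om_RR_cont (ha1 : a ≤ 1) (V : ℝ) : Continuous fun p : Vec d × Vec d => om a V (RR p.1 p.2) :=
  (om_cont ha1 V).comp RR_cont

lemma omM_RR_cont (ha1 : a ≤ 1) (q : ℝ) (hV : 1 ≤ V) :
    Continuous fun p : Vec d × Vec d => omM a q V (RR p.1 p.2) :=
  (om_RR_cont ha1 V).mul ((RR_cont.min continuous_const).rpow_const fun p =>
    Or.inl (lt_min (RR_pos p.1 p.2) (by linarith)).ne')

end Pool.Agent.H25.PT
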