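import Pool.Agent.H25.PT.PovSV
import Pool.Agent.H48.PL.PovG
import Pool.Agent.H48.PL.Ang

/-!
# Module Pov1V: the angular integral of the increment of `phV`

Copy of PL/Pov1 (418 lines) with `jb^a` replaced by `phV a V`, and the factor `om a V (RR v w)` in all bounds; `RR` is conserved, `jb v² + jb w² = RR²`
(`RR_sq`), `jb post² + jb post'² = RR²`. The increment is `Δ = h(jb post²)+h(jb post'²)-h(jb v²)-h(jb w²)`, `h(x) = (V²+x)^(a/2)`.
* `|Δ| ≤ om (|jb post - jb v|^a + |jb post' - jb w|^a)` (`pv_hol`) `≤ 2 om |V|^a y^(a/2)`, `y = 1 - cosTh`, exactly as there.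
* (P) `0 ≤ x ≤ 1/2`, `(v,w) ∉ CmpS δ`, `δ ≤ 1/100`: `pov_geo`, `pv_mid`, `pv_up`: `Δ ≥ (a/512 - δ^a) RR^a om ≥ (a/1024) RR^a om` if `δ^a ≤ a/1024`.
* (G) `Δ ≥ -2 om |V|^a y^(a/2)`; (M) `Δ ≥ -δ^a RR^a om` (`pv_low`, `pv_up`).
All constants are independent of `V`.
-/

set_option autoImplicit false

open MeasureTheory Set Filter Topology Pool.Agent.H25.Kin Pool.Agent.H82.BK Pool.Agent.H82.CM
open Pool.Agent.H48.PL Pool.Agent.H48.PI

namespace Pool.Agent.H25.PT

variable {d : ℕ} {s a C Ca cb : ℝ} {b : ℝ → ℝ}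

/-- the increment -/
private noncomputable def q1D (a V : ℝ) (v w σ : Vec d) : ℝ :=
  (V ^ 2 + jb (post v w σ) ^ 2) ^ (a / 2) + (V ^ 2 + jb (post' v w σ) ^ 2) ^ (a / 2) -
    (V ^ 2 + jb v ^ 2) ^ (a / 2) - (V ^ 2 + jb w ^ 2) ^ (a / 2)

private lemma q1_one {a : ℝ} (ha : 0 ≤ a) {v p : Vec d} {L y : ℝ} (hL : 0 ≤ L)
    (hy : 0 ≤ y) (h : nsq (p - v) = L ^ 2 * (y / 2)) : |jb p - jb v| ^ a ≤ L ^ a * y ^ (a / 2) := by
  refine (Real.rpow_le_rpow (abs_nonneg _) (jb_lip p v) ha).trans ?_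
  have h1 : len (p - v) ≤ L * y ^ ((1 : ℝ) / 2) := by
    rw [← Real.sqrt_eq_rpow]
    unfold len
    rw [h]
    calc Real.sqrt (L ^ 2 * (y / 2)) ≤ Real.sqrt (L ^ 2 * y) :=
          Real.sqrt_le_sqrt (mul_le_mul_of_nonneg_left (by linarith) (sq_nonneg _))
      _ = L * Real.sqrt y := by rw [Real.sqrt_mul (sq_nonneg _), Real.sqrt_sq hL]
  refine (Real.rpow_le_rpow (len_nonneg _) h1 ha).trans (le_of_eq ?_)
  rw [Real.mul_rpow hL (Real.rpow_nonneg hy _), ← Real.rpow_mul hy]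
  congr 2
  ring

private lemma q1_ABsq {v w σ : Vec d} (hσ : nsq σ = 1) :
    jb (post v w σ) ^ 2 + jb (post' v w σ) ^ 2 = RR v w ^ 2 := by
  rw [← RR_sq, RR_post hσ]

private lemma q1D_abs {a V : ℝ} (ha : 0 < a) (ha1 : a ≤ 1) (hV : 0 < V) {v w σ : Vec d} (hvw : v ≠ w)
    (hσ : nsq σ = 1) : |q1D a V v w σ| ≤
      om a V (RR v w) * (2 * len (v - w) ^ a) * (1 - cosTh v w σ) ^ (a / 2) := by
  have hy := one_sub_cosTh_nonneg (v := v) (w := w) hσ
  have h1 := q1_one ha.le (L := len (v - w)) (len_nonneg _) hy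
    (by rw [nsq_post_sub hvw hσ, len_sq] : nsq (post v w σ - v) = len (v - w) ^ 2 * ((1 - cosTh v w σ) / 2))
  have h2 := q1_one ha.le (L := len (v - w)) (len_nonneg _) hy
    (by rw [nsq_post'_sub hvw hσ, len_sq] : nsq (post' v w σ - w) = len (v - w) ^ 2 * ((1 - cosTh v w σ) / 2))
  have h3 := pv_hol ha ha1 hV (jb_pos v).le (jb_pos w).le (jb_pos (post v w σ)).le
    (jb_pos (post' v w σ)).le (RR_pos v w) (RR_sq v w).symm (q1_ABsq hσ)
  have h4 := om_nonneg (a := a) hV (RR_pos v w).le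
  unfold q1D
  refine h3.trans ?_
  calc om a V (RR v w) * (|jb (post v w σ) - jb v| ^ a + |jb (post' v w σ) - jb w| ^ a)
      ≤ om a V (RR v w) * (len (v - w) ^ a * (1 - cosTh v w σ) ^ (a / 2) +
          len (v - w) ^ a * (1 - cosTh v w σ) ^ (a / 2)) :=
        mul_le_mul_of_nonneg_left (add_le_add h1 h2) h4
    _ = om a V (RR v w) * (2 * len (v - w) ^ a) * (1 - cosTh v w σ) ^ (a / 2) := by ring

private lemma q1D_meas {a V : ℝ} (ha : 0 ≤ a) (v w : Vec d) :
    Measurable fun σ : Vec d => q1D a V v w σ := by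
  unfold q1D
  have h1 : Continuous fun σ : Vec d => V ^ 2 + jb (post v w σ) ^ 2 :=
    continuous_const.add ((jb_cont.comp (continuous_post.comp
      (continuous_const.prodMk (continuous_const.prodMk continuous_id)))).pow 2)
  have h2 : Continuous fun σ : Vec d => V ^ 2 + jb (post' v w σ) ^ 2 :=
    continuous_const.add ((jb_cont.comp (continuous_post'.comp
      (continuous_const.prodMk (continuous_const.prodMk continuous_id)))).pow 2)
  have ha2 : 0 ≤ a / 2 := by linarith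
  exact ((((h1.rpow_const fun _ => Or.inr ha2).add (h2.rpow_const fun _ => Or.inr ha2)).sub
    continuous_const).sub continuous_const).measurable

private lemma q1_y_le {v w σ : Vec d} (hσ : nsq σ = 1) : 1 - cosTh v w σ ≤ 2 := by
  have := (abs_le.1 (abs_cosTh_le (v := v) (w := w) hσ)).1
  linarith

private lemma q1_integrable (H : Hyp d (1 + a) s b C Ca) (ha : 0 < a) (ha1 : a ≤ 1) {ε V : ℝ}
    (hε : 0 < ε) (hV : 0 < V) {v w : Vec d} (hvw : v ≠ w) :
    Integrable (fun σ => kerB (1 + a) b ε v w σ * q1D a V v w σ) (surf d) := by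
  refine inner_integrable (F0 := om a V (RR v w) * (2 * len (v - w) ^ a) * 2 ^ (a / 2)) H.bm H.bd H.β0
    hε (q1D_meas ha.le v w) fun σ hσ => ?_
  refine (q1D_abs ha ha1 hV hvw hσ).trans ?_
  have h0 := Real.rpow_nonneg (len_nonneg (v - w)) a
  have h4 := om_nonneg (a := a) hV (RR_pos v w).le
  exact mul_le_mul_of_nonneg_left
    (Real.rpow_le_rpow (one_sub_cosTh_nonneg hσ) (q1_y_le hσ) (by linarith)) (by positivity)

private lemma q1_ainc (γ : ℝ) (b : ℝ → ℝ) (ε V : ℝ) (v w : Vec d) :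
    ainc γ b ε (phV a V) v w = ∫ σ, kerB γ b ε v w σ * q1D a V v w σ ∂(surf d) := by
  unfold ainc
  congr 1
  funext σ
  unfold phV q1D
  ring

theorem aincV_abs (HL : HypL d (1 + a) s b C Ca cb) (h1 : 2 * s < a) (ha1 : a ≤ 1) :
    ∃ K : ℝ, 0 ≤ K ∧ ∀ ε : ℝ, 0 < ε → ∀ V : ℝ, 1 ≤ V → ∀ v w : Vec d, v ≠ w →
      |ainc (1 + a) b ε (phV a V) v w| ≤ K * (len (v - w) ^ (1 + a) * RR v w ^ a * om a V (RR v w)) := by
  have hs := HL.H.hs
  have ha : 0 < a := by linarith
  obtain ⟨A, hA, hker⟩ := ker_small HL.H (τ := a / 2) (by linarith) (by linarith)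
  have hu0 : (0 : ℝ) ≤ 2 ^ (a / 2 - s) := by positivity
  refine ⟨4 * A * 2 ^ (a / 2 - s), by positivity, fun ε hε V hV1 v w hvw => ?_⟩
  have hV : 0 < V := by linarith
  obtain ⟨hi, hle⟩ := hker ε hε v w hvw 2 (by norm_num)
  have hae : ∀ᵐ σ ∂(surf d), σ ∈ {σ : Vec d | 1 - cosTh v w σ ≤ 2} := by
    filter_upwards [surf_ae] with σ hσ
    exact q1_y_le hσ
  have hres : (surf d).restrict {σ : Vec d | 1 - cosTh v w σ ≤ 2} = surf d :=
    Measure.restrict_eq_self_of_ae_mem hae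
  rw [IntegrableOn, hres] at hi
  rw [hres] at hle
  have hl0 := Real.rpow_nonneg (len_nonneg (v - w)) a
  have hl1 := Real.rpow_nonneg (len_nonneg (v - w)) (1 + a)
  have hO : 0 ≤ om a V (RR v w) := om_nonneg hV (RR_pos v w).le
  rw [q1_ainc]
  calc |∫ σ, kerB (1 + a) b ε v w σ * q1D a V v w σ ∂(surf d)|
      ≤ ∫ σ, |kerB (1 + a) b ε v w σ * q1D a V v w σ| ∂(surf d) := abs_integral_le_integral_abs
    _ ≤ ∫ σ, om a V (RR v w) * (2 * len (v - w) ^ a) *
          (kerB (1 + a) b ε v w σ * (1 - cosTh v w σ) ^ (a / 2)) ∂(surf d) := by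
        refine integral_mono_ae (q1_integrable HL.H ha ha1 hε hV hvw).abs (hi.const_mul _) ?_
        filter_upwards [surf_ae] with σ hσ
        have hk := kerB_nonneg (γ := 1 + a) HL.H.bd hε (v := v) (w := w) hσ
        rw [abs_mul, abs_of_nonneg hk]
        calc kerB (1 + a) b ε v w σ * |q1D a V v w σ|
            ≤ kerB (1 + a) b ε v w σ * (om a V (RR v w) * (2 * len (v - w) ^ a) *
                (1 - cosTh v w σ) ^ (a / 2)) :=
              mul_le_mul_of_nonneg_left (q1D_abs ha ha1 hV hvw hσ) hk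
          _ = _ := by ring
    _ = om a V (RR v w) * (2 * len (v - w) ^ a) *
          ∫ σ, kerB (1 + a) b ε v w σ * (1 - cosTh v w σ) ^ (a / 2) ∂(surf d) :=
        integral_const_mul _ _
    _ ≤ om a V (RR v w) * (2 * len (v - w) ^ a) * (A * len (v - w) ^ (1 + a) * 2 ^ (a / 2 - s)) :=
        mul_le_mul_of_nonneg_left hle (by positivity)
    _ ≤ om a V (RR v w) * (2 * (2 * RR v w ^ a)) * (A * len (v - w) ^ (1 + a) * 2 ^ (a / 2 - s)) := by
        refine mul_le_mul_of_nonneg_right ?_ (by positivity)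
        refine mul_le_mul_of_nonneg_left ?_ hO
        refine mul_le_mul_of_nonneg_left ?_ (by norm_num)
        refine (Real.rpow_le_rpow (len_nonneg _) (len_le_RR v w) ha.le).trans ?_
        rw [Real.mul_rpow (by norm_num) (RR_pos v w).le]
        refine mul_le_mul_of_nonneg_right ?_ (Real.rpow_nonneg (RR_pos v w).le _)
        calc (2 : ℝ) ^ a ≤ 2 ^ (1 : ℝ) := Real.rpow_le_rpow_of_exponent_le (by norm_num) ha1
          _ = 2 := Real.rpow_one 2
    _ = 4 * A * 2 ^ (a / 2 - s) * (len (v - w) ^ (1 + a) * RR v w ^ a * om a V (RR v w)) := by ring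

/-- a unit vector with `k · σ₀ = 1/4` -/
private lemma q1_vec (hd : 2 ≤ d) {k : Vec d} (hk : nsq k = 1) :
    ∃ z : Vec d, nsq z = 1 ∧ dot k z = 1 / 4 := by
  obtain ⟨i, hi⟩ : ∃ i, k i ≠ 0 := by
    by_contra hcon
    push Not at hcon
    have : nsq k = 0 := by unfold nsq; simp [hcon]
    rw [hk] at this
    norm_num at this
  obtain ⟨j, hj⟩ : ∃ j : Fin d, j ≠ i := by
    have : Nontrivial (Fin d) := Fin.nontrivial_iff_two_le.2 hd
    exact exists_ne i
  set m : Vec d := k j • Pi.single i 1 - k i • Pi.single j 1 with hm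
  have hdi : ∀ u : Vec d, ∀ l : Fin d, dot u (Pi.single l 1) = u l := by
    intro u l
    unfold dot
    rw [Finset.sum_eq_single l]
    · simp
    · intro b _ hb
      simp [hb]
    · intro h; exact absurd (Finset.mem_univ l) h
  have hkm : dot k m = 0 := by
    rw [hm, dot_sub, dot_smul, dot_smul, hdi, hdi]; ring
  have hm0 : 0 < nsq m := by
    have hmj : m j = - k i := by
      rw [hm]
      simp [hj]
    have h1 : m ≠ 0 := by
      intro h
      rw [h] at hmj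
      simp only [Pi.zero_apply] at hmj
      exact hi (by linarith)
    exact sq_pos_of_ne h1
  set n : Vec d := dir m with hn
  have hm1 : m ≠ 0 := by
    rintro h
    rw [h] at hm0
    unfold nsq at hm0
    simp at hm0
  have hn1 : nsq n = 1 := nsq_dir hm1
  have hkn : dot k n = 0 := by
    rw [hn]
    unfold dir
    rw [dot_smul, hkm, mul_zero]
  refine ⟨(1 / 4 : ℝ) • k + (Real.sqrt 15 / 4) • n, ?_, ?_⟩
  · rw [nsq_add, nsq_smul, nsq_smul, smul_dot, dot_smul, hkn, hk, hn1]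
    have h15 : Real.sqrt 15 ^ 2 = 15 := Real.sq_sqrt (by norm_num)
    linear_combination (1 / 16) * h15
  · rw [dot_add, dot_smul, dot_smul, hkn, dot_self, hk]; ring

/-- the measure of the band `0 ≤ k · σ ≤ 1/2` -/
private lemma q1_band (hd : 2 ≤ d) : ∃ μ : ℝ, 0 < μ ∧ ∀ k : Vec d, nsq k = 1 →
    μ ≤ ((surf d) {σ : Vec d | 0 ≤ dot k σ ∧ dot k σ ≤ 1 / 2}).toReal := by
  obtain ⟨c, hc, hcap⟩ := cap_low hd
  refine ⟨c * (1 / 8) ^ ((d : ℝ) - 1), by positivity, fun k hk => ?_⟩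
  obtain ⟨z, hz, hkz⟩ := q1_vec hd hk
  have h1 := hcap z hz (1 / 8) (by norm_num) (by norm_num)
  have h2 : {σ : Vec d | nsq σ = 1 ∧ nsq (σ - z) ≤ (1 / 8) ^ 2} ⊆
      {σ : Vec d | 0 ≤ dot k σ ∧ dot k σ ≤ 1 / 2} := by
    rintro σ ⟨_, h3⟩
    have h4 := dot_sq_le k (σ - z)
    rw [hk, one_mul, dot_sub, hkz] at h4
    have h5 := abs_le_of_sq_le_sq' (h4.trans h3) (by norm_num)
    have h6 : 0 ≤ dot k σ := by linarith [h5.1]
    have h7 : dot k σ ≤ 1 / 2 := by linarith [h5.2]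
    exact ⟨h6, h7⟩
  have h3 := h1.trans (measure_mono h2)
  have h4 := ENNReal.toReal_mono (measure_ne_top (surf d) _) h3
  rwa [ENNReal.toReal_ofReal (by positivity)] at h4

private lemma q1_small {p t : ℝ} (hp : 0 < p) (ht : 0 < t) :
    ∃ u : ℝ, 0 < u ∧ u ≤ 1 / 100 ∧ u ^ p ≤ t := by
  refine ⟨min (1 / 100) (t ^ (1 / p)), lt_min (by norm_num) (by positivity), min_le_left _ _, ?_⟩
  have h0 : 0 ≤ min (1 / 100) (t ^ (1 / p)) := le_min (by norm_num) (by positivity)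
  refine (Real.rpow_le_rpow h0 (min_le_right _ _) hp.le).trans (le_of_eq ?_)
  rw [← Real.rpow_mul ht.le, one_div, inv_mul_cancel₀ hp.ne', Real.rpow_one]

private lemma q1D_low {δ V : ℝ} (ha : 0 < a) (ha1 : a ≤ 1) (hV : 0 < V) (hδ : 0 < δ) (hδ1 : δ ≤ 1)
    {v w σ : Vec d} (hσ : nsq σ = 1) (hm : jb v ≤ δ * RR v w ∨ jb w ≤ δ * RR v w) :
    -(δ ^ a * (RR v w ^ a * om a V (RR v w))) ≤ q1D a V v w σ := by
  have h1 := pv_low ha ha1 hV (q1_ABsq (v := v) (w := w) hσ)
  have h2 := pv_up ha ha1 hV (jb_pos v).le (jb_pos w).le (RR_pos v w) hδ.le hδ1 (RR_sq v w).symm hm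
  unfold q1D
  linarith

private lemma q1D_mid {δ V : ℝ} (ha : 0 < a) (ha1 : a ≤ 1) (hV : 0 < V) (hδ : 0 < δ)
    (hδ1 : δ ≤ 1 / 100) (hδa : δ ^ a ≤ a / 1024)
    {v w σ : Vec d} (hvw : v ≠ w) (hσ : nsq σ = 1) (hm : jb v ≤ δ * RR v w ∨ jb w ≤ δ * RR v w)
    (h0 : 0 ≤ cosTh v w σ) (h1 : cosTh v w σ ≤ 1 / 2) :
    a / 1024 * (RR v w ^ a * om a V (RR v w)) ≤ q1D a V v w σ := by
  obtain ⟨g1, g2⟩ := pov_geo hδ hδ1 hvw hσ hm h0 h1
  have h3 := pv_mid ha ha1 hV (RR_pos v w) g1 g2 (q1_ABsq (v := v) (w := w) hσ)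
  have h2 := pv_up ha ha1 hV (jb_pos v).le (jb_pos w).le (RR_pos v w) hδ.le (by linarith)
    (RR_sq v w).symm hm
  have h4 : 0 ≤ RR v w ^ a * om a V (RR v w) :=
    mul_nonneg (Real.rpow_nonneg (RR_pos v w).le a) (om_nonneg hV (RR_pos v w).le)
  have h5 := mul_le_mul_of_nonneg_right hδa h4
  unfold q1D
  linarith

theorem aincV_hc (HL : HypL d (1 + a) s b C Ca cb) (h1 : 2 * s < a) (ha1 : a ≤ 1) :
    ∃ δ c ε₀ : ℝ, 0 < δ ∧ δ < 1 ∧ 0 < c ∧ 0 < ε₀ ∧ ∀ ε : ℝ, 0 < ε → ε ≤ ε₀ → ∀ V : ℝ, 1 ≤ V →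
      ∀ v w : Vec d, v ≠ w → (v, w) ∉ (CmpS δ : Set (Vec d × Vec d)) →
      c * (len (v - w) ^ (1 + a) * RR v w ^ a * om a V (RR v w)) ≤ ainc (1 + a) b ε (phV a V) v w := by
  have hs := HL.H.hs
  have ha : 0 < a := by linarith
  have hcb := HL.lo.1
  obtain ⟨A, hA, hks⟩ := ker_small HL.H (τ := a / 2) (by linarith) (by linarith)
  obtain ⟨B, hB, hkl⟩ := ker_large HL.H
  obtain ⟨μ, hμ, hband⟩ := q1_band HL.H.hd
  set κ : ℝ := cb * μ * a / 4096 with hκ
  have hκ0 : 0 < κ := by positivity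
  obtain ⟨u, hu, hu1, hu2⟩ := q1_small (p := a / 2 - s) (t := κ / (4 * A + 1)) (by linarith)
    (by positivity)
  have hus : 0 < u ^ (-s) := Real.rpow_pos_of_pos hu _
  obtain ⟨δ, hδ, hδ1, hδ2⟩ := q1_small (p := a) (t := min (a / 1024) (κ / (B * u ^ (-s) + 1))) ha
    (lt_min (by positivity) (by positivity))
  have hδ3 : δ ^ a ≤ a / 1024 := hδ2.trans (min_le_left _ _)
  have hδ4 : δ ^ a ≤ κ / (B * u ^ (-s) + 1) := hδ2.trans (min_le_right _ _)
  have hδa : 0 ≤ δ ^ a := Real.rpow_nonneg hδ.le _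
  have hsm1 : 4 * A * u ^ (a / 2 - s) ≤ κ := by
    have h2 : (4 * A + 1) * u ^ (a / 2 - s) ≤ κ := by
      rw [mul_comm]
      exact (le_div_iff₀ (by positivity)).1 hu2
    have h3 := Real.rpow_nonneg hu.le (a / 2 - s)
    nlinarith
  have hsm2 : δ ^ a * (B * u ^ (-s)) ≤ κ := by
    have h2 : δ ^ a * (B * u ^ (-s) + 1) ≤ κ := (le_div_iff₀ (by positivity)).1 hδ4
    nlinarith
  refine ⟨δ, 2 * κ, 1 / 2, hδ, by linarith, by positivity, by norm_num,
    fun ε hε hε1 V hV1 v w hvw hnot => ?_⟩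
  have hVV : 0 < V := by linarith
  have hm : jb v ≤ δ * RR v w ∨ jb w ≤ δ * RR v w := by
    by_contra hcon
    push Not at hcon
    exact hnot ⟨hcon.1.le, hcon.2.le⟩
  obtain ⟨hi1, hl1⟩ := hks ε hε v w hvw u hu
  obtain ⟨hi2, hl2⟩ := hkl ε hε v w hvw u hu
  set L := len (v - w) with hL
  have hL0 : 0 ≤ L := len_nonneg _
  set R := RR v w with hR
  have hR0 : 0 < R := RR_pos v w
  have hRa : 0 < R ^ a := Real.rpow_pos_of_pos hR0 _
  have hLa : 0 ≤ L ^ a := Real.rpow_nonneg hL0 _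
  have hLg : 0 ≤ L ^ (1 + a) := Real.rpow_nonneg hL0 _
  obtain ⟨O, hOd⟩ : ∃ O : ℝ, O = om a V R := ⟨_, rfl⟩
  have hO : 0 ≤ O := by rw [hOd]; exact om_nonneg hVV hR0.le
  have hcm := measurable_cosTh' (d := d) v w
  set P : Set (Vec d) := {σ | 0 ≤ cosTh v w σ ∧ cosTh v w σ ≤ 1 / 2} with hP
  set G : Set (Vec d) := {σ | 1 - cosTh v w σ ≤ u} with hG
  set M : Set (Vec d) := {σ | u ≤ 1 - cosTh v w σ} with hM
  have hPm : MeasurableSet P :=
    (measurableSet_le measurable_const hcm).inter (measurableSet_le hcm measurable_const)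
  have hGm : MeasurableSet G := measurableSet_le (measurable_const.sub hcm) measurable_const
  have hMm : MeasurableSet M := measurableSet_le measurable_const (measurable_const.sub hcm)
  have hkm := measurable_kerB' (d := d) (1 + a) HL.H.bm ε v w
  have hkP : Integrable (fun σ => P.indicator (fun σ => kerB (1 + a) b ε v w σ *
      (a / 1024 * (R ^ a * O))) σ) (surf d) := by
    refine Integrable.indicator ?_ hPm
    exact inner_integrable (F0 := a / 1024 * (R ^ a * O)) HL.H.bm HL.H.bd HL.H.β0 hε measurable_const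
      fun σ _ => by rw [abs_of_nonneg (by positivity)]
  have hkG : Integrable (fun σ => G.indicator (fun σ => (kerB (1 + a) b ε v w σ *
      (1 - cosTh v w σ) ^ (a / 2)) * (O * (2 * L ^ a))) σ) (surf d) := by
    have h2 : IntegrableOn (fun σ => (kerB (1 + a) b ε v w σ *
      (1 - cosTh v w σ) ^ (a / 2)) * (O * (2 * L ^ a))) G (surf d) := hi1.mul_const _
    exact (integrable_indicator_iff hGm).2 h2
  have hkM : Integrable (fun σ => M.indicator (fun σ => kerB (1 + a) b ε v w σ *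
      (δ ^ a * (R ^ a * O))) σ) (surf d) := by
    have h2 : IntegrableOn (fun σ => kerB (1 + a) b ε v w σ * (δ ^ a * (R ^ a * O))) M (surf d) :=
      hi2.mul_const _
    exact (integrable_indicator_iff hMm).2 h2
  have hmono : ∫ σ, (P.indicator (fun σ => kerB (1 + a) b ε v w σ * (a / 1024 * (R ^ a * O))) σ -
      G.indicator (fun σ => (kerB (1 + a) b ε v w σ * (1 - cosTh v w σ) ^ (a / 2)) *
        (O * (2 * L ^ a))) σ -
      M.indicator (fun σ => kerB (1 + a) b ε v w σ * (δ ^ a * (R ^ a * O))) σ) ∂(surf d) ≤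
      ∫ σ, kerB (1 + a) b ε v w σ * q1D a V v w σ ∂(surf d) := by
    refine integral_mono_ae ((hkP.sub hkG).sub hkM) (q1_integrable HL.H ha ha1 hε hVV hvw) ?_
    filter_upwards [surf_ae] with σ hσ
    have hk := kerB_nonneg (γ := 1 + a) HL.H.bd hε (v := v) (w := w) hσ
    have hy := one_sub_cosTh_nonneg (v := v) (w := w) hσ
    have hya : 0 ≤ (1 - cosTh v w σ) ^ (a / 2) := Real.rpow_nonneg hy _
    simp only [Set.indicator_apply]
    by_cases hPσ : σ ∈ P
    · have hGσ : σ ∉ G := by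
        intro h
        have e1 : 1 - cosTh v w σ ≤ u := h
        have e2 := hPσ.2
        linarith
      rw [if_pos hPσ, if_neg hGσ]
      have h3 : a / 1024 * (R ^ a * O) ≤ q1D a V v w σ := by
        rw [hOd]
        exact q1D_mid ha ha1 hVV hδ hδ1 hδ3 hvw hσ hm hPσ.1 hPσ.2
      have h4 : 0 ≤ (if σ ∈ M then kerB (1 + a) b ε v w σ * (δ ^ a * (R ^ a * O)) else 0) := by
        split_ifs
        · positivity
        · exact le_rfl
      have h5 := mul_le_mul_of_nonneg_left h3 hk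
      linarith
    · rw [if_neg hPσ]
      by_cases hGσ : σ ∈ G
      · rw [if_pos hGσ]
        have h3 : -(O * (2 * L ^ a) * (1 - cosTh v w σ) ^ (a / 2)) ≤ q1D a V v w σ := by
          rw [hOd]
          exact (abs_le.1 (q1D_abs (a := a) ha ha1 hVV hvw hσ)).1
        have h4 : 0 ≤ (if σ ∈ M then kerB (1 + a) b ε v w σ * (δ ^ a * (R ^ a * O)) else 0) := by
          split_ifs
          · positivity
          · exact le_rfl
        have h5 := mul_le_mul_of_nonneg_left h3 hk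
        nlinarith
      · have hMσ : σ ∈ M := by
          have e1 : ¬ (1 - cosTh v w σ ≤ u) := hGσ
          have e2 : u ≤ 1 - cosTh v w σ := (not_le.1 e1).le
          exact e2
        rw [if_neg hGσ, if_pos hMσ]
        have h3 : -(δ ^ a * (R ^ a * O)) ≤ q1D a V v w σ := by
          rw [hOd]
          exact q1D_low ha ha1 hVV hδ (by linarith) hσ hm
        have h5 := mul_le_mul_of_nonneg_left h3 hk
        linarith
  rw [q1_ainc, ← hOd]
  refine le_trans ?_ hmono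
  have e1 := integral_sub (hkP.sub hkG) hkM
  have e2 := integral_sub hkP hkG
  simp only [Pi.sub_apply] at e1
  rw [e1, e2, integral_indicator hPm, integral_indicator hGm, integral_indicator hMm,
    integral_mul_const, integral_mul_const, integral_mul_const]
  -- lower bound of the mass of `P`
  have hPlow : L ^ (1 + a) * cb * μ ≤ ∫ σ in P, kerB (1 + a) b ε v w σ ∂(surf d) := by
    have hPe : P = {σ : Vec d | 0 ≤ dot (dirk v w) σ ∧ dot (dirk v w) σ ≤ 1 / 2} := by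
      rw [hP]
      ext σ
      simp only [Set.mem_ofPred_eq, cosTh_eq]
    have h2 := hband (dirk v w) (nsq_dirk hvw)
    rw [← hPe] at h2
    have hiP : IntegrableOn (fun σ => kerB (1 + a) b ε v w σ) P (surf d) := by
      have h3 := inner_integrable (γ := 1 + a) (v := v) (w := w) (F := fun _ => (1 : ℝ)) (F0 := 1)
        HL.H.bm HL.H.bd HL.H.β0 hε measurable_const fun σ _ => by simp
      simp only [mul_one] at h3
      exact h3.integrableOn
    calc L ^ (1 + a) * cb * μ ≤ L ^ (1 + a) * cb * ((surf d) P).toReal :=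
          mul_le_mul_of_nonneg_left h2 (by positivity)
      _ = ∫ _σ in P, L ^ (1 + a) * cb ∂(surf d) := by
          rw [setIntegral_const, smul_eq_mul, mul_comm]; rfl
      _ ≤ ∫ σ in P, kerB (1 + a) b ε v w σ ∂(surf d) := by
          refine setIntegral_mono_on (integrable_const _) hiP hPm fun σ hσ => ?_
          unfold kerB
          have e3 := hσ.2
          rw [if_pos (by linarith)]
          refine mul_le_mul_of_nonneg_left ?_ hLg
          have h5 := HL.lo.2 (cosTh v w σ) hσ.1 (by linarith)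
          have h6 : 1 ≤ (1 - cosTh v w σ) ^ (-(((d : ℝ) - 1) / 2 + s)) := by
            have e4 := hσ.1
            exact Real.one_le_rpow_of_pos_of_le_one_of_nonpos (by linarith) (by linarith)
              (by have := HL.H.β0; linarith)
          nlinarith
  have hLR : L ^ a ≤ 2 * R ^ a := by
    refine (Real.rpow_le_rpow hL0 (len_le_RR v w) ha.le).trans ?_
    rw [Real.mul_rpow (by norm_num) hR0.le]
    refine mul_le_mul_of_nonneg_right ?_ hRa.le
    calc (2 : ℝ) ^ a ≤ 2 ^ (1 : ℝ) := Real.rpow_le_rpow_of_exponent_le (by norm_num) ha1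
      _ = 2 := Real.rpow_one 2
  have hup : 0 ≤ u ^ (a / 2 - s) := Real.rpow_nonneg hu.le _
  have t1 : L ^ (1 + a) * cb * μ * (a / 1024 * (R ^ a * O)) ≤
      (∫ σ in P, kerB (1 + a) b ε v w σ ∂(surf d)) * (a / 1024 * (R ^ a * O)) :=
    mul_le_mul_of_nonneg_right hPlow (by positivity)
  have t2 : (∫ σ in G, kerB (1 + a) b ε v w σ * (1 - cosTh v w σ) ^ (a / 2) ∂(surf d)) *
      (O * (2 * L ^ a)) ≤ κ * (L ^ (1 + a) * R ^ a * O) := by
    calc (∫ σ in G, kerB (1 + a) b ε v w σ * (1 - cosTh v w σ) ^ (a / 2) ∂(surf d)) *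
          (O * (2 * L ^ a))
        ≤ (A * L ^ (1 + a) * u ^ (a / 2 - s)) * (O * (2 * L ^ a)) :=
          mul_le_mul_of_nonneg_right hl1 (by positivity)
      _ ≤ (A * L ^ (1 + a) * u ^ (a / 2 - s)) * (O * (2 * (2 * R ^ a))) := by
          refine mul_le_mul_of_nonneg_left ?_ (by positivity)
          exact mul_le_mul_of_nonneg_left (by linarith) hO
      _ = (4 * A * u ^ (a / 2 - s)) * (L ^ (1 + a) * R ^ a * O) := by ring
      _ ≤ κ * (L ^ (1 + a) * R ^ a * O) := mul_le_mul_of_nonneg_right hsm1 (by positivity)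
  have t3 : (∫ σ in M, kerB (1 + a) b ε v w σ ∂(surf d)) * (δ ^ a * (R ^ a * O)) ≤
      κ * (L ^ (1 + a) * R ^ a * O) := by
    calc (∫ σ in M, kerB (1 + a) b ε v w σ ∂(surf d)) * (δ ^ a * (R ^ a * O))
        ≤ (B * L ^ (1 + a) * u ^ (-s)) * (δ ^ a * (R ^ a * O)) :=
          mul_le_mul_of_nonneg_right hl2 (by positivity)
      _ = (δ ^ a * (B * u ^ (-s))) * (L ^ (1 + a) * R ^ a * O) := by ring
      _ ≤ κ * (L ^ (1 + a) * R ^ a * O) := mul_le_mul_of_nonneg_right hsm2 (by positivity)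
  have t4 : L ^ (1 + a) * cb * μ * (a / 1024 * (R ^ a * O)) = 4 * κ * (L ^ (1 + a) * R ^ a * O) := by
    rw [hκ]; ring
  linarith

end Pool.Agent.H25.PT
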