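import Pool.Agent.H25.PT.OmB
import Pool.Agent.H48.PL.JB

/-!
# Module PovSV: scalar inequalities for the test function `phV`

`p = a/2 ∈ (0, 1/2]`, `h(x) = (V²+x)^p`, `h'' = -p(1-p)(V²+x)^(p-2)`.
* `pv_snd`: for `x, y ≥ 0`, `V > 0`: `p(1-p) x y (V²+x+y)^(p-2) ≤ h(x)+h(y)-h(x+y)-h(0) ≤ p(1-p) x y (V²)^(p-2)`. Proof: fix `y` and differentiate in `x`:
  `h'(x) - h'(x+y) = p ((V²+x)^(p-1) - (V²+x+y)^(p-1))`, which is between `p(1-p) y (V²+x+y)^(p-2)` and `p(1-p) y (V²)^(p-2)` (mean value theorem for `u^(p-1)`), then the mean value theorem or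
  monotonicity (`monotoneOn_of_deriv_nonneg`, `image_sub_le_mul_sub_of_deriv_le`) once more; for the lower bound use that `(V²+x'+y)^(p-2) ≥ (V²+x+y)^(p-2)` for `x' ≤ x`.
* `pv_low`: the lower bound is `≥ 0`. `x = A²`, `y = B²`, `x+y = R²`.
* `pv_up` (`A ≤ δR` say): if `V ≤ R`: `om = 1` and `h(A²)-h(0) ≤ A^a ≤ δ^a R^a` (`Real.add_rpow_le_rpow_add` or subadditivity of `u^(a/2)`), `h(B²) ≤ h(R²)`. If `V > R`: the upper bound
  of `pv_snd`, `p(1-p) ≤ 1/4`, `A²B² ≤ δ²R⁴`, `(V²)^(p-2) = V^(a-4)`: `≤ (1/4) δ² R^a (R/V)^(4-a) ≤ δ^a R^a om`.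
* `pv_mid`: `xy ≥ 15R⁴/256`; `(V²+R²)^(p-2) ≥ (1/4) max(V,R)^(a-4)` (`2^(p-2) ≥ 1/4`), so the second difference is `≥ (15/1024) p(1-p) R^4 max(V,R)^(a-4) = (15/1024)p(1-p) R^a om ≥ (a/512) R^a om`.
* `pv_hol` (`A²+B² = A'²+B'² = R²`): if `V ≤ R`: `|h(A'²)-h(A²)| ≤ |√(V²+A'²) - √(V²+A²)|^a ≤ |A'-A|^a` (`|x^a-y^a| ≤ |x-y|^a`). If `V > R`: `G(x) = h(x)+h(R²-x)`, `|G'(x)| ≤ R² (1/4) V^(a-4)`,
  `|A'²-A²| ≤ 2R|A'-A|`, `|A'-A| ≤ R^(1-a)|A'-A|^a`: `≤ (1/2) om |A'-A|^a`.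
* `phV_le`: `(V²+j²)^p - V^(2p) ≤ p V^(2p-2) j²` (Bernoulli `Real.rpow_one_add_le_one_add_mul_self`, `p ≤ 1`), `V^(a-2) ≤ V^(a-1)`.
-/

set_option autoImplicit false

open MeasureTheory Set Filter Topology Pool.Agent.H25.Kin Pool.Agent.H48.PL Pool.Agent.H48.PI

namespace Pool.Agent.H25.PT

variable {d : ℕ} {a V A B A' B' R δ : ℝ}

/-- mean value theorem for `u^(p-1)` -/
private lemma pv_d {p u y : ℝ} (hp : p < 1) (hu : 0 < u) (hy : 0 ≤ y) :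
    (1 - p) * y * (u + y) ^ (p - 2) ≤ u ^ (p - 1) - (u + y) ^ (p - 1) ∧
      u ^ (p - 1) - (u + y) ^ (p - 1) ≤ (1 - p) * y * u ^ (p - 2) := by
  rcases hy.eq_or_lt with h0 | h0
  · rw [← h0]
    simp
  · obtain ⟨ξ, ⟨h1, h2⟩, h3⟩ := exists_hasDerivAt_eq_slope (fun x : ℝ => x ^ (p - 1))
      (fun x : ℝ => (p - 1) * x ^ (p - 1 - 1)) (show u < u + y by linarith)
      (fun x hx => (Real.continuousAt_rpow_const x (p - 1)
        (Or.inl (lt_of_lt_of_le hu hx.1).ne')).continuousWithinAt)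
      (fun x hx => Real.hasDerivAt_rpow_const (Or.inl (hu.trans hx.1).ne'))
    have hξ : 0 < ξ := hu.trans h1
    have e1 : u + y - u = y := by ring
    have e2 : p - 1 - 1 = p - 2 := by ring
    simp only [e1, e2] at h3
    rw [eq_div_iff h0.ne'] at h3
    have h4 : ξ ^ (p - 2) ≤ u ^ (p - 2) :=
      Real.rpow_le_rpow_of_nonpos hu h1.le (by linarith)
    have h5 : (u + y) ^ (p - 2) ≤ ξ ^ (p - 2) :=
      Real.rpow_le_rpow_of_nonpos hξ h2.le (by linarith)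
    have h6 : 0 ≤ (1 - p) * y := mul_nonneg (by linarith) h0.le
    have h7 : u ^ (p - 1) - (u + y) ^ (p - 1) = (1 - p) * y * ξ ^ (p - 2) := by linarith
    rw [h7]
    exact ⟨mul_le_mul_of_nonneg_left h5 h6, mul_le_mul_of_nonneg_left h4 h6⟩

private lemma hd1 {p c x : ℝ} (h : 0 < c + x) :
    HasDerivAt (fun x : ℝ => (c + x) ^ p) (p * (c + x) ^ (p - 1)) x := by
  have h1 : HasDerivAt (fun x : ℝ => c + x) 1 x := (hasDerivAt_id x).const_add c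
  have h2 := h1.rpow_const (p := p) (Or.inl h.ne')
  have e : (1 : ℝ) * p * (c + x) ^ (p - 1) = p * (c + x) ^ (p - 1) := by ring
  rw [e] at h2
  exact h2

lemma pv_snd (ha : 0 < a) (ha1 : a ≤ 1) (hV : 0 < V) {x y : ℝ} (hx : 0 ≤ x) (hy : 0 ≤ y) :
    a / 2 * (1 - a / 2) * (x * y) * (V ^ 2 + x + y) ^ (a / 2 - 2) ≤
      (V ^ 2 + x) ^ (a / 2) + (V ^ 2 + y) ^ (a / 2) - (V ^ 2 + x + y) ^ (a / 2) - (V ^ 2) ^ (a / 2) ∧
    (V ^ 2 + x) ^ (a / 2) + (V ^ 2 + y) ^ (a / 2) - (V ^ 2 + x + y) ^ (a / 2) - (V ^ 2) ^ (a / 2) ≤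
      a / 2 * (1 - a / 2) * (x * y) * (V ^ 2) ^ (a / 2 - 2) := by
  have hc : 0 < V ^ 2 := pow_pos hV 2
  generalize V ^ 2 = c at hc ⊢
  have hp0 : 0 < a / 2 := by linarith
  have hp1 : a / 2 < 1 := by linarith
  generalize a / 2 = p at hp0 hp1 ⊢
  rcases hx.eq_or_lt with h0 | h0
  · rw [← h0]
    have e : c + 0 + y = c + y := by ring
    rw [e, add_zero, zero_mul, mul_zero, zero_mul, zero_mul]
    constructor <;> linarith
  · have hder : ∀ t : ℝ, 0 ≤ t → HasDerivAt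
        (fun x : ℝ => (c + x) ^ p + (c + y) ^ p - (c + y + x) ^ p - c ^ p)
        (p * (c + t) ^ (p - 1) - p * (c + y + t) ^ (p - 1)) t := by
      intro t ht
      exact (((hd1 (by linarith)).add_const _).sub (hd1 (by linarith))).sub_const _
    obtain ⟨ξ, ⟨h1, h2⟩, h3⟩ := exists_hasDerivAt_eq_slope
      (fun x : ℝ => (c + x) ^ p + (c + y) ^ p - (c + y + x) ^ p - c ^ p)
      (fun t : ℝ => p * (c + t) ^ (p - 1) - p * (c + y + t) ^ (p - 1)) h0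
      (fun t ht => (hder t ht.1).continuousAt.continuousWithinAt)
      (fun t ht => hder t ht.1.le)
    obtain ⟨h4, h5⟩ := pv_d (u := c + ξ) hp1 (by linarith) hy
    have e1 : c + ξ + y = c + y + ξ := by ring
    rw [e1] at h4 h5
    have e2 : c + x + y = c + y + x := by ring
    rw [e2]
    have e3 : (c + 0) ^ p + (c + y) ^ p - (c + y + 0) ^ p - c ^ p = 0 := by
      rw [add_zero, add_zero]
      ring
    simp only [e3, sub_zero] at h3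
    rw [eq_div_iff h0.ne'] at h3
    have h6 : (c + y + x) ^ (p - 2) ≤ (c + y + ξ) ^ (p - 2) :=
      Real.rpow_le_rpow_of_nonpos (by linarith) (by linarith) (by linarith)
    have h7 : (c + ξ) ^ (p - 2) ≤ c ^ (p - 2) :=
      Real.rpow_le_rpow_of_nonpos hc (by linarith) (by linarith)
    have h8 : 0 ≤ (1 - p) * y := mul_nonneg (by linarith) hy
    have h9 := (mul_le_mul_of_nonneg_left h6 h8).trans h4
    have h10 := h5.trans (mul_le_mul_of_nonneg_left h7 h8)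
    have h11 : 0 ≤ p * x := mul_nonneg hp0.le h0.le
    have h12 := mul_le_mul_of_nonneg_left h9 h11
    have h13 := mul_le_mul_of_nonneg_left h10 h11
    constructor
    · calc p * (1 - p) * (x * y) * (c + y + x) ^ (p - 2)
          = p * x * ((1 - p) * y * (c + y + x) ^ (p - 2)) := by ring
        _ ≤ p * x * ((c + ξ) ^ (p - 1) - (c + y + ξ) ^ (p - 1)) := h12
        _ = (p * (c + ξ) ^ (p - 1) - p * (c + y + ξ) ^ (p - 1)) * x := by ring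
        _ = _ := h3
    · calc (c + x) ^ p + (c + y) ^ p - (c + y + x) ^ p - c ^ p
          = (p * (c + ξ) ^ (p - 1) - p * (c + y + ξ) ^ (p - 1)) * x := h3.symm
        _ = p * x * ((c + ξ) ^ (p - 1) - (c + y + ξ) ^ (p - 1)) := by ring
        _ ≤ p * x * ((1 - p) * y * c ^ (p - 2)) := h13
        _ = _ := by ring

lemma pv_low (ha : 0 < a) (ha1 : a ≤ 1) (hV : 0 < V) (h : A ^ 2 + B ^ 2 = R ^ 2) :
    (V ^ 2 + R ^ 2) ^ (a / 2) + (V ^ 2) ^ (a / 2) ≤ (V ^ 2 + A ^ 2) ^ (a / 2) + (V ^ 2 + B ^ 2) ^ (a / 2) := by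
  have h1 := (pv_snd ha ha1 hV (sq_nonneg A) (sq_nonneg B)).1
  have e : V ^ 2 + A ^ 2 + B ^ 2 = V ^ 2 + R ^ 2 := by rw [← h]; ring
  rw [e] at h1
  have h2 : 0 ≤ a / 2 * (1 - a / 2) * (A ^ 2 * B ^ 2) * (V ^ 2 + R ^ 2) ^ (a / 2 - 2) := by
    have h3 : 0 ≤ 1 - a / 2 := by linarith
    have h4 : 0 ≤ (V ^ 2 + R ^ 2) ^ (a / 2 - 2) := Real.rpow_nonneg (by positivity) _
    positivity
  linarith

private lemma sqr {x : ℝ} (hx : 0 ≤ x) (r : ℝ) : (x ^ 2) ^ r = x ^ (2 * r) := by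
  rw [← Real.rpow_natCast x 2, ← Real.rpow_mul hx]
  norm_num

private lemma om_small (hV : 0 < V) (h : V ≤ R) : om a V R = 1 := by
  unfold om
  rw [min_eq_left ((one_le_div hV).2 h), Real.one_rpow]

private lemma om_big (hV : 0 < V) (hR : 0 < R) (h : R ≤ V) : R ^ a * om a V R = R ^ 4 * V ^ (a - 4) := by
  unfold om
  rw [min_eq_right ((div_le_one hV).2 h), Real.div_rpow hR.le hV.le, mul_div_assoc',
    ← Real.rpow_add hR, show a + (4 - a) = ((4 : ℕ) : ℝ) by push_cast; ring, Real.rpow_natCast,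
    show a - 4 = -(4 - a) by ring, Real.rpow_neg hV.le, div_eq_mul_inv]

private lemma up_aux (ha : 0 < a) (ha1 : a ≤ 1) (hV : 0 < V) (hA : 0 ≤ A) (hR : 0 < R) (hδ : 0 ≤ δ)
    (hδ1 : δ ≤ 1) (h : A ^ 2 + B ^ 2 = R ^ 2) (hm : A ≤ δ * R) :
    (V ^ 2 + A ^ 2) ^ (a / 2) + (V ^ 2 + B ^ 2) ^ (a / 2) ≤
      (V ^ 2 + R ^ 2) ^ (a / 2) + (V ^ 2) ^ (a / 2) + δ ^ a * (R ^ a * om a V R) := by
  rcases le_total V R with hVR | hVR
  · rw [om_small hV hVR, mul_one]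
    have h1 : (V ^ 2 + A ^ 2) ^ (a / 2) ≤ (V ^ 2) ^ (a / 2) + (A ^ 2) ^ (a / 2) :=
      Real.rpow_add_le_add_rpow (sq_nonneg V) (sq_nonneg A) (by linarith) (by linarith)
    have h2 : (A ^ 2) ^ (a / 2) = A ^ a := by
      rw [sqr hA, mul_div_cancel₀ a two_ne_zero]
    have h3 : A ^ a ≤ δ ^ a * R ^ a := by
      rw [← Real.mul_rpow hδ hR.le]
      exact Real.rpow_le_rpow hA hm ha.le
    have h4 : (V ^ 2 + B ^ 2) ^ (a / 2) ≤ (V ^ 2 + R ^ 2) ^ (a / 2) := by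
      apply Real.rpow_le_rpow (by positivity) _ (by linarith)
      rw [← h]
      nlinarith [sq_nonneg A]
    linarith
  · rw [om_big hV hR hVR]
    have h1 := (pv_snd ha ha1 hV (sq_nonneg A) (sq_nonneg B)).2
    have e : V ^ 2 + A ^ 2 + B ^ 2 = V ^ 2 + R ^ 2 := by rw [← h]; ring
    rw [e, sqr hV.le (a / 2 - 2), show 2 * (a / 2 - 2) = a - 4 by ring] at h1
    have h2 : A ^ 2 ≤ δ ^ 2 * R ^ 2 := by
      rw [← mul_pow]
      exact pow_le_pow_left₀ hA hm 2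
    have h3 : B ^ 2 ≤ R ^ 2 := by
      rw [← h]
      nlinarith [sq_nonneg A]
    have h4 : A ^ 2 * B ^ 2 ≤ δ ^ 2 * R ^ 4 := by
      calc A ^ 2 * B ^ 2 ≤ (δ ^ 2 * R ^ 2) * R ^ 2 := mul_le_mul h2 h3 (sq_nonneg B) (by positivity)
        _ = δ ^ 2 * R ^ 4 := by ring
    have h5 : δ ^ 2 ≤ δ ^ a := by
      rcases hδ.eq_or_lt with h0 | h0
      · rw [← h0, Real.zero_rpow ha.ne']
        norm_num
      · rw [← Real.rpow_natCast δ 2]
        exact Real.rpow_le_rpow_of_exponent_ge h0 hδ1 (by push_cast; linarith)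
    have h6 : a / 2 * (1 - a / 2) ≤ 1 := by nlinarith
    have h7 : 0 ≤ a / 2 * (1 - a / 2) := mul_nonneg (by linarith) (by linarith)
    have h8 : 0 ≤ V ^ (a - 4) := Real.rpow_nonneg hV.le _
    have h9 : a / 2 * (1 - a / 2) * (A ^ 2 * B ^ 2) * V ^ (a - 4) ≤ δ ^ a * (R ^ 4 * V ^ (a - 4)) := by
      have h10 : a / 2 * (1 - a / 2) * (A ^ 2 * B ^ 2) ≤ 1 * (δ ^ a * R ^ 4) := by
        apply mul_le_mul h6 _ (by positivity) zero_le_one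
        exact h4.trans (mul_le_mul_of_nonneg_right h5 (by positivity))
      calc a / 2 * (1 - a / 2) * (A ^ 2 * B ^ 2) * V ^ (a - 4)
          ≤ 1 * (δ ^ a * R ^ 4) * V ^ (a - 4) := mul_le_mul_of_nonneg_right h10 h8
        _ = _ := by ring
    linarith

lemma pv_up (ha : 0 < a) (ha1 : a ≤ 1) (hV : 0 < V) (hA : 0 ≤ A) (hB : 0 ≤ B) (hR : 0 < R) (hδ : 0 ≤ δ)
    (hδ1 : δ ≤ 1) (h : A ^ 2 + B ^ 2 = R ^ 2) (hm : A ≤ δ * R ∨ B ≤ δ * R) :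
    (V ^ 2 + A ^ 2) ^ (a / 2) + (V ^ 2 + B ^ 2) ^ (a / 2) ≤
      (V ^ 2 + R ^ 2) ^ (a / 2) + (V ^ 2) ^ (a / 2) + δ ^ a * (R ^ a * om a V R) := by
  rcases hm with hm | hm
  · exact up_aux ha ha1 hV hA hR hδ hδ1 h hm
  · rw [add_comm ((V ^ 2 + A ^ 2) ^ (a / 2))]
    exact up_aux ha ha1 hV hB hR hδ hδ1 (by rw [add_comm]; exact h) hm

lemma pv_mid (ha : 0 < a) (ha1 : a ≤ 1) (hV : 0 < V) (hR : 0 < R) (hA : R / 4 ≤ A) (hB : R / 4 ≤ B)
    (h : A ^ 2 + B ^ 2 = R ^ 2) :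
    (V ^ 2 + R ^ 2) ^ (a / 2) + (V ^ 2) ^ (a / 2) + a / 512 * (R ^ a * om a V R) ≤
      (V ^ 2 + A ^ 2) ^ (a / 2) + (V ^ 2 + B ^ 2) ^ (a / 2) := by
  have h1 := (pv_snd ha ha1 hV (sq_nonneg A) (sq_nonneg B)).1
  have e : V ^ 2 + A ^ 2 + B ^ 2 = V ^ 2 + R ^ 2 := by rw [← h]; ring
  rw [e] at h1
  have hA2 : R ^ 2 / 16 ≤ A ^ 2 := by nlinarith
  have hB2 : R ^ 2 / 16 ≤ B ^ 2 := by nlinarith
  have hAB : 15 / 256 * R ^ 4 ≤ A ^ 2 * B ^ 2 := by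
    have h2 : 0 ≤ (A ^ 2 - R ^ 2 / 16) * (B ^ 2 - R ^ 2 / 16) :=
      mul_nonneg (by linarith) (by linarith)
    nlinarith
  -- the weight
  obtain ⟨M, hM0, hVM, hRM, hMw⟩ : ∃ M : ℝ, 0 < M ∧ V ≤ M ∧ R ≤ M ∧ R ^ a * om a V R = R ^ 4 * M ^ (a - 4) := by
    rcases le_total V R with hVR | hVR
    · refine ⟨R, hR, hVR, le_rfl, ?_⟩
      rw [om_small hV hVR, mul_one, ← Real.rpow_natCast R 4, ← Real.rpow_add hR]
      congr 1
      push_cast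
      ring
    · exact ⟨V, hV, le_rfl, hVR, om_big hV hR hVR⟩
  have h3 : V ^ 2 + R ^ 2 ≤ 2 * M ^ 2 := by nlinarith
  have h4 : (2 * M ^ 2) ^ (a / 2 - 2) ≤ (V ^ 2 + R ^ 2) ^ (a / 2 - 2) :=
    Real.rpow_le_rpow_of_nonpos (by positivity) h3 (by linarith)
  have h5 : (1 : ℝ) / 4 ≤ 2 ^ (a / 2 - 2) := by
    calc (1 : ℝ) / 4 = 2 ^ (-2 : ℝ) := by
          rw [Real.rpow_neg (by norm_num), show (2 : ℝ) = ((2 : ℕ) : ℝ) by norm_num,
            Real.rpow_natCast]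
          norm_num
      _ ≤ 2 ^ (a / 2 - 2) := Real.rpow_le_rpow_of_exponent_le (by norm_num) (by linarith)
  have h6 : 1 / 4 * M ^ (a - 4) ≤ (V ^ 2 + R ^ 2) ^ (a / 2 - 2) := by
    rw [Real.mul_rpow (by norm_num) (by positivity), sqr hM0.le, show 2 * (a / 2 - 2) = a - 4 by ring] at h4
    exact (mul_le_mul_of_nonneg_right h5 (Real.rpow_nonneg hM0.le _)).trans h4
  have h7 : 0 ≤ M ^ (a - 4) := Real.rpow_nonneg hM0.le _
  have h8 : a / 4 ≤ a / 2 * (1 - a / 2) := by nlinarith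
  have h9 : a / 4 * (15 / 256 * R ^ 4) * (1 / 4 * M ^ (a - 4)) ≤
      a / 2 * (1 - a / 2) * (A ^ 2 * B ^ 2) * (V ^ 2 + R ^ 2) ^ (a / 2 - 2) := by
    apply mul_le_mul _ h6 (by positivity)
    · have : 0 ≤ 1 - a / 2 := by linarith
      positivity
    · exact mul_le_mul h8 hAB (by positivity) (mul_nonneg (by linarith) (by linarith))
  rw [hMw]
  have h10 : a / 512 * (R ^ 4 * M ^ (a - 4)) ≤ a / 4 * (15 / 256 * R ^ 4) * (1 / 4 * M ^ (a - 4)) := by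
    have h11 : 0 ≤ a * (R ^ 4 * M ^ (a - 4)) := by positivity
    nlinarith
  linarith

/-- `|s^a - t^a| ≤ |s-t|^a` -/
private lemma rp_sub {s t : ℝ} (ha : 0 < a) (ha1 : a ≤ 1) (hs : 0 ≤ s) (ht : 0 ≤ t) :
    |s ^ a - t ^ a| ≤ |s - t| ^ a := by
  rcases le_total t s with h | h
  · rw [abs_of_nonneg (sub_nonneg.2 (Real.rpow_le_rpow ht h ha.le)), abs_of_nonneg (sub_nonneg.2 h)]
    have h1 := Real.rpow_add_le_add_rpow (sub_nonneg.2 h) ht ha.le ha1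
    rw [sub_add_cancel] at h1
    linarith
  · rw [abs_of_nonpos (sub_nonpos.2 (Real.rpow_le_rpow hs h ha.le)), abs_of_nonpos (sub_nonpos.2 h),
      neg_sub, neg_sub]
    have h1 := Real.rpow_add_le_add_rpow (sub_nonneg.2 h) hs ha.le ha1
    rw [sub_add_cancel] at h1
    linarith

private lemma sqrt_lip {x y : ℝ} (hx : 0 ≤ x) (hy : 0 ≤ y) :
    |Real.sqrt (V ^ 2 + x ^ 2) - Real.sqrt (V ^ 2 + y ^ 2)| ≤ |x - y| := by
  have key : ∀ x y : ℝ, 0 ≤ x → 0 ≤ y → y ≤ x →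
      |Real.sqrt (V ^ 2 + x ^ 2) - Real.sqrt (V ^ 2 + y ^ 2)| ≤ |x - y| := by
    intro x y hx hy h
    have h0 : Real.sqrt (V ^ 2 + y ^ 2) ≤ Real.sqrt (V ^ 2 + x ^ 2) :=
      Real.sqrt_le_sqrt (by nlinarith)
    rw [abs_of_nonneg (sub_nonneg.2 h0), abs_of_nonneg (sub_nonneg.2 h), sub_le_iff_le_add]
    refine Real.sqrt_le_iff.2 ⟨add_nonneg (sub_nonneg.2 h) (Real.sqrt_nonneg _), ?_⟩
    have h1 := Real.sq_sqrt (show 0 ≤ V ^ 2 + y ^ 2 by positivity)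
    have h2 : y ≤ Real.sqrt (V ^ 2 + y ^ 2) := Real.le_sqrt_of_sq_le (by nlinarith [sq_nonneg V])
    nlinarith [mul_nonneg (sub_nonneg.2 h) (sub_nonneg.2 h2)]
  rcases le_total y x with h | h
  · exact key x y hx hy h
  · rw [abs_sub_comm, abs_sub_comm x y]
    exact key y x hy hx h

private lemma hol_small (ha : 0 < a) (ha1 : a ≤ 1) (hA : 0 ≤ A) (hA' : 0 ≤ A') :
    |(V ^ 2 + A' ^ 2) ^ (a / 2) - (V ^ 2 + A ^ 2) ^ (a / 2)| ≤ |A' - A| ^ a := by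
  have e : ∀ x : ℝ, (V ^ 2 + x ^ 2) ^ (a / 2) = Real.sqrt (V ^ 2 + x ^ 2) ^ a := by
    intro x
    rw [Real.sqrt_eq_rpow, ← Real.rpow_mul (by positivity)]
    congr 1
    ring
  rw [e, e]
  exact (rp_sub ha ha1 (Real.sqrt_nonneg _) (Real.sqrt_nonneg _)).trans
    (Real.rpow_le_rpow (abs_nonneg _) (sqrt_lip hA' hA) ha.le)

/-- Lipschitz estimate for `G(x) = h(x) + h(R²-x)` -/
private lemma hol_lip {p c S x y : ℝ} (hp : 0 < p) (hp2 : p < 1) (hc : 0 < c) (hx : 0 ≤ x) (hxy : x < y)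
    (hy : y ≤ S) :
    |((c + y) ^ p + (c + S - y) ^ p) - ((c + x) ^ p + (c + S - x) ^ p)| ≤
      p * (1 - p) * S * c ^ (p - 2) * (y - x) := by
  have hder : ∀ t : ℝ, 0 ≤ t → t ≤ S → HasDerivAt (fun t : ℝ => (c + t) ^ p + (c + S - t) ^ p)
      (p * (c + t) ^ (p - 1) - p * (c + S - t) ^ (p - 1)) t := by
    intro t ht ht'
    have h1 : HasDerivAt (fun x : ℝ => c + S - x) (-1) t := (hasDerivAt_id t).const_sub (c + S)
    have h2 := h1.rpow_const (p := p) (Or.inl (show c + S - t ≠ 0 by linarith))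
    have h3 := (hd1 (p := p) (c := c) (x := t) (by linarith)).add h2
    have e : p * (c + t) ^ (p - 1) + -1 * p * (c + S - t) ^ (p - 1) =
      p * (c + t) ^ (p - 1) - p * (c + S - t) ^ (p - 1) := by ring
    rw [e] at h3
    exact h3
  obtain ⟨ξ, ⟨h1, h2⟩, h3⟩ := exists_hasDerivAt_eq_slope
    (fun t : ℝ => (c + t) ^ p + (c + S - t) ^ p)
    (fun t : ℝ => p * (c + t) ^ (p - 1) - p * (c + S - t) ^ (p - 1)) hxy
    (fun t ht => (hder t (hx.trans ht.1) (ht.2.trans hy)).continuousAt.continuousWithinAt)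
    (fun t ht => hder t (hx.trans ht.1.le) (ht.2.le.trans hy))
  have hyx : 0 < y - x := sub_pos.2 hxy
  rw [eq_div_iff hyx.ne'] at h3
  have hξ0 : 0 < ξ := lt_of_le_of_lt hx h1
  have hξS : ξ < S := lt_of_lt_of_le h2 hy
  have hS : 0 < S := hξ0.trans hξS
  have hb : |(c + ξ) ^ (p - 1) - (c + S - ξ) ^ (p - 1)| ≤ (1 - p) * S * c ^ (p - 2) := by
    have hq : ∀ u v : ℝ, c ≤ u → u ≤ v → v - u ≤ S →
        |u ^ (p - 1) - v ^ (p - 1)| ≤ (1 - p) * S * c ^ (p - 2) := by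
      intro u v hu huv hvS
      have hu0 : 0 < u := lt_of_lt_of_le hc hu
      have h4 := (pv_d (p := p) (u := u) (y := v - u) hp2 hu0 (sub_nonneg.2 huv)).2
      rw [add_sub_cancel] at h4
      have h5 : v ^ (p - 1) ≤ u ^ (p - 1) :=
        Real.rpow_le_rpow_of_nonpos hu0 huv (by linarith)
      rw [abs_of_nonneg (sub_nonneg.2 h5)]
      have h6 : u ^ (p - 2) ≤ c ^ (p - 2) :=
        Real.rpow_le_rpow_of_nonpos hc hu (by linarith)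
      refine h4.trans ?_
      have h7 : 0 ≤ u ^ (p - 2) := Real.rpow_nonneg hu0.le _
      have h8 : (1 - p) * (v - u) ≤ (1 - p) * S := mul_le_mul_of_nonneg_left hvS (by linarith)
      exact mul_le_mul h8 h6 h7 (mul_nonneg (by linarith) hS.le)
    rcases le_total (c + ξ) (c + S - ξ) with h4 | h4
    · exact hq _ _ (by linarith) h4 (by linarith)
    · rw [abs_sub_comm]
      exact hq _ _ (by linarith) h4 (by linarith)
  rw [← h3, ← mul_sub, abs_mul, abs_mul, abs_of_pos hp, abs_of_pos hyx]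
  have h4 := mul_le_mul_of_nonneg_left hb hp.le
  calc p * |(c + ξ) ^ (p - 1) - (c + S - ξ) ^ (p - 1)| * (y - x)
      ≤ p * ((1 - p) * S * c ^ (p - 2)) * (y - x) := mul_le_mul_of_nonneg_right h4 hyx.le
    _ = _ := by ring

private lemma hol_big (ha : 0 < a) (ha1 : a ≤ 1) (hV : 0 < V) (hA : 0 ≤ A) (hA' : 0 ≤ A')
    (hR : 0 < R) (h : A ^ 2 + B ^ 2 = R ^ 2) (h' : A' ^ 2 + B' ^ 2 = R ^ 2) (hRV : R ≤ V) :
    |(V ^ 2 + A' ^ 2) ^ (a / 2) + (V ^ 2 + B' ^ 2) ^ (a / 2) - (V ^ 2 + A ^ 2) ^ (a / 2) -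
        (V ^ 2 + B ^ 2) ^ (a / 2)| ≤ om a V R * |A' - A| ^ a := by
  have hc : 0 < V ^ 2 := pow_pos hV 2
  have hAR : A ≤ R := by
    apply le_of_sq_le_sq _ hR.le
    nlinarith [sq_nonneg B]
  have hAR' : A' ≤ R := by
    apply le_of_sq_le_sq _ hR.le
    nlinarith [sq_nonneg B']
  have eB : V ^ 2 + B ^ 2 = V ^ 2 + R ^ 2 - A ^ 2 := by rw [← h]; ring
  have eB' : V ^ 2 + B' ^ 2 = V ^ 2 + R ^ 2 - A' ^ 2 := by rw [← h']; ring
  rw [eB, eB']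
  have hL : |(V ^ 2 + A' ^ 2) ^ (a / 2) + (V ^ 2 + R ^ 2 - A' ^ 2) ^ (a / 2) -
      ((V ^ 2 + A ^ 2) ^ (a / 2) + (V ^ 2 + R ^ 2 - A ^ 2) ^ (a / 2))| ≤
      a / 2 * (1 - a / 2) * R ^ 2 * (V ^ 2) ^ (a / 2 - 2) * |A' ^ 2 - A ^ 2| := by
    have hA2 : A ^ 2 ≤ R ^ 2 := pow_le_pow_left₀ hA hAR 2
    have hA2' : A' ^ 2 ≤ R ^ 2 := pow_le_pow_left₀ hA' hAR' 2
    rcases lt_trichotomy (A ^ 2) (A' ^ 2) with h1 | h1 | h1
    · rw [abs_of_pos (sub_pos.2 h1)]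
      exact hol_lip (by linarith) (by linarith) hc (sq_nonneg A) h1 hA2'
    · rw [h1, sub_self, abs_zero, sub_self, abs_zero, mul_zero]
    · rw [abs_sub_comm, abs_of_neg (sub_neg.2 h1), neg_sub]
      exact hol_lip (by linarith) (by linarith) hc (sq_nonneg A') h1 hA2
  have e1 : (V ^ 2 + A' ^ 2) ^ (a / 2) + (V ^ 2 + R ^ 2 - A' ^ 2) ^ (a / 2) - (V ^ 2 + A ^ 2) ^ (a / 2) -
      (V ^ 2 + R ^ 2 - A ^ 2) ^ (a / 2) = (V ^ 2 + A' ^ 2) ^ (a / 2) + (V ^ 2 + R ^ 2 - A' ^ 2) ^ (a / 2) -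
      ((V ^ 2 + A ^ 2) ^ (a / 2) + (V ^ 2 + R ^ 2 - A ^ 2) ^ (a / 2)) := by ring
  rw [e1]
  refine hL.trans ?_
  rw [sqr hV.le, show 2 * (a / 2 - 2) = a - 4 by ring]
  have hd0 : 0 ≤ |A' - A| := abs_nonneg _
  have h2 : |A' ^ 2 - A ^ 2| ≤ 2 * R * |A' - A| := by
    have : A' ^ 2 - A ^ 2 = (A' + A) * (A' - A) := by ring
    rw [this, abs_mul, abs_of_nonneg (add_nonneg hA' hA)]
    exact mul_le_mul_of_nonneg_right (by linarith) hd0
  have h3 : |A' - A| ≤ R := abs_le.2 ⟨by linarith, by linarith⟩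
  have h4 : |A' - A| ≤ R ^ (1 - a) * |A' - A| ^ a := by
    rcases hd0.eq_or_lt with h0 | h0
    · rw [← h0, Real.zero_rpow ha.ne', mul_zero]
    · calc |A' - A| = |A' - A| ^ (1 - a) * |A' - A| ^ a := by
            rw [← Real.rpow_add h0, sub_add_cancel, Real.rpow_one]
        _ ≤ R ^ (1 - a) * |A' - A| ^ a :=
            mul_le_mul_of_nonneg_right (Real.rpow_le_rpow hd0 h3 (by linarith)) (Real.rpow_nonneg hd0 _)
  have h5 : R ^ 3 * R ^ (1 - a) * V ^ (a - 4) = om a V R := by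
    have h6 := om_big (a := a) hV hR hRV
    have h7 : R ^ 3 * R ^ (1 - a) * R ^ a = R ^ 4 := by
      rw [mul_assoc, ← Real.rpow_add hR, sub_add_cancel, Real.rpow_one]
      ring
    have h8 : 0 < R ^ a := Real.rpow_pos_of_pos hR a
    apply mul_left_cancel₀ h8.ne'
    rw [h6, ← h7]
    ring
  have h9 : a / 2 * (1 - a / 2) ≤ 1 / 4 := by nlinarith [sq_nonneg (a - 1)]
  have h10 : 0 ≤ a / 2 * (1 - a / 2) := mul_nonneg (by linarith) (by linarith)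
  have h11 : 0 ≤ V ^ (a - 4) := Real.rpow_nonneg hV.le _
  have h12 : 0 ≤ R ^ (1 - a) * |A' - A| ^ a := mul_nonneg (Real.rpow_nonneg hR.le _) (Real.rpow_nonneg hd0 _)
  calc a / 2 * (1 - a / 2) * R ^ 2 * V ^ (a - 4) * |A' ^ 2 - A ^ 2|
      ≤ 1 / 4 * R ^ 2 * V ^ (a - 4) * (2 * R * (R ^ (1 - a) * |A' - A| ^ a)) := by
        apply mul_le_mul _ (h2.trans (mul_le_mul_of_nonneg_left h4 (by positivity))) (abs_nonneg _) (by positivity)
        exact mul_le_mul_of_nonneg_right (mul_le_mul_of_nonneg_right h9 (by positivity)) h11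
    _ = 1 / 2 * (R ^ 3 * R ^ (1 - a) * V ^ (a - 4)) * |A' - A| ^ a := by ring
    _ = 1 / 2 * om a V R * |A' - A| ^ a := by rw [h5]
    _ ≤ om a V R * |A' - A| ^ a := by
        apply mul_le_mul_of_nonneg_right _ (Real.rpow_nonneg hd0 _)
        have h13 : 0 ≤ om a V R := by
          rw [← h5]
          have h14 : 0 ≤ R ^ (1 - a) := Real.rpow_nonneg hR.le _
          positivity
        linarith

lemma pv_hol (ha : 0 < a) (ha1 : a ≤ 1) (hV : 0 < V) (hA : 0 ≤ A) (hB : 0 ≤ B) (hA' : 0 ≤ A') (hB' : 0 ≤ B')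
    (hR : 0 < R) (h : A ^ 2 + B ^ 2 = R ^ 2) (h' : A' ^ 2 + B' ^ 2 = R ^ 2) :
    |(V ^ 2 + A' ^ 2) ^ (a / 2) + (V ^ 2 + B' ^ 2) ^ (a / 2) - (V ^ 2 + A ^ 2) ^ (a / 2) -
        (V ^ 2 + B ^ 2) ^ (a / 2)| ≤ om a V R * (|A' - A| ^ a + |B' - B| ^ a) := by
  rcases le_total V R with hVR | hVR
  · rw [om_small hV hVR, one_mul]
    have e : (V ^ 2 + A' ^ 2) ^ (a / 2) + (V ^ 2 + B' ^ 2) ^ (a / 2) - (V ^ 2 + A ^ 2) ^ (a / 2) -
        (V ^ 2 + B ^ 2) ^ (a / 2) = ((V ^ 2 + A' ^ 2) ^ (a / 2) - (V ^ 2 + A ^ 2) ^ (a / 2)) +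
        ((V ^ 2 + B' ^ 2) ^ (a / 2) - (V ^ 2 + B ^ 2) ^ (a / 2)) := by ring
    rw [e]
    exact (abs_add_le _ _).trans (add_le_add (hol_small ha ha1 hA hA') (hol_small ha ha1 hB hB'))
  · have h1 := hol_big ha ha1 hV hA hA' hR h h' hVR
    have h2 : 0 ≤ om a V R * |B' - B| ^ a := by
      apply mul_nonneg _ (Real.rpow_nonneg (abs_nonneg _) _)
      unfold om
      exact Real.rpow_nonneg (le_min zero_le_one (div_nonneg hR.le hV.le)) _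
    rw [mul_add]
    linarith

private lemma rpV (hV : 1 ≤ V) : (V ^ 2) ^ (a / 2) = V ^ a := by
  rw [sqr (by linarith), mul_div_cancel₀ a two_ne_zero]

lemma phV_nonneg (ha : 0 < a) (hV : 1 ≤ V) (v : Vec d) : 0 ≤ phV a V v := by
  unfold phV
  rw [← rpV hV, sub_nonneg]
  exact Real.rpow_le_rpow (by positivity) (by nlinarith [sq_nonneg (jb v)]) (by linarith)

lemma phV_le (ha : 0 < a) (ha1 : a ≤ 1) (hV : 1 ≤ V) (v : Vec d) : phV a V v ≤ V ^ (a - 1) * jb v ^ 2 := by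
  unfold phV
  have hV0 : 0 < V := by linarith
  have hV2 : 0 < V ^ 2 := pow_pos hV0 2
  have h1 : V ^ 2 + jb v ^ 2 = V ^ 2 * (1 + jb v ^ 2 / V ^ 2) := by
    rw [mul_add, mul_one, mul_div_cancel₀ _ hV2.ne']
  have hj : 0 ≤ jb v ^ 2 / V ^ 2 := by positivity
  have h2 : (1 + jb v ^ 2 / V ^ 2) ^ (a / 2) ≤ 1 + a / 2 * (jb v ^ 2 / V ^ 2) :=
    rpow_one_add_le_one_add_mul_self (by linarith) (by linarith) (by linarith)
  rw [h1, Real.mul_rpow hV2.le (by linarith), rpV hV]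
  have hVa : 0 < V ^ a := Real.rpow_pos_of_pos hV0 a
  have h3 := mul_le_mul_of_nonneg_left h2 hVa.le
  have h4 : V ^ a = V ^ (a - 1) * V := by
    rw [← Real.rpow_add_one hV0.ne', sub_add_cancel]
  have h5 : 0 < V ^ (a - 1) := Real.rpow_pos_of_pos hV0 _
  have h6 : V ^ a * (a / 2 * (jb v ^ 2 / V ^ 2)) ≤ V ^ (a - 1) * jb v ^ 2 := by
    have h7 : V * (a / 2 * (jb v ^ 2 / V ^ 2)) ≤ jb v ^ 2 := by
      have h8 : V * (a / 2 * (jb v ^ 2 / V ^ 2)) = (a / 2) * (jb v ^ 2 / V) := by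
        field_simp
      rw [h8]
      have h9 : jb v ^ 2 / V ≤ jb v ^ 2 := div_le_self (sq_nonneg _) hV
      have h10 : 0 ≤ jb v ^ 2 / V := by positivity
      nlinarith
    calc V ^ a * (a / 2 * (jb v ^ 2 / V ^ 2)) = V ^ (a - 1) * (V * (a / 2 * (jb v ^ 2 / V ^ 2))) := by
          rw [h4]; ring
      _ ≤ V ^ (a - 1) * jb v ^ 2 := mul_le_mul_of_nonneg_left h7 h5.le
  nlinarith

lemma phV_cont (ha : 0 < a) (V : ℝ) : Continuous (phV a V : Vec d → ℝ) := by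
  unfold phV
  exact ((continuous_const.add (jb_cont.pow 2)).rpow_const fun _ => Or.inr (by linarith)).sub
    continuous_const

lemma phV_PG (ha : 0 < a) (ha1 : a ≤ 1) (hV : 1 ≤ V) : PG (phV a V : Vec d → ℝ) := by
  obtain ⟨N, C, h⟩ := PG_jb (d := d) (r := 2)
  refine ⟨N, V ^ (a - 1) * C, fun v => ?_⟩
  have h1 : ‖jb v ^ (2 : ℝ)‖ ≤ C * (1 + ‖v‖) ^ N := h v
  have h2 : jb v ^ (2 : ℝ) = jb v ^ (2 : ℕ) := by
    rw [show (2 : ℝ) = ((2 : ℕ) : ℝ) by norm_num, Real.rpow_natCast]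
  rw [h2, Real.norm_of_nonneg (sq_nonneg _)] at h1
  rw [Real.norm_of_nonneg (phV_nonneg ha hV v), mul_assoc]
  exact (phV_le ha ha1 hV v).trans (mul_le_mul_of_nonneg_left h1 (Real.rpow_nonneg (by linarith) _))

end Pool.Agent.H25.PT
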