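import Pool.Agent.H25.PT.Pov1V
import Pool.Agent.H25.PT.XWB
import Pool.Agent.H48.PL.WkI

/-!
# Module PovV: (A1) on a fiber

Copy of `povzner` (PL/Pov, 40 lines) with `phV a V` (`phV_PG`, `phV_cont`) instead of `jb^a` and the extra factor `om a V (RR p.1 p.2)` in `L`:
`∫ g g L = c XW (CmpS δ)ᶜ - K XW (CmpS δ)` (`XW_integrable`, indicator integrals).
-/

set_option autoImplicit false

open MeasureTheory Set Filter Topology Pool.Agent.H25.Kin Pool.Agent.H82.BK Pool.Agent.H82.CM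
open Pool.Agent.H48.PL Pool.Agent.H48.PI

namespace Pool.Agent.H25.PT

variable {d : ℕ} {s a C Ca cb : ℝ} {b : ℝ → ℝ}

theorem povznerV (HL : HypL d (1 + a) s b C Ca cb) (h1 : 2 * s < a) (ha1 : a ≤ 1) :
    ∃ δ c₁ C₁ : ℝ, 0 < δ ∧ δ < 1 ∧ 0 < c₁ ∧ 0 ≤ C₁ ∧ ∀ V : ℝ, 1 ≤ V → ∀ g : Vec d → ℝ, Nice g →
      (∀ v, 0 ≤ g v) →
      c₁ * XW a V g (CmpS δ)ᶜ ≤ (∫ v, boltzQ (1 + a) b g v * phV a V v) + C₁ * XW a V g (CmpS δ) := by
  classical
  have hs := HL.H.hs
  have ha : 0 < a := by linarith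
  obtain ⟨δ, c, ε₀, hδ, hδ1, hc, hε₀, hhc⟩ := aincV_hc HL h1 ha1
  obtain ⟨K, hK, habs⟩ := aincV_abs HL h1 ha1
  refine ⟨δ, c / 2, K / 2, hδ, hδ1, by linarith, by linarith, fun V hV g hg hg0 => ?_⟩
  have hgc : Continuous g := hg.cont
  have hgr : RD g := hg.rd
  have hd := XW_integrable (a := a) (V := V) ha.le ha1 hV hgr hgc
  set D : Vec d × Vec d → ℝ := fun p => dens a g p * om a V (RR p.1 p.2) with hD
  have hm : MeasurableSet (CmpS δ : Set (Vec d × Vec d)) := measurableSet_CmpS δ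
  have i1 : Integrable fun p : Vec d × Vec d => c * (CmpS δ)ᶜ.indicator D p :=
    (hd.indicator hm.compl).const_mul c
  have i2 : Integrable fun p : Vec d × Vec d => K * (CmpS δ).indicator D p :=
    (hd.indicator hm).const_mul K
  set L : Vec d × Vec d → ℝ := fun p =>
    if p ∈ CmpS δ then -(K * (len (p.1 - p.2) ^ (1 + a) * RR p.1 p.2 ^ a * om a V (RR p.1 p.2)))
    else c * (len (p.1 - p.2) ^ (1 + a) * RR p.1 p.2 ^ a * om a V (RR p.1 p.2)) with hL
  have hfun : (fun p : Vec d × Vec d => g p.1 * g p.2 * L p) =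
      fun p => c * (CmpS δ)ᶜ.indicator D p - K * (CmpS δ).indicator D p := by
    funext p
    by_cases hp : p ∈ CmpS δ
    · have hp' : p ∉ (CmpS δ : Set (Vec d × Vec d))ᶜ := fun h => h hp
      rw [indicator_of_mem hp, indicator_of_notMem hp']
      simp only [hL, if_pos hp, hD, dens]
      ring
    · have hp' : p ∈ (CmpS δ : Set (Vec d × Vec d))ᶜ := hp
      rw [indicator_of_notMem hp, indicator_of_mem hp']
      simp only [hL, if_neg hp, hD, dens]
      ring
  have hφ : PG (phV a V : Vec d → ℝ) := phV_PG ha ha1 hV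
  have hφm : Measurable (phV a V : Vec d → ℝ) := (phV_cont ha V).measurable
  have key := weak_ge_of HL.H hg hg0 hφ hφm (L := L) (by rw [hfun]; exact i1.sub i2) hε₀
    (fun ε hε hε1 v w hvw => by
      by_cases hp : (v, w) ∈ (CmpS δ : Set (Vec d × Vec d))
      · simp only [hL, if_pos hp]
        exact (abs_le.1 (habs ε hε V hV v w hvw)).1
      · simp only [hL, if_neg hp]
        exact hhc ε hε hε1 V hV v w hvw hp)
  rw [hfun, integral_sub i1 i2, integral_const_mul, integral_const_mul, integral_indicator hm,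
    integral_indicator hm.compl] at key
  change (1 / 2) * (c * XW a V g (CmpS δ)ᶜ - K * XW a V g (CmpS δ)) ≤ _ at key
  linarith

end Pool.Agent.H25.PT
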