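import Pool.Agent.H25.PT.SliV
import Pool.Agent.H25.PT.FibV
import Pool.Agent.H25.PT.XWC
import Pool.Agent.H48.PL.CSolP

/-!
# Module TimCV: (A3) in time, `l = 1`

Copy of `pair_time` (PL/TimC) with `Φ = Tv e s a α V`, `l = 1`, `q = 2` in `pair_sliceV`, `X x = XM a (qq s a α) V (f τ x)` (`XM_eq_XG`, `XG_pl`, `wt_omM`, `XM_nonneg`), `fib_Tv`,
`η = 2M`: `loc e 1 (∫ f jb²) = ∫x ∫v f jb² dν ≤ 2M` (planar and periodic; PL/PlI, and `jb2_bound`), `B = 4 V^(a-1)` (`VTv_le`), `pair_absV` with `B = 2 V^(a-1)` (`Tv_abs`) for the two end terms,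
`M' = 2M`, and `VTv_low` for `Y x = XW a V (f τ x) (CmpS (δ/2) ∩ NtS ..)` (as `timC_low`). `GB M` gives `M ≥ 0` (mass).
-/

set_option autoImplicit false

open MeasureTheory Set Filter Topology Pool.Agent.H25.Kin Pool.Agent.H82.BK Pool.Agent.H82.CM
open Pool.Agent.H48.PL Pool.Agent.H48.PI

namespace Pool.Agent.H25.PT

variable {d : ℕ} {s a α C Ca cb : ℝ} {b : ℝ → ℝ}

/-- the lower bound of the quadratic form with weight `V_e Tv` -/
private lemma timCV_low (P : PP s a α) (e : Fin d) {V : ℝ} (hV : 1 ≤ V) {c : ℝ}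
    {A : Set (Vec d × Vec d)} (hA : MeasurableSet A)
    (hc : ∀ v w : Vec d, (v, w) ∈ A →
      c * (len (v - w) ^ (1 + a) * RR v w ^ a * om a V (RR v w)) ≤ (v e - w e) * Tv e s a α V v w)
    {g : Vec d → ℝ} (hg : RD g) (hgc : Continuous g) (hg0 : ∀ v, 0 ≤ g v) :
    c * XW a V g A ≤ ∫ v, g v * ∫ w, (v e - w e) * Tv e s a α V v w * g w := by
  have hs0 := P.hs0
  have ha0 : 0 ≤ a := hs0.2.1.le
  have ha1 : a ≤ 1 := by linarith [hs0.2.2.1]
  obtain ⟨Ψ, hΨ⟩ : ∃ Ψ : Vec d × Vec d → ℝ, ∀ p,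
      Ψ p = g p.1 * ((p.1 e - p.2 e) * Tv e s a α V p.1 p.2 * g p.2) := ⟨_, fun _ => rfl⟩
  have hΨc : Continuous Ψ := by
    have h1 : Continuous fun p : Vec d × Vec d => (p.1 e - p.2 e) * Tv e s a α V p.1 p.2 :=
      ((Tv_PGW P e hV).vmul e).cont
    have h2 : Continuous fun p : Vec d × Vec d => g p.1 := hgc.comp continuous_fst
    have h3 : Continuous fun p : Vec d × Vec d => g p.2 := hgc.comp continuous_snd
    have h4 : Ψ = fun p : Vec d × Vec d =>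
        g p.1 * ((p.1 e - p.2 e) * Tv e s a α V p.1 p.2 * g p.2) := funext hΨ
    rw [h4]
    exact h2.mul (h1.mul h3)
  have hΨ0 : ∀ p, 0 ≤ Ψ p := fun p => by
    rw [hΨ]
    exact mul_nonneg (hg0 _) (mul_nonneg (VTv_nonneg P e hV _ _) (hg0 _))
  have hj : Integrable (fun v => g v * jb v ^ 2) := by
    have h1 : PG (fun v : Vec d => jb v ^ 2) := by
      have h2 : (fun v : Vec d => jb v ^ 2) = fun v => 1 + nsq v := funext jb_sq
      rw [h2]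
      exact (PG.const (1 : ℝ)).add PG.nsq
    exact (hg.mul_PG h1).integrable (hgc.mul (jb_cont.pow 2)).aestronglyMeasurable
  have hb : Integrable (fun p : Vec d × Vec d =>
      4 * V ^ (a - 1) * ((g p.1 * jb p.1 ^ 2) * (g p.2 * jb p.2 ^ 2))) := (hj.mul_prod hj).const_mul _
  have hΨi : Integrable Ψ := by
    refine hb.mono' hΨc.aestronglyMeasurable (Eventually.of_forall fun p => ?_)
    rw [Real.norm_eq_abs, abs_of_nonneg (hΨ0 p), hΨ]
    have h1 := VTv_le P e hV p.1 p.2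
    calc g p.1 * ((p.1 e - p.2 e) * Tv e s a α V p.1 p.2 * g p.2)
        = g p.1 * g p.2 * ((p.1 e - p.2 e) * Tv e s a α V p.1 p.2) := by ring
      _ ≤ g p.1 * g p.2 * (4 * V ^ (a - 1) * (jb p.1 ^ 2 * jb p.2 ^ 2)) :=
          mul_le_mul_of_nonneg_left h1 (mul_nonneg (hg0 _) (hg0 _))
      _ = _ := by ring
  have e1 : ∫ p, Ψ p = ∫ v, g v * ∫ w, (v e - w e) * Tv e s a α V v w * g w := by
    have h1 : ∫ p, Ψ p ∂((volume : Measure (Vec d)).prod (volume : Measure (Vec d))) =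
        ∫ v, ∫ w, Ψ (v, w) := integral_prod _ hΨi
    rw [Measure.volume_eq_prod, h1]
    refine integral_congr_ae (Eventually.of_forall fun v => ?_)
    simp only [hΨ]
    rw [integral_const_mul]
  rw [← e1]
  have hd := XW_integrable ha0 ha1 hV hg hgc
  have h1 : c * XW a V g A = ∫ p in A, c * (dens a g p * om a V (RR p.1 p.2)) :=
    (integral_const_mul _ _).symm
  rw [h1]
  refine (setIntegral_mono_on (hd.integrableOn.const_mul c) hΨi.integrableOn hA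
    (fun p hp => ?_)).trans (setIntegral_le_integral hΨi (Eventually.of_forall hΨ0))
  have h2 := hc p.1 p.2 hp
  rw [hΨ]
  show c * (g p.1 * g p.2 * (len (p.1 - p.2) ^ (1 + a) * RR p.1 p.2 ^ a) *
    om a V (RR p.1 p.2)) ≤ _
  calc c * (g p.1 * g p.2 * (len (p.1 - p.2) ^ (1 + a) * RR p.1 p.2 ^ a) *
        om a V (RR p.1 p.2))
      = g p.1 * g p.2 * (c * (len (p.1 - p.2) ^ (1 + a) * RR p.1 p.2 ^ a *
        om a V (RR p.1 p.2))) := by ring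
    _ ≤ g p.1 * g p.2 * ((p.1 e - p.2 e) * Tv e s a α V p.1 p.2) :=
        mul_le_mul_of_nonneg_left h2 (mul_nonneg (hg0 _) (hg0 _))
    _ = _ := by ring

private lemma timCV_int {e : Fin d} {F G : Vec d → Vec d → ℝ} (h : FS e F G) :
    Integrable (fun p : Vec d × Vec d => F p.2 p.1 * jb p.1 ^ 2) (nu d) := by
  obtain ⟨D, hD⟩ := h.decF (2 + (d + 1))
  have h2 : Continuous fun p : Vec d × Vec d => (p.2, p.1) := by fun_prop
  have hcF : Continuous fun p : Vec d × Vec d => F p.2 p.1 := h.contF.comp h2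
  have hcJ : Continuous fun p : Vec d × Vec d => jb p.1 ^ 2 := by
    have := jb_cont (d := d)
    fun_prop
  refine integrable_nu (C := ((d : ℝ) + 1) ^ 2 * D) (hcF.mul hcJ).aestronglyMeasurable fun q => ?_
  have hw : (0 : ℝ) < 1 + ‖q.1‖ := w_pos q.1
  have h3 : |F q.2 q.1| * (1 + ‖q.1‖) ^ 2 ≤ D * wt d q.1 := by
    unfold wt
    rw [← div_eq_mul_inv, le_div_iff₀ (pow_pos hw _)]
    have := hD q.2 q.1
    rw [pow_add] at this
    calc |F q.2 q.1| * (1 + ‖q.1‖) ^ 2 * (1 + ‖q.1‖) ^ (d + 1)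
        = (1 + ‖q.1‖) ^ 2 * (1 + ‖q.1‖) ^ (d + 1) * |F q.2 q.1| := by ring
      _ ≤ D := this
  have h4 : |jb q.1 ^ 2| ≤ ((d : ℝ) + 1) ^ 2 * (1 + ‖q.1‖) ^ 2 := by
    have h1 := jb_le_w q.1
    have h0 := (jb_pos q.1).le
    rw [abs_of_nonneg (by positivity), ← mul_pow]
    exact pow_le_pow_left₀ h0 h1 2
  calc |F q.2 q.1 * jb q.1 ^ 2| = |F q.2 q.1| * |jb q.1 ^ 2| := abs_mul _ _
    _ ≤ |F q.2 q.1| * (((d : ℝ) + 1) ^ 2 * (1 + ‖q.1‖) ^ 2) :=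
        mul_le_mul_of_nonneg_left h4 (abs_nonneg _)
    _ = ((d : ℝ) + 1) ^ 2 * (|F q.2 q.1| * (1 + ‖q.1‖) ^ 2) := by ring
    _ ≤ ((d : ℝ) + 1) ^ 2 * (D * wt d q.1) := mul_le_mul_of_nonneg_left h3 (by positivity)
    _ = ((d : ℝ) + 1) ^ 2 * D * wt d q.1 := by ring

private lemma timCV_loc {e : Fin d} {F G : Vec d → Vec d → ℝ} (h : FS e F G) {M' : ℝ}
    (hM : ∫ p, F p.2 p.1 * jb p.1 ^ 2 ∂(nu d) ≤ M') (x : Vec d) :
    loc e 1 (fun y => ∫ v, F y v * jb v ^ (2 : ℝ)) x ≤ M' := by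
  have h0 : ∀ x, 0 ≤ ∫ v, F x v * jb v ^ (2 : ℝ) := fun x => integral_nonneg fun v =>
    mul_nonneg (h.nonneg x v) (Real.rpow_nonneg (jb_pos v).le _)
  have h1 := loc_le (pl_avg h (r := (2 : ℝ))) h0 one_pos le_rfl x
  refine h1.trans (le_trans (le_of_eq ?_) hM)
  unfold nu
  rw [integral_prod_symm _ (timCV_int h)]
  refine integral_congr_ae (Eventually.of_forall fun y => ?_)
  refine integral_congr_ae (Eventually.of_forall fun v => ?_)
  simp only [Real.rpow_two]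

theorem pair_timeV (HL : HypL d (1 + a) s b C Ca cb) (P : PP s a α) (e : Fin d) {δ ε₁ : ℝ}
    (hδ : 0 < δ) (hδ1 : δ < 1) (hε₁ : 0 < ε₁) : ∃ c K : ℝ, 0 < c ∧ 0 ≤ K ∧
    ∀ (M T : ℝ) (f : ℝ → Vec d → Vec d → ℝ), IsBoltzmannSol (1 + a) b T f → Planar e T f → GB M (f 0) →
      ∀ V : ℝ, 1 ≤ V → ∀ r t : ℝ, 0 < r → r ≤ t → t < T →
      c * ∫ τ in r..t, (∫ x, XW a V (f τ x) (CmpS (δ / 2) ∩ NtS e ε₁ (kpa s a)) ∂(muD d)) ≤
        K * (M ^ 2 * V ^ (a - 1) * (1 + (t - r))) +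
          K * (M * ∫ τ in r..t, (∫ x, XM a (qq s a α) V (f τ x) ∂(muD d))) := by
  obtain ⟨K, hK, hKf⟩ := fib_Tv HL P e
  obtain ⟨c, hc, hcf⟩ := VTv_low P e hδ hδ1 hε₁
  refine ⟨c, 16 + 2 * K, hc, by linarith, ?_⟩
  intro M T f hf hpl h0 V hV r t hr hrt htT
  have hs0 := P.hs0
  have ha0 : 0 ≤ a := hs0.2.1.le
  have ha1 : a ≤ 1 := by linarith [hs0.2.2.1]
  have hq2 : qq s a α ≤ 2 := P.hq.le
  have hfc : IsClassicalSol T (fun t x => boltzQ (1 + a) b (f t x)) f := hf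
  have hC := csol_pair hfc hpl (Tv_PGW (V := V) P e hV) one_pos
  have hIco : ∀ τ ∈ Ioo 0 T, τ ∈ Ico 0 T := fun τ hτ => ⟨hτ.1.le, hτ.2⟩
  have hV0 : 0 ≤ V ^ (a - 1) := Real.rpow_nonneg (by linarith) _
  have hM0 : 0 ≤ M := by
    have h0T : (0 : ℝ) ∈ Ico 0 T := ⟨le_rfl, by linarith⟩
    exact (integral_nonneg fun q => hf.nonneg 0 h0T q.2 q.1).trans h0.mass
  have hj2 : ∀ τ ∈ Ioo 0 T, ∫ q, f τ q.2 q.1 * jb q.1 ^ 2 ∂(nu d) ≤ 2 * M := fun τ hτ =>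
    jb2_bound hf (hIco τ hτ) (glob_bounds HL.H hf h0 (hIco τ hτ))
  have hab : ∀ τ ∈ Ioo 0 T,
      |∫ p, f τ p.2 p.1 * pot e 1 (Tv e s a α V) (f τ) p.2 p.1 ∂(nu d)| ≤
        2 * V ^ (a - 1) * (2 * M) ^ 2 := fun τ hτ =>
    pair_absV (Tv_PGW P e hV) (fs_of hf hpl hτ) one_pos le_rfl (by positivity)
      (fun v w => Tv_abs P e hV v w) (hj2 τ hτ)
  have hA1 : MeasurableSet (CmpS (δ / 2) ∩ NtS e ε₁ (kpa s a) : Set (Vec d × Vec d)) :=
    (measurableSet_CmpS _).inter (measurableSet_NtS _ _ _)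
  obtain ⟨wA1, wA2, wA3⟩ := wt_om (a := a) (V := V) ha1 hV hA1
  obtain ⟨wM1, wM2, wM3⟩ := wt_omM (d := d) (a := a) (q := qq s a α) (V := V) ha1 hq2 hV
  have hXMe : ∀ τ : ℝ, (fun x => XM a (qq s a α) V (f τ x)) =
      fun x => XG a (fun p => omM a (qq s a α) V (RR p.1 p.2)) (f τ x) := fun τ =>
    funext fun x => XM_eq_XG
  have hXWe : ∀ τ : ℝ, (fun x => XW a V (f τ x) (CmpS (δ / 2) ∩ NtS e ε₁ (kpa s a))) =
      fun x => XG a ((CmpS (δ / 2) ∩ NtS e ε₁ (kpa s a) : Set (Vec d × Vec d)).indicator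
        fun p => om a V (RR p.1 p.2)) (f τ x) := fun τ => funext fun x => XW_eq_XG hA1
  have hsl : ∀ τ ∈ Ioo 0 T,
      c * ∫ x, XW a V (f τ x) (CmpS (δ / 2) ∩ NtS e ε₁ (kpa s a)) ∂(muD d) ≤
      (∫ p, (boltzQ (1 + a) b (f τ p.2) p.1 * pot e 1 (Tv e s a α V) (f τ) p.2 p.1 +
        f τ p.2 p.1 * dpot e 1 (Tv e s a α V) (f τ) (fun x => boltzQ (1 + a) b (f τ x)) p.2 p.1)
          ∂(nu d)) +
      4 * V ^ (a - 1) * (2 * M) ^ 2 / 1 +
        K * (2 * M) * ∫ x, XM a (qq s a α) V (f τ x) ∂(muD d) := by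
    intro τ hτ
    have hn : ∀ x, Nice (f τ x) := fun x => hfc.nice hτ x
    have hn0 : ∀ x v, 0 ≤ f τ x v := hfc.nonneg τ (hIco τ hτ)
    have hXp : PlF e (fun x => XM a (qq s a α) V (f τ x)) := by
      rw [hXMe]
      exact XG_pl ha0 ha1 hfc hpl wM1 wM2 wM3 (hIco τ hτ)
    have hYi : Integrable (fun x => XW a V (f τ x) (CmpS (δ / 2) ∩ NtS e ε₁ (kpa s a))) (muD d) := by
      rw [hXWe]
      exact pl_int (XG_pl ha0 ha1 hfc hpl wA1 wA2 wA3 (hIco τ hτ))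
    exact pair_sliceV (q := 2) (Tv_PGW P e hV) (Tv_antisymm P e) (fs_of hf hpl hτ) one_pos le_rfl
      hXp (fun x => XM_nonneg hV (hn0 x)) hK
      (fun x v => hKf V hV (f τ x) (hn x) (hn0 x) v)
      (timCV_loc (fs_of hf hpl hτ) (hj2 τ hτ)) (by positivity)
      (fun v w => VTv_nonneg P e hV v w) (fun v w => VTv_le P e hV v w)
      (hj2 τ hτ) hYi
      (fun x => timCV_low P e hV hA1 (hcf V hV) (hn x).rd (hn x).cont (hn0 x))
  have hsub : Icc r t ⊆ Ioo 0 T := fun τ hτ => ⟨lt_of_lt_of_le hr hτ.1, lt_of_le_of_lt hτ.2 htT⟩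
  have hsub' : Icc r t ⊆ Ico 0 T := fun τ hτ => hIco τ (hsub hτ)
  have iY : IntervalIntegrable (fun τ =>
      ∫ x, XW a V (f τ x) (CmpS (δ / 2) ∩ NtS e ε₁ (kpa s a)) ∂(muD d)) volume r t := by
    apply ContinuousOn.intervalIntegrable
    rw [uIcc_of_le hrt]
    simp only [hXWe]
    exact (XGt_cont ha0 ha1 hfc wA1 wA2 wA3).mono hsub'
  have iX : IntervalIntegrable (fun τ =>
      ∫ x, XM a (qq s a α) V (f τ x) ∂(muD d)) volume r t := by
    apply ContinuousOn.intervalIntegrable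
    rw [uIcc_of_le hrt]
    simp only [hXMe]
    exact (XGt_cont ha0 ha1 hfc wM1 wM2 wM3).mono hsub'
  have iS : IntervalIntegrable (fun τ => ∫ p, (boltzQ (1 + a) b (f τ p.2) p.1 *
      pot e 1 (Tv e s a α V) (f τ) p.2 p.1 + f τ p.2 p.1 * dpot e 1 (Tv e s a α V) (f τ)
        (fun x => boltzQ (1 + a) b (f τ x)) p.2 p.1) ∂(nu d)) volume r t := by
    apply ContinuousOn.intervalIntegrable
    rw [uIcc_of_le hrt]
    exact hC.contI.mono hsub
  have hftc := hC.ftc hr hrt htT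
  have hr' : r ∈ Ioo 0 T := ⟨hr, lt_of_le_of_lt hrt htT⟩
  have ht' : t ∈ Ioo 0 T := ⟨lt_of_lt_of_le hr hrt, htT⟩
  have b1 := abs_le.1 (hab r hr')
  have b2 := abs_le.1 (hab t ht')
  have hint : c * ∫ τ in r..t,
      (∫ x, XW a V (f τ x) (CmpS (δ / 2) ∩ NtS e ε₁ (kpa s a)) ∂(muD d)) ≤
      (∫ τ in r..t, ((∫ p, (boltzQ (1 + a) b (f τ p.2) p.1 *
        pot e 1 (Tv e s a α V) (f τ) p.2 p.1 +
        f τ p.2 p.1 * dpot e 1 (Tv e s a α V) (f τ) (fun x => boltzQ (1 + a) b (f τ x)) p.2 p.1)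
          ∂(nu d)) + 4 * V ^ (a - 1) * (2 * M) ^ 2 / 1 +
            K * (2 * M) * ∫ x, XM a (qq s a α) V (f τ x) ∂(muD d))) := by
    rw [← intervalIntegral.integral_const_mul]
    exact intervalIntegral.integral_mono_on hrt (iY.const_mul c)
      ((iS.add intervalIntegrable_const).add (iX.const_mul (K * (2 * M))))
      (fun τ hτ => hsl τ (hsub hτ))
  rw [intervalIntegral.integral_add (iS.add intervalIntegrable_const) (iX.const_mul (K * (2 * M))),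
    intervalIntegral.integral_add iS intervalIntegrable_const, intervalIntegral.integral_const,
    intervalIntegral.integral_const_mul, smul_eq_mul] at hint
  rw [← hftc] at hint
  have hXX : 0 ≤ ∫ τ in r..t, (∫ x, XM a (qq s a α) V (f τ x) ∂(muD d)) := by
    refine intervalIntegral.integral_nonneg hrt fun τ hτ => integral_nonneg fun x => ?_
    exact XM_nonneg hV (hfc.nonneg τ (hsub' hτ) x)
  set I : ℝ := ∫ τ in r..t, (∫ x, XM a (qq s a α) V (f τ x) ∂(muD d)) with hI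
  have hMI : 0 ≤ M * I := mul_nonneg hM0 hXX
  have hMV : 0 ≤ M ^ 2 * V ^ (a - 1) * (1 + (t - r)) := by
    have : 0 ≤ 1 + (t - r) := by linarith
    positivity
  have hKMV : 0 ≤ 2 * K * (M ^ 2 * V ^ (a - 1) * (1 + (t - r))) := by positivity
  have e4 : (t - r) * (4 * V ^ (a - 1) * (2 * M) ^ 2 / 1) + 2 * (2 * V ^ (a - 1) * (2 * M) ^ 2) =
      16 * (M ^ 2 * V ^ (a - 1) * (1 + (t - r))) := by ring
  have e5 : K * (2 * M) * I = 2 * K * (M * I) := by ring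
  rw [e5] at hint
  have e6 : (16 + 2 * K) * (M ^ 2 * V ^ (a - 1) * (1 + (t - r))) + (16 + 2 * K) * (M * I) =
      16 * (M ^ 2 * V ^ (a - 1) * (1 + (t - r))) +
        2 * K * (M ^ 2 * V ^ (a - 1) * (1 + (t - r))) + 16 * (M * I) + 2 * K * (M * I) := by ring
  rw [e6]
  linarith [b1.1, b1.2, b2.1, b2.2]

end Pool.Agent.H25.PT
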