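import Pool.Agent.H25.PT.TimAV
import Pool.Agent.H25.PT.TimBV
import Pool.Agent.H25.PT.TimCV
import Pool.Agent.H48.PL.Clos

/-!
# Module TailX: the tail of `X`

`pov_timeV` (`δ, c₁, C₁`), `ent_timeV` (`ε₁, C₂`), `pair_timeV` (`c, K`), `X_bound` (`K_X`: `∫_r^t ∫x XS univ ≤ K_X (1+(t-r))`). Write `W_nc, W_th, W_nt, W_u, X_M, X_u` for the time integrals,
`D = Hs (f r) - Hs (f t) ≥ 0` (`Hs_anti`), `v = V^(a-1) (1+(t-r))`. `W_u ≤ W_nc + W_th + W_nt` (`XW_univ_le`), `c₁ W_nc ≤ 2M v + C₁ (W_th + W_nt)` (`XW_cmp_le`), `W_th ≤ C₂ W_nt + C₂ D`,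
`c W_nt ≤ K M² v + K M X_M`, `X_M ≤ R₀^(q-2) W_u + (R₀/V)^(4-a) X_u` for `V ≥ R₀ ≥ 1` (`XM_le`), and `(R₀/V)^(4-a) X_u ≤ R₀^4 K_X v` (`V^(a-4) ≤ V^(a-1)`). So
`W_u ≤ A (v + D) + A R₀^(q-2) W_u` with `A = A(M, ..)`. Choose `R₀` with `A R₀^(q-2) ≤ 1/2` (`q < 2`): `W_u ≤ 2A (v + D)` with another `A`. For `V < R₀`: `W_u ≤ X_u ≤ K_X (1+(t-r)) ≤ K_X R₀ v`
(`V^(a-1) ≥ R₀^(a-1) ≥ R₀⁻¹`) and `D ≥ 0`. Integrability in `x` and `τ`: `XG_int`, `XGt_cont`, `XS_cont`, `XSt_cont` as in PL/Clos.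
-/

set_option autoImplicit false

open MeasureTheory Set Filter Topology Pool.Agent.H25.Kin Pool.Agent.H82.BK Pool.Agent.H82.CM
open Pool.Agent.H48.PL Pool.Agent.H48.PI

namespace Pool.Agent.H25.PT

variable {d : ℕ} {s a α C Ca cb : ℝ} {b : ℝ → ℝ}

private lemma mw_int (ha : 0 ≤ a) (ha1 : a ≤ 1) {T γ V : ℝ} (hV : 1 ≤ V)
    {f : ℝ → Vec d → Vec d → ℝ} (hf : IsBoltzmannSol γ b T f) {t : ℝ} (ht : t ∈ Ico 0 T)
    {A : Set (Vec d × Vec d)} (hA : MeasurableSet A) :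
    Integrable (fun x => XW a V (f t x) A) (muD d) := by
  obtain ⟨h1, h2, h3⟩ := wt_om (d := d) ha1 hV hA
  have h := XG_int ha ha1 hf h1 h2 h3 ht
  refine h.congr (Eventually.of_forall fun x => ?_)
  exact (XW_eq_XG hA).symm

private noncomputable def IW (a V : ℝ) (f : ℝ → Vec d → Vec d → ℝ) (A : Set (Vec d × Vec d))
    (t : ℝ) : ℝ := ∫ x, XW a V (f t x) A ∂(muD d)

private lemma iw_ii (ha : 0 ≤ a) (ha1 : a ≤ 1) {T γ V : ℝ} (hV : 1 ≤ V)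
    {f : ℝ → Vec d → Vec d → ℝ} (hf : IsBoltzmannSol γ b T f) {r t : ℝ} (hr : 0 ≤ r) (hrt : r ≤ t)
    (htT : t < T) {A : Set (Vec d × Vec d)} (hA : MeasurableSet A) :
    IntervalIntegrable (IW a V f A) volume r t := by
  obtain ⟨h1, h2, h3⟩ := wt_om (d := d) ha1 hV hA
  have h := XGt_cont ha ha1 hf h1 h2 h3
  have e : (fun t : ℝ => ∫ x, XG a (A.indicator fun p => om a V (RR p.1 p.2)) (f t x) ∂(muD d)) =
      IW a V f A := by
    funext τ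
    refine integral_congr_ae (Eventually.of_forall fun x => ?_)
    exact (XW_eq_XG hA).symm
  rw [e] at h
  refine ContinuousOn.intervalIntegrable_of_Icc hrt (h.mono ?_)
  intro x hx
  exact ⟨hr.trans hx.1, hx.2.trans_lt htT⟩

private noncomputable def IM (a q V : ℝ) (f : ℝ → Vec d → Vec d → ℝ) (t : ℝ) : ℝ :=
  ∫ x, XM a q V (f t x) ∂(muD d)

private lemma im_int (ha : 0 ≤ a) (ha1 : a ≤ 1) {T γ V q : ℝ} (hq2 : q ≤ 2) (hV : 1 ≤ V)
    {f : ℝ → Vec d → Vec d → ℝ} (hf : IsBoltzmannSol γ b T f) {t : ℝ} (ht : t ∈ Ico 0 T) :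
    Integrable (fun x => XM a q V (f t x)) (muD d) := by
  obtain ⟨h1, h2, h3⟩ := wt_omM (d := d) ha1 hq2 hV
  have h := XG_int ha ha1 hf h1 h2 h3 ht
  refine h.congr (Eventually.of_forall fun x => ?_)
  exact XM_eq_XG.symm

private lemma im_ii (ha : 0 ≤ a) (ha1 : a ≤ 1) {T γ V q : ℝ} (hq2 : q ≤ 2) (hV : 1 ≤ V)
    {f : ℝ → Vec d → Vec d → ℝ} (hf : IsBoltzmannSol γ b T f) {r t : ℝ} (hr : 0 ≤ r) (hrt : r ≤ t)
    (htT : t < T) : IntervalIntegrable (IM a q V f) volume r t := by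
  obtain ⟨h1, h2, h3⟩ := wt_omM (d := d) ha1 hq2 hV
  have h := XGt_cont ha ha1 hf h1 h2 h3
  have e : (fun t : ℝ => ∫ x, XG a (fun p => omM a q V (RR p.1 p.2)) (f t x) ∂(muD d)) =
      IM a q V f := by
    funext τ
    refine integral_congr_ae (Eventually.of_forall fun x => ?_)
    exact XM_eq_XG.symm
  rw [e] at h
  refine ContinuousOn.intervalIntegrable_of_Icc hrt (h.mono ?_)
  intro x hx
  exact ⟨hr.trans hx.1, hx.2.trans_lt htT⟩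

private noncomputable def IX (a : ℝ) (f : ℝ → Vec d → Vec d → ℝ) (t : ℝ) : ℝ :=
  ∫ x, XS a (f t x) univ ∂(muD d)

private lemma xs_int (ha : 0 ≤ a) (ha1 : a ≤ 1) {T γ : ℝ} {f : ℝ → Vec d → Vec d → ℝ}
    (hf : IsBoltzmannSol γ b T f) {t : ℝ} (ht : t ∈ Ico 0 T) :
    Integrable (fun x => XS a (f t x) univ) (muD d) := by
  have h : Continuous (fun x : Vec d => XS a (f t x) univ) :=
    (XS_cont ha ha1 hf univ).comp_continuous (by fun_prop : Continuous fun x : Vec d => (t, x))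
      (fun x => ⟨ht, mem_univ _⟩)
  exact h.integrableOn_Icc

private lemma ix_ii (ha : 0 ≤ a) (ha1 : a ≤ 1) {T γ : ℝ} {f : ℝ → Vec d → Vec d → ℝ}
    (hf : IsBoltzmannSol γ b T f) {r t : ℝ} (hr : 0 ≤ r) (hrt : r ≤ t) (htT : t < T) :
    IntervalIntegrable (IX a f) volume r t := by
  refine ContinuousOn.intervalIntegrable_of_Icc hrt ((XSt_cont ha ha1 hf univ).mono ?_)
  intro x hx
  exact ⟨hr.trans hx.1, hx.2.trans_lt htT⟩

private lemma time_split {r t : ℝ} (hrt : r ≤ t) {F G H : ℝ → ℝ}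
    (hF : IntervalIntegrable F volume r t) (hG : IntervalIntegrable G volume r t)
    (hH : IntervalIntegrable H volume r t) (h : ∀ x ∈ Icc r t, F x ≤ G x + H x) :
    ∫ τ in r..t, F τ ≤ (∫ τ in r..t, G τ) + ∫ τ in r..t, H τ := by
  rw [← intervalIntegral.integral_add hG hH]
  exact intervalIntegral.integral_mono_on hrt hF (hG.add hH) h

private lemma split_w (ha : 0 ≤ a) (ha1 : a ≤ 1) {T γ V : ℝ} (hV : 1 ≤ V)
    {f : ℝ → Vec d → Vec d → ℝ} (hf : IsBoltzmannSol γ b T f) {r t : ℝ} (hr : 0 < r) (hrt : r ≤ t)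
    (htT : t < T) {δ : ℝ} (hδ : 0 ≤ δ) (e : Fin d) (ε κ : ℝ) :
    (∫ τ in r..t, IW a V f univ τ) ≤ (∫ τ in r..t, IW a V f (CmpS δ)ᶜ τ) +
      ((∫ τ in r..t, IW a V f (CmpS δ ∩ (NtS e ε κ)ᶜ) τ) +
        ∫ τ in r..t, IW a V f (CmpS (δ / 2) ∩ NtS e ε κ) τ) ∧
    (∫ τ in r..t, IW a V f (CmpS δ) τ) ≤
      (∫ τ in r..t, IW a V f (CmpS δ ∩ (NtS e ε κ)ᶜ) τ) +
        ∫ τ in r..t, IW a V f (CmpS (δ / 2) ∩ NtS e ε κ) τ := by
  have m0 : MeasurableSet (univ : Set (Vec d × Vec d)) := MeasurableSet.univ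
  have m1 : MeasurableSet (CmpS δ : Set (Vec d × Vec d)) := measurableSet_CmpS δ
  have m2 : MeasurableSet (CmpS δ ∩ (NtS e ε κ)ᶜ : Set (Vec d × Vec d)) :=
    m1.inter (measurableSet_NtS e ε κ).compl
  have m3 : MeasurableSet (CmpS (δ / 2) ∩ NtS e ε κ : Set (Vec d × Vec d)) :=
    (measurableSet_CmpS _).inter (measurableSet_NtS e ε κ)
  have hii := fun {A : Set (Vec d × Vec d)} (hA : MeasurableSet A) =>
    iw_ii ha ha1 hV hf hr.le hrt htT hA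
  have hmem : ∀ τ ∈ Icc r t, τ ∈ Ioo 0 T := fun τ hτ => ⟨hr.trans_le hτ.1, hτ.2.trans_lt htT⟩
  constructor
  · rw [← intervalIntegral.integral_add (hii m2) (hii m3)]
    refine time_split hrt (hii m0) (hii m1.compl) ((hii m2).add (hii m3)) fun τ hτ => ?_
    have hτ1 := hmem τ hτ
    have hτ0 : τ ∈ Ico 0 T := ⟨hτ1.1.le, hτ1.2⟩
    have hi := fun {A : Set (Vec d × Vec d)} (hA : MeasurableSet A) =>
      mw_int ha ha1 hV hf hτ0 hA
    simp only [IW]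
    rw [← integral_add (hi m2) (hi m3)]
    have h2 : Integrable (fun x => XW a V (f τ x) (CmpS δ ∩ (NtS e ε κ)ᶜ) +
      XW a V (f τ x) (CmpS (δ / 2) ∩ NtS e ε κ)) (muD d) := (hi m2).add (hi m3)
    rw [← integral_add (hi m1.compl) h2]
    refine integral_mono (hi m0) ((hi m1.compl).add h2) fun x => ?_
    exact XW_univ_le ha ha1 hV (hf.nice hτ1 x).rd (hf.nice hτ1 x).cont
      (fun v => hf.nonneg τ hτ0 x v) hδ e ε κ
  · refine time_split hrt (hii m1) (hii m2) (hii m3) fun τ hτ => ?_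
    have hτ1 := hmem τ hτ
    have hτ0 : τ ∈ Ico 0 T := ⟨hτ1.1.le, hτ1.2⟩
    have hi := fun {A : Set (Vec d × Vec d)} (hA : MeasurableSet A) =>
      mw_int ha ha1 hV hf hτ0 hA
    simp only [IW]
    rw [← integral_add (hi m2) (hi m3)]
    refine integral_mono (hi m1) ((hi m2).add (hi m3)) fun x => ?_
    exact XW_cmp_le ha ha1 hV (hf.nice hτ1 x).rd (hf.nice hτ1 x).cont
      (fun v => hf.nonneg τ hτ0 x v) hδ e ε κ

private lemma iw_le_ix (ha : 0 ≤ a) (ha1 : a ≤ 1) {T γ V : ℝ} (hV : 1 ≤ V)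
    {f : ℝ → Vec d → Vec d → ℝ} (hf : IsBoltzmannSol γ b T f) {r t : ℝ} (hr : 0 < r) (hrt : r ≤ t)
    (htT : t < T) : (∫ τ in r..t, IW a V f univ τ) ≤ ∫ τ in r..t, IX a f τ := by
  refine intervalIntegral.integral_mono_on hrt (iw_ii ha ha1 hV hf hr.le hrt htT MeasurableSet.univ)
    (ix_ii ha ha1 hf hr.le hrt htT) fun τ hτ => ?_
  have hτ1 : τ ∈ Ioo 0 T := ⟨hr.trans_le hτ.1, hτ.2.trans_lt htT⟩
  have hτ0 : τ ∈ Ico 0 T := ⟨hτ1.1.le, hτ1.2⟩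
  refine integral_mono (mw_int ha ha1 hV hf hτ0 MeasurableSet.univ) (xs_int ha ha1 hf hτ0)
    fun x => ?_
  exact XW_le_XS ha ha1 hV (hf.nice hτ1 x).rd (hf.nice hτ1 x).cont
    (fun v => hf.nonneg τ hτ0 x v) univ

private lemma im_le (ha : 0 ≤ a) (ha1 : a ≤ 1) {T γ V q R₀ : ℝ} (hq2 : q ≤ 2) (hR₀ : 1 ≤ R₀)
    (hV : R₀ ≤ V) {f : ℝ → Vec d → Vec d → ℝ} (hf : IsBoltzmannSol γ b T f) {r t : ℝ} (hr : 0 < r)
    (hrt : r ≤ t) (htT : t < T) :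
    (∫ τ in r..t, IM a q V f τ) ≤ R₀ ^ (q - 2) * (∫ τ in r..t, IW a V f univ τ) +
      (R₀ / V) ^ (4 - a) * ∫ τ in r..t, IX a f τ := by
  have hV1 : 1 ≤ V := hR₀.trans hV
  have i1 := (iw_ii ha ha1 hV1 hf hr.le hrt htT MeasurableSet.univ).const_mul (R₀ ^ (q - 2))
  have i2 := (ix_ii ha ha1 hf hr.le hrt htT).const_mul ((R₀ / V) ^ (4 - a))
  rw [← intervalIntegral.integral_const_mul, ← intervalIntegral.integral_const_mul]
  refine time_split hrt (im_ii ha ha1 hq2 hV1 hf hr.le hrt htT) i1 i2 fun τ hτ => ?_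
  have hτ1 : τ ∈ Ioo 0 T := ⟨hr.trans_le hτ.1, hτ.2.trans_lt htT⟩
  have hτ0 : τ ∈ Ico 0 T := ⟨hτ1.1.le, hτ1.2⟩
  have j1 := (mw_int ha ha1 hV1 hf hτ0 (MeasurableSet.univ)).const_mul (R₀ ^ (q - 2))
  have j2 := (xs_int ha ha1 hf hτ0).const_mul ((R₀ / V) ^ (4 - a))
  simp only [IM, IW, IX]
  rw [← integral_const_mul, ← integral_const_mul, ← integral_add j1 j2]
  refine integral_mono (im_int ha ha1 hq2 hV1 hf hτ0) (j1.add j2) fun x => ?_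
  exact XM_le ha ha1 hq2 hR₀ hV (hf.nice hτ1 x).rd (hf.nice hτ1 x).cont
    (fun v => hf.nonneg τ hτ0 x v)

private lemma absorb {Wu Wh Wc Wt Wn Xm Xu M c₁ C₁ C₂ c K KX E v D G ρ L : ℝ} (hc₁ : 0 < c₁)
    (hC₁ : 0 ≤ C₁) (hC₂ : 0 ≤ C₂) (hc : 0 < c) (hK : 0 ≤ K) (hM : 0 ≤ M) (hWu : 0 ≤ Wu)
    (hv : v ≤ E) (hG : G = (C₁ / c₁ + 1) * (C₂ + 1) / c * K * M) (hρ : G * ρ ≤ 1 / 2)
    (h1 : Wu ≤ Wh + (Wt + Wn)) (h2 : Wc ≤ Wt + Wn) (h3 : c₁ * Wh ≤ 2 * M * v + C₁ * Wc)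
    (h4 : Wt ≤ C₂ * Wn + C₂ * D) (h5 : c * Wn ≤ K * (M ^ 2 * E) + K * (M * Xm))
    (h6 : Xm ≤ ρ * Wu + L * Xu) (h7 : L * Xu ≤ KX * E) :
    Wu ≤ 2 * (2 * M / c₁ + G * M + G * KX) * E + 2 * ((C₁ / c₁ + 1) * C₂) * D := by
  set B : ℝ := C₁ / c₁ + 1 with hB
  have hB0 : 0 < B := by positivity
  have hG0 : 0 ≤ G := by rw [hG]; positivity
  have g1 : Wh ≤ 2 * M / c₁ * E + C₁ / c₁ * (Wt + Wn) := by
    have : Wh ≤ (2 * M * E + C₁ * (Wt + Wn)) / c₁ := by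
      rw [le_div_iff₀ hc₁]
      have q1 : 2 * M * v ≤ 2 * M * E := by gcongr
      have q2 : C₁ * Wc ≤ C₁ * (Wt + Wn) := by gcongr
      linarith
    refine this.trans (le_of_eq ?_)
    ring
  have g2 : Wu ≤ 2 * M / c₁ * E + B * (Wt + Wn) := by
    have : B * (Wt + Wn) = C₁ / c₁ * (Wt + Wn) + (Wt + Wn) := by rw [hB]; ring
    linarith
  have g3 : B * (Wt + Wn) ≤ B * (C₂ * D) + B * (C₂ + 1) * Wn := by
    have : B * (Wt + Wn) ≤ B * (C₂ * Wn + C₂ * D + Wn) :=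
      mul_le_mul_of_nonneg_left (by linarith) hB0.le
    refine this.trans (le_of_eq ?_)
    ring
  have g4 : Wn ≤ (K * (M ^ 2 * E) + K * (M * (ρ * Wu + KX * E))) / c := by
    rw [le_div_iff₀ hc]
    have : K * (M * Xm) ≤ K * (M * (ρ * Wu + KX * E)) := by
      gcongr
      linarith
    linarith
  have g5 : B * (C₂ + 1) * Wn ≤ G * M * E + G * (ρ * Wu + KX * E) := by
    have h8 : 0 ≤ B * (C₂ + 1) := by positivity
    refine (mul_le_mul_of_nonneg_left g4 h8).trans (le_of_eq ?_)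
    rw [hG]
    ring
  have g6 : G * (ρ * Wu) ≤ Wu / 2 := by
    have : G * ρ * Wu ≤ 1 / 2 * Wu := mul_le_mul_of_nonneg_right hρ hWu
    linarith
  have e1 : G * (ρ * Wu + KX * E) = G * (ρ * Wu) + G * KX * E := by ring
  linarith

private lemma pp_facts (P : PP s a α) : 2 * s < a ∧ a ≤ 1 ∧ 0 < a ∧ 0 ≤ qq s a α ∧ qq s a α < 2 := by
  have h1 := P.hs
  have h2 := P.hα
  have h3 := P.hαa
  have h4 := P.hq
  have ha : 2 * s < a := by linarith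
  have hk : 1 ≤ kpa s a := by
    unfold kpa
    rw [one_le_div (by positivity)]
    exact ha.le
  have h5 : 1 * (1 + α) ≤ kpa s a * (1 + α) := mul_le_mul_of_nonneg_right hk (by linarith)
  refine ⟨ha, by linarith, by linarith, ?_, h4⟩
  unfold qq
  linarith

theorem tail_X (HL : HypL d (1 + a) s b C Ca cb) (P : PP s a α) (e : Fin d) (M : ℝ) :
    ∃ K : ℝ, 0 ≤ K ∧ ∀ (T : ℝ) (f : ℝ → Vec d → Vec d → ℝ), IsBoltzmannSol (1 + a) b T f →
      Planar e T f → GB M (f 0) → ∀ V : ℝ, 1 ≤ V → ∀ r t : ℝ, 0 < r → r ≤ t → t < T →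
      ∫ τ in r..t, (∫ x, XW a V (f τ x) univ ∂(muD d)) ≤
        K * (V ^ (-(1 - a)) * (1 + (t - r)) + (Hs (f r) - Hs (f t))) := by
  obtain ⟨has, ha1, ha, hq0, hq2⟩ := pp_facts P
  obtain ⟨δ, c₁, C₁, hδ, hδ1, hc₁, hC₁, hA⟩ := pov_timeV HL has ha1
  obtain ⟨ε₁, C₂, hε₁, hC₂, hB⟩ := ent_timeV HL ha ha1 e hδ hδ1
  obtain ⟨c, K, hc, hK, hD⟩ := pair_timeV HL P e hδ hδ1 hε₁
  obtain ⟨KX, hKX, hX⟩ := X_bound HL P e M
  rcases lt_or_ge M 0 with hM | hM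
  · refine ⟨0, le_rfl, fun T f hf hpl h0 V hV r t hr hrt htT => ?_⟩
    exfalso
    have h1 : 0 ≤ ∫ q, f 0 q.2 q.1 ∂(nu d) :=
      integral_nonneg fun q => hf.nonneg 0 ⟨le_rfl, hr.trans_le (hrt.trans htT.le)⟩ _ _
    linarith [h0.mass]
  set G : ℝ := (C₁ / c₁ + 1) * (C₂ + 1) / c * K * M with hG
  have hG0 : 0 ≤ G := by positivity
  set R₀ : ℝ := (2 * G + 1) ^ (1 / (2 - qq s a α)) with hR₀def
  have hq2' : 0 < 2 - qq s a α := by linarith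
  have hR₀ : 1 ≤ R₀ := Real.one_le_rpow (by linarith) (by positivity)
  have hR₀0 : 0 < R₀ := by linarith
  have hρ : G * R₀ ^ (qq s a α - 2) ≤ 1 / 2 := by
    have e1 : R₀ ^ (qq s a α - 2) = (2 * G + 1)⁻¹ := by
      rw [hR₀def, ← Real.rpow_mul (by linarith)]
      have e2 : 1 / (2 - qq s a α) * (qq s a α - 2) = -1 := by
        field_simp
        ring
      rw [e2, Real.rpow_neg_one]
    rw [e1, mul_inv_le_iff₀ (by linarith)]
    linarith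
  have hKn : 0 ≤ 2 * (2 * M / c₁ + G * M + G * (R₀ ^ (4 : ℕ) * KX)) := by positivity
  have hKn2 : 0 ≤ 2 * ((C₁ / c₁ + 1) * C₂) := by positivity
  have hKn3 : 0 ≤ KX * R₀ := by positivity
  refine ⟨2 * (2 * M / c₁ + G * M + G * (R₀ ^ (4 : ℕ) * KX)) + 2 * ((C₁ / c₁ + 1) * C₂) + KX * R₀,
    by linarith, fun T f hf hpl h0 V hV r t hr hrt htT => ?_⟩
  have hD0 : 0 ≤ Hs (f r) - Hs (f t) := sub_nonneg.2 (Hs_anti HL.H hf hr hrt htT)
  have hτ : 0 ≤ t - r := sub_nonneg.2 hrt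
  have hV0 : 0 < V := by linarith
  have hVp : 0 < V ^ (-(1 - a)) := Real.rpow_pos_of_pos hV0 _
  set D : ℝ := Hs (f r) - Hs (f t) with hDdef
  set E : ℝ := V ^ (-(1 - a)) * (1 + (t - r)) with hEdef
  have hE0 : 0 ≤ E := by positivity
  have hvE : V ^ (a - 1) ≤ E := by
    rw [hEdef, show a - 1 = -(1 - a) by ring]
    nlinarith
  have hXu : (∫ τ in r..t, IX a f τ) ≤ KX * (1 + (t - r)) := hX T f hf hpl h0 r t hr hrt htT
  have hW0 : 0 ≤ ∫ τ in r..t, IW a V f univ τ :=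
    intervalIntegral.integral_nonneg hrt fun τ hτ => integral_nonneg fun x =>
      XW_nonneg hV (fun v => hf.nonneg τ ⟨hr.le.trans hτ.1, hτ.2.trans_lt htT⟩ x v) univ
  have hX0 : 0 ≤ ∫ τ in r..t, IX a f τ := hW0.trans (iw_le_ix ha.le ha1 hV hf hr hrt htT)
  have goal : (∫ τ in r..t, IW a V f univ τ) ≤
      (2 * (2 * M / c₁ + G * M + G * (R₀ ^ (4 : ℕ) * KX)) + 2 * ((C₁ / c₁ + 1) * C₂) + KX * R₀) *
        (E + D) := by
    rcases lt_or_ge V R₀ with hVR | hVR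
    · have h1 : (∫ τ in r..t, IW a V f univ τ) ≤ KX * (1 + (t - r)) :=
        (iw_le_ix ha.le ha1 hV hf hr hrt htT).trans hXu
      have h2 : 1 ≤ R₀ * V ^ (-(1 - a)) := by
        have h3 : V⁻¹ ≤ V ^ (-(1 - a)) := by
          rw [← Real.rpow_neg_one]
          exact Real.rpow_le_rpow_of_exponent_le hV (by linarith)
        have h4 : 1 ≤ R₀ * V⁻¹ := by
          rw [← div_eq_mul_inv, one_le_div hV0]
          exact hVR.le
        exact h4.trans (mul_le_mul_of_nonneg_left h3 hR₀0.le)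
      have h5 : KX * (1 + (t - r)) ≤ KX * R₀ * E := by
        have h6 : (1 + (t - r)) ≤ R₀ * V ^ (-(1 - a)) * (1 + (t - r)) := by
          nlinarith
        calc KX * (1 + (t - r)) ≤ KX * (R₀ * V ^ (-(1 - a)) * (1 + (t - r))) :=
              mul_le_mul_of_nonneg_left h6 hKX
          _ = KX * R₀ * E := by rw [hEdef]; ring
      have h7 : KX * R₀ * E ≤ KX * R₀ * (E + D) := mul_le_mul_of_nonneg_left (by linarith) hKn3
      have h8 : KX * R₀ * (E + D) ≤ (2 * (2 * M / c₁ + G * M + G * (R₀ ^ (4 : ℕ) * KX)) +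
          2 * ((C₁ / c₁ + 1) * C₂) + KX * R₀) * (E + D) :=
        mul_le_mul_of_nonneg_right (by linarith) (by linarith)
      linarith
    · obtain ⟨s1, s2⟩ := split_w ha.le ha1 hV hf hr hrt htT hδ.le e ε₁ (kpa s a)
      have h3 := hA M T f hf h0 V hV r t hr hrt htT
      have h4 := hB T f hf V hV r t hr hrt htT
      have h5 := hD M T f hf hpl h0 V hV r t hr hrt htT
      have h6 := im_le ha.le ha1 hq2.le hR₀ hVR hf hr hrt htT
      have h5' : c * (∫ τ in r..t, IW a V f (CmpS (δ / 2) ∩ NtS e ε₁ (kpa s a)) τ) ≤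
          K * (M ^ 2 * E) + K * (M * ∫ τ in r..t, IM a (qq s a α) V f τ) := by
        refine h5.trans (le_of_eq ?_)
        rw [hEdef, show a - 1 = -(1 - a) by ring]
        simp only [IM]
        ring
      have h7 : (R₀ / V) ^ (4 - a) * (∫ τ in r..t, IX a f τ) ≤ R₀ ^ (4 : ℕ) * KX * E := by
        have k1 : (R₀ / V) ^ (4 - a) ≤ R₀ ^ (4 : ℕ) * V ^ (-(1 - a)) := by
          rw [Real.div_rpow hR₀0.le hV0.le, div_eq_mul_inv, ← Real.rpow_neg hV0.le]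
          have k2 : R₀ ^ (4 - a) ≤ R₀ ^ (4 : ℕ) := by
            rw [← Real.rpow_natCast R₀ 4]
            exact Real.rpow_le_rpow_of_exponent_le hR₀ (by push_cast; linarith)
          have k3 : V ^ (-(4 - a)) ≤ V ^ (-(1 - a)) :=
            Real.rpow_le_rpow_of_exponent_le hV (by linarith)
          have k4 : 0 ≤ V ^ (-(4 - a)) := (Real.rpow_pos_of_pos hV0 _).le
          gcongr
        calc (R₀ / V) ^ (4 - a) * (∫ τ in r..t, IX a f τ)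
            ≤ (R₀ ^ (4 : ℕ) * V ^ (-(1 - a))) * (KX * (1 + (t - r))) := by gcongr
          _ = R₀ ^ (4 : ℕ) * KX * E := by rw [hEdef]; ring
      have h8 := absorb hc₁ hC₁ hC₂ hc hK hM hW0 hvE hG hρ s1 s2 h3 h4 h5' h6 h7
      have h9 : 2 * (2 * M / c₁ + G * M + G * (R₀ ^ (4 : ℕ) * KX)) * E ≤
          2 * (2 * M / c₁ + G * M + G * (R₀ ^ (4 : ℕ) * KX)) * (E + D) :=
        mul_le_mul_of_nonneg_left (by linarith) hKn
      have h10 : 2 * ((C₁ / c₁ + 1) * C₂) * D ≤ 2 * ((C₁ / c₁ + 1) * C₂) * (E + D) :=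
        mul_le_mul_of_nonneg_left (by linarith) hKn2
      have h11 : 0 ≤ KX * R₀ * (E + D) := by positivity
      linarith
  exact goal

end Pool.Agent.H25.PT
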