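import Pool.Agent.H25.PT.PovV
import Pool.Agent.H25.PT.XWC
import Pool.Agent.H48.PL.CSolP

/-!
# Module TimAV: (A1) in time

Copy of `pov_time` (PL/TimA) with `phV a V` (`phV_PG`, `phV_cont`, `phV_nonneg`, `phV_le`) instead of `jb^a`, `povznerV`, and the continuity of `XW` from XWC
(`XW_eq_XG`, `XG_int`, `XGt_cont`, `wt_om`). The end term is `∫ f(t) phV dν ≤ V^(a-1) ∫ f(t) jb² dν ≤ 2M V^(a-1)` (`jb2_bound`, `glob_bounds`), the initial term is `≥ 0`.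
-/

set_option autoImplicit false

open MeasureTheory Set Filter Topology Pool.Agent.H25.Kin Pool.Agent.H82.BK Pool.Agent.H82.CM
open Pool.Agent.H48.PL Pool.Agent.H48.PI

namespace Pool.Agent.H25.PT

variable {d : ℕ} {s a C Ca cb : ℝ} {b : ℝ → ℝ}

private lemma timAV_cont {F : ℝ → Vec d → Vec d → ℝ} {D : Set ℝ}
    (h : ContinuousOn (unc F) (D ×ˢ univ)) {t : ℝ} (ht : t ∈ D) :
    Continuous fun q : Vec d × Vec d => F t q.2 q.1 := by
  have h1 : Continuous fun q : Vec d × Vec d => (t, q.2, q.1) := by fun_prop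
  exact h.comp_continuous h1 fun q => ⟨ht, mem_univ _⟩

private lemma timAV_int {F : ℝ → Vec d → Vec d → ℝ} {D : Set ℝ}
    (h : ContinuousOn (unc F) (D ×ˢ univ)) {t : ℝ} (ht : t ∈ D) {K : ℝ}
    (hK : ∀ x v, |F t x v| ≤ K * wt d v) :
    Integrable (fun q : Vec d × Vec d => F t q.2 q.1) (nu d) :=
  integrable_nu (timAV_cont h ht).aestronglyMeasurable fun q => hK q.2 q.1

private lemma timAV_xint {T V : ℝ} {Q f : ℝ → Vec d → Vec d → ℝ} (ha : 0 ≤ a) (ha1 : a ≤ 1)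
    (hf : IsClassicalSol T Q f) (hV : 1 ≤ V) {A : Set (Vec d × Vec d)} (hA : MeasurableSet A)
    {t : ℝ} (ht : t ∈ Ico 0 T) :
    Integrable (fun x => XW a V (f t x) A) (muD d) := by
  obtain ⟨w1, w2, w3⟩ := wt_om (a := a) (V := V) ha1 hV hA
  have h1 : (fun x => XW a V (f t x) A) =
      fun x => XG a (A.indicator fun p => om a V (RR p.1 p.2)) (f t x) := by
    funext x
    exact XW_eq_XG hA
  rw [h1]
  exact XG_int ha ha1 hf w1 w2 w3 ht

private lemma timAV_tcont {T V : ℝ} {Q f : ℝ → Vec d → Vec d → ℝ} (ha : 0 ≤ a) (ha1 : a ≤ 1)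
    (hf : IsClassicalSol T Q f) (hV : 1 ≤ V) {A : Set (Vec d × Vec d)} (hA : MeasurableSet A) :
    ContinuousOn (fun t : ℝ => ∫ x, XW a V (f t x) A ∂(muD d)) (Ico 0 T) := by
  obtain ⟨w1, w2, w3⟩ := wt_om (a := a) (V := V) ha1 hV hA
  have h1 : (fun t : ℝ => ∫ x, XW a V (f t x) A ∂(muD d)) =
      fun t => ∫ x, XG a (A.indicator fun p => om a V (RR p.1 p.2)) (f t x) ∂(muD d) := by
    funext t
    congr 1
    funext x
    exact XW_eq_XG hA
  rw [h1]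
  exact XGt_cont ha ha1 hf w1 w2 w3

theorem pov_timeV (HL : HypL d (1 + a) s b C Ca cb) (h1 : 2 * s < a) (ha1 : a ≤ 1) :
    ∃ δ c₁ C₁ : ℝ, 0 < δ ∧ δ < 1 ∧ 0 < c₁ ∧ 0 ≤ C₁ ∧ ∀ (M T : ℝ) (f : ℝ → Vec d → Vec d → ℝ),
      IsBoltzmannSol (1 + a) b T f → GB M (f 0) → ∀ V : ℝ, 1 ≤ V → ∀ r t : ℝ, 0 < r → r ≤ t → t < T →
      c₁ * ∫ τ in r..t, (∫ x, XW a V (f τ x) (CmpS δ)ᶜ ∂(muD d)) ≤
        2 * M * V ^ (a - 1) + C₁ * ∫ τ in r..t, (∫ x, XW a V (f τ x) (CmpS δ) ∂(muD d)) := by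
  obtain ⟨δ, c₁, C₁, hδ, hδ1, hc₁, hC₁, hP⟩ := povznerV HL h1 ha1
  refine ⟨δ, c₁, C₁, hδ, hδ1, hc₁, hC₁, fun M T f hf h0 V hV r t hr hrt htT => ?_⟩
  have hs0 : 0 < s := HL.H.hs
  have ha0 : 0 < a := by linarith
  have hf' : IsClassicalSol T (fun t x => boltzQ (1 + a) b (f t x)) f := hf
  have hjc : ∀ r : ℝ, Continuous fun v : Vec d => jb v ^ r := fun r =>
    jb_cont.rpow_const fun v => Or.inl (jb_pos v).ne'
  have HA := csol_mom hf' (phV_PG (d := d) ha0 ha1 hV) (phV_cont ha0 V)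
  have H2 := csol_mom hf' (PG_jb (d := d) (r := 2)) (hjc 2)
  have ht : t ∈ Ico 0 T := ⟨hr.le.trans hrt, htT⟩
  have hrI : r ∈ Ico 0 T := ⟨hr.le, hrt.trans_lt htT⟩
  have hV0 : (0 : ℝ) ≤ V ^ (a - 1) := Real.rpow_nonneg (by linarith) _
  -- the boundary terms
  have hftc := HA.ftc hr hrt htT
  have b0 : 0 ≤ ∫ q, f r q.2 q.1 * phV a V q.1 ∂(nu d) :=
    integral_nonneg fun q => mul_nonneg (hf'.nonneg r hrI _ _) (phV_nonneg ha0 hV _)
  have b1 : ∫ q, f t q.2 q.1 * phV a V q.1 ∂(nu d) ≤ 2 * M * V ^ (a - 1) := by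
    have hb := jb2_bound hf ht (glob_bounds HL.H hf h0 ht)
    obtain ⟨K, hK⟩ := HA.dec t htT
    obtain ⟨K2, hK2⟩ := H2.dec t htT
    have i1 := timAV_int HA.cont ht (hK t ⟨ht.1, le_rfl⟩)
    have i2 := timAV_int H2.cont ht (hK2 t ⟨ht.1, le_rfl⟩)
    have e2 : (fun q : Vec d × Vec d => f t q.2 q.1 * jb q.1 ^ (2 : ℕ)) =
        fun q => f t q.2 q.1 * jb q.1 ^ (2 : ℝ) := by
      funext q
      rw [Real.rpow_two]
    rw [e2] at hb
    have h3 : ∫ q, f t q.2 q.1 * phV a V q.1 ∂(nu d) ≤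
        ∫ q, V ^ (a - 1) * (f t q.2 q.1 * jb q.1 ^ (2 : ℝ)) ∂(nu d) := by
      refine integral_mono i1 (i2.const_mul _) fun q => ?_
      have h4 := mul_le_mul_of_nonneg_left (phV_le ha0 ha1 hV q.1) (hf'.nonneg t ht q.2 q.1)
      calc f t q.2 q.1 * phV a V q.1 ≤ f t q.2 q.1 * (V ^ (a - 1) * jb q.1 ^ (2 : ℕ)) := h4
        _ = V ^ (a - 1) * (f t q.2 q.1 * jb q.1 ^ (2 : ℝ)) := by
            rw [Real.rpow_two]
            ring
    rw [integral_const_mul] at h3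
    have h5 := mul_le_mul_of_nonneg_left hb hV0
    calc ∫ q, f t q.2 q.1 * phV a V q.1 ∂(nu d) ≤
          V ^ (a - 1) * ∫ q, f t q.2 q.1 * jb q.1 ^ (2 : ℝ) ∂(nu d) := h3
      _ ≤ V ^ (a - 1) * (2 * M) := h5
      _ = 2 * M * V ^ (a - 1) := mul_comm _ _
  have b2 : ∫ τ in r..t, (∫ q, boltzQ (1 + a) b (f τ q.2) q.1 * phV a V q.1 ∂(nu d)) ≤
      2 * M * V ^ (a - 1) := by
    rw [← hftc]
    linarith
  -- interval integrability
  have hsub : uIcc r t ⊆ Ioo 0 T := by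
    rw [uIcc_of_le hrt]
    exact fun τ hτ => ⟨hr.trans_le hτ.1, hτ.2.trans_lt htT⟩
  have hsub2 : uIcc r t ⊆ Ico 0 T := fun τ hτ => ⟨(hsub hτ).1.le, (hsub hτ).2⟩
  have hm1 : MeasurableSet (CmpS δ : Set (Vec d × Vec d)) := measurableSet_CmpS δ
  have hm2 : MeasurableSet ((CmpS δ)ᶜ : Set (Vec d × Vec d)) := hm1.compl
  have j0 : IntervalIntegrable (fun τ => ∫ q, boltzQ (1 + a) b (f τ q.2) q.1 * phV a V q.1 ∂(nu d))
      volume r t := (HA.contI.mono hsub).intervalIntegrable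
  have j1 : IntervalIntegrable (fun τ => ∫ x, XW a V (f τ x) (CmpS δ)ᶜ ∂(muD d)) volume r t :=
    ((timAV_tcont ha0.le ha1 hf' hV hm2).mono hsub2).intervalIntegrable
  have j2 : IntervalIntegrable (fun τ => ∫ x, XW a V (f τ x) (CmpS δ) ∂(muD d)) volume r t :=
    ((timAV_tcont ha0.le ha1 hf' hV hm1).mono hsub2).intervalIntegrable
  -- the pointwise inequality
  have key : ∀ τ ∈ Icc r t, c₁ * (∫ x, XW a V (f τ x) (CmpS δ)ᶜ ∂(muD d)) ≤
      (∫ q, boltzQ (1 + a) b (f τ q.2) q.1 * phV a V q.1 ∂(nu d)) +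
        C₁ * ∫ x, XW a V (f τ x) (CmpS δ) ∂(muD d) := by
    intro τ hτ
    have hτ' : τ ∈ Ioo 0 T := ⟨hr.trans_le hτ.1, hτ.2.trans_lt htT⟩
    have hτ2 : τ ∈ Ico 0 T := ⟨hτ'.1.le, hτ'.2⟩
    obtain ⟨K, hK⟩ := HA.decS τ hτ'.1 τ hτ'.2
    have i1 : Integrable (fun q : Vec d × Vec d => boltzQ (1 + a) b (f τ q.2) q.1 * phV a V q.1)
        (nu d) := timAV_int HA.contS hτ' (hK τ ⟨le_rfl, le_rfl⟩)
    have i2 : Integrable (fun x => ∫ v, boltzQ (1 + a) b (f τ x) v * phV a V v) (muD d) := by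
      unfold nu at i1
      exact i1.integral_prod_right
    have i3 := timAV_xint ha0.le ha1 hf' hV hm2 hτ2
    have i4 := timAV_xint ha0.le ha1 hf' hV hm1 hτ2
    rw [Pool.Agent.H15.AV.nu_integral i1, ← integral_const_mul, ← integral_const_mul,
      ← integral_add i2 (i4.const_mul C₁)]
    refine integral_mono (i3.const_mul c₁) (i2.add (i4.const_mul C₁)) fun x => ?_
    exact hP V hV (f τ x) (hf'.nice hτ' x) fun v => hf'.nonneg τ hτ2 x v
  have k1 := intervalIntegral.integral_mono_on hrt (j1.const_mul c₁) (j0.add (j2.const_mul C₁)) key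
  rw [intervalIntegral.integral_add j0 (j2.const_mul C₁), intervalIntegral.integral_const_mul,
    intervalIntegral.integral_const_mul] at k1
  linarith

end Pool.Agent.H25.PT
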