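import Pool.Agent.H25.PT.OmB
import Pool.Agent.H48.PL.Wgt

/-!
# Module WgtV: the antisymmetric weight `Tv = Th om(min(⟨v⟩,⟨w⟩))`

`m = min(jb v, jb w)`, `N = max(jb v, jb w)`, `Q = QQ s a α = q + (a-α)`, `q = qq s a α < 2`, `0 < a < 1/2`, `0 < α ≤ a` (`PP.hs0`, `PP.hq1`). `om m = (min 1 (m/V))^(4-a)`.
* `Tv_abs`: `|Th| ≤ m^Q |v_e-w_e|^α ≤ 2 m^Q N^α`. `m ≤ V`: `m^Q N^α om m = m^(Q+4-a) N^α V^(a-4)`, divided by `m²N²`: `m^(Q+2-a) N^(α-2) V^(a-4) ≤ m^(Q+α-a) V^(a-4) = m^q V^(a-4) ≤ V^(q+a-4) ≤ V^(a-1)`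
  (`q ≤ 3`). `m > V`: `m^(Q-2) N^(α-2) ≤ m^(Q+α-4) = m^(q+a-4) ≤ V^(q+a-4) ≤ V^(a-1)`.
* `VTv_le`: `V_e Th = m^Q |v_e-w_e|^(1+α) ≤ 4 m^Q N^(1+α)`. `m ≤ V`: `m^(Q+2-a) N^(α-1) V^(a-4) ≤ m^(q+1) V^(a-4) ≤ V^(q+a-3) ≤ V^(a-1)`. `m > V`: `m^(Q-2) N^(α-1) ≤ m^(q+a-3) ≤ V^(q+a-3) ≤ V^(a-1)`.
* `VTv_low`: `VTh_low` and `om m ≥ om ((δ/2) RR) ≥ (δ/2)^4 om RR` (`om_mono`, `om_scale`; `m ≥ (δ/2) RR` on `CmpS (δ/2)`).
* antisymmetry: `Th_antisymm`, `min_comm`. `PGW`: `Th_PGW`, `om` continuous and in `[0,1]` (`om_cont`).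
-/

set_option autoImplicit false

open MeasureTheory Set Filter Topology Pool.Agent.H25.Kin Pool.Agent.H48.PL Pool.Agent.H48.PI

namespace Pool.Agent.H25.PT

variable {d : ℕ} {s a α V : ℝ}

private lemma wv_abs_V_le (e : Fin d) (v w : Vec d) : |v e - w e| ≤ jb v + jb w := by
  have h1 := abs_coord_le (v - w) e
  rw [Pi.sub_apply] at h1
  linarith [len_sub_le v w, len_le_jb v, len_le_jb w]

private lemma wv_abs_V_le_max (e : Fin d) (v w : Vec d) :
    |v e - w e| ≤ 2 * max (jb v) (jb w) := by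
  linarith [wv_abs_V_le e v w, le_max_left (jb v) (jb w), le_max_right (jb v) (jb w)]

private lemma wv_one_le_min (v w : Vec d) : 1 ≤ min (jb v) (jb w) :=
  le_min (one_le_jb v) (one_le_jb w)

private lemma wv_two_rpow_le {r : ℝ} {n : ℕ} (hr : r ≤ n) : (2 : ℝ) ^ r ≤ 2 ^ n := by
  have := Real.rpow_le_rpow_of_exponent_le (by norm_num : (1 : ℝ) ≤ 2) hr
  rwa [Real.rpow_natCast] at this

private lemma wv_min_max_sq (v w : Vec d) :
    min (jb v) (jb w) ^ 2 * max (jb v) (jb w) ^ 2 = jb v ^ 2 * jb w ^ 2 := by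
  rw [← mul_pow, min_mul_max, mul_pow]

private lemma wv_VTh_eq (P : PP s a α) (e : Fin d) (v w : Vec d) :
    (v e - w e) * Th e s a α v w = min (jb v) (jb w) ^ QQ s a α * |v e - w e| ^ (1 + α) := by
  unfold Th
  rw [← mul_sp P.hs0.1]
  ring

private lemma wv_om {m V : ℝ} (ha1 : a ≤ 1) (hm : 1 ≤ m) (hV : 1 ≤ V) :
    m ^ (a - 1) * om a V m ≤ V ^ (a - 1) := by
  have hm0 : 0 < m := by linarith
  have hV0 : 0 < V := by linarith
  unfold om
  rcases le_total m V with h | h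
  · rw [min_eq_right ((div_le_one hV0).2 h), Real.div_rpow hm0.le hV0.le]
    have e1 : m ^ (a - 1) * (m ^ (4 - a) / V ^ (4 - a)) = m ^ (3 : ℝ) * V ^ (-(4 - a)) := by
      rw [Real.rpow_neg hV0.le, ← div_eq_mul_inv, ← mul_div_assoc, ← Real.rpow_add hm0]
      congr 2
      ring
    have e2 : V ^ (a - 1) = V ^ (3 : ℝ) * V ^ (-(4 - a)) := by
      rw [← Real.rpow_add hV0]
      congr 1
      ring
    rw [e1, e2]
    exact mul_le_mul_of_nonneg_right (Real.rpow_le_rpow hm0.le h (by norm_num))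
      (Real.rpow_nonneg hV0.le _)
  · rw [min_eq_left ((one_le_div hV0).2 h), Real.one_rpow, mul_one]
    exact Real.rpow_le_rpow_of_nonpos hV0 h (by linarith)

private lemma wv_key {m M Q β V : ℝ} (ha1 : a ≤ 1) (hm : 1 ≤ m) (hM : m ≤ M) (hV : 1 ≤ V)
    (hβ : β ≤ 2) (hQ : Q + β - a ≤ 3) :
    m ^ Q * M ^ β * om a V m ≤ V ^ (a - 1) * (m ^ 2 * M ^ 2) := by
  have hm0 : 0 < m := by linarith
  have hM0 : 0 < M := by linarith
  have hom : 0 ≤ om a V m := om_nonneg (by linarith) hm0.le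
  have e1 : M ^ β = M ^ 2 * M ^ (β - 2) := by
    rw [← Real.rpow_two, ← Real.rpow_add hM0]
    congr 1; ring
  have e2 : M ^ (β - 2) ≤ m ^ (β - 2) := Real.rpow_le_rpow_of_nonpos hm0 hM (by linarith)
  have e3 : m ^ Q * m ^ (β - 2) = m ^ 2 * m ^ (Q + β - 4) := by
    rw [← Real.rpow_two, ← Real.rpow_add hm0, ← Real.rpow_add hm0]
    congr 1; ring
  have e4 : m ^ (Q + β - 4) ≤ m ^ (a - 1) :=
    Real.rpow_le_rpow_of_exponent_le hm (by linarith)
  have e5 := wv_om ha1 hm hV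
  calc m ^ Q * M ^ β * om a V m = m ^ Q * M ^ (β - 2) * (M ^ 2 * om a V m) := by rw [e1]; ring
    _ ≤ m ^ Q * m ^ (β - 2) * (M ^ 2 * om a V m) :=
        mul_le_mul_of_nonneg_right (mul_le_mul_of_nonneg_left e2 (Real.rpow_nonneg hm0.le _))
          (by positivity)
    _ = m ^ 2 * M ^ 2 * (m ^ (Q + β - 4) * om a V m) := by rw [e3]; ring
    _ ≤ m ^ 2 * M ^ 2 * (m ^ (a - 1) * om a V m) :=
        mul_le_mul_of_nonneg_left (mul_le_mul_of_nonneg_right e4 hom) (by positivity)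
    _ ≤ m ^ 2 * M ^ 2 * V ^ (a - 1) := mul_le_mul_of_nonneg_left e5 (by positivity)
    _ = V ^ (a - 1) * (m ^ 2 * M ^ 2) := by ring

lemma Tv_antisymm (P : PP s a α) (e : Fin d) (v w : Vec d) : Tv e s a α V w v = -Tv e s a α V v w := by
  unfold Tv
  rw [Th_antisymm P, min_comm (jb w) (jb v)]
  ring

lemma Tv_PGW (P : PP s a α) (e : Fin d) (hV : 1 ≤ V) : PGW (Tv e s a α V : Vec d → Vec d → ℝ) := by
  obtain ⟨hc, k, C, hC, h⟩ := Th_PGW (d := d) P e
  obtain ⟨hα, ha, ha2, hk⟩ := P.hs0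
  have h1 : Continuous fun p : Vec d × Vec d => min (jb p.1) (jb p.2) :=
    (jb_cont.comp continuous_fst).min (jb_cont.comp continuous_snd)
  refine ⟨hc.mul ((om_cont (by linarith) V).comp h1), k, C, hC, fun v w => ?_⟩
  have hm : 0 ≤ min (jb v) (jb w) := by linarith [wv_one_le_min v w]
  have h2 : 0 ≤ om a V (min (jb v) (jb w)) := om_nonneg (by linarith) hm
  have h3 : om a V (min (jb v) (jb w)) ≤ 1 := om_le_one (by linarith) (by linarith) hm
  unfold Tv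
  rw [abs_mul, abs_of_nonneg h2]
  exact (mul_le_of_le_one_right (abs_nonneg _) h3).trans (h v w)

lemma Tv_abs (P : PP s a α) (e : Fin d) (hV : 1 ≤ V) (v w : Vec d) :
    |Tv e s a α V v w| ≤ 2 * V ^ (a - 1) * (jb v ^ 2 * jb w ^ 2) := by
  obtain ⟨hα, ha, ha2, hk⟩ := P.hs0
  obtain ⟨hq1, hq2, hQ1, hQ⟩ := P.hq1
  have hαa := P.hαa
  have hm := wv_one_le_min v w
  have hmM : min (jb v) (jb w) ≤ max (jb v) (jb w) := min_le_max
  have hM : 0 < max (jb v) (jb w) := by linarith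
  have hW := wv_abs_V_le_max e v w
  have hom : 0 ≤ om a V (min (jb v) (jb w)) := om_nonneg (by linarith) (by linarith)
  have h1 : |v e - w e| ^ α ≤ 2 * max (jb v) (jb w) ^ α := by
    calc |v e - w e| ^ α ≤ (2 * max (jb v) (jb w)) ^ α :=
          Real.rpow_le_rpow (abs_nonneg _) hW hα.le
      _ = 2 ^ α * max (jb v) (jb w) ^ α := Real.mul_rpow (by norm_num) hM.le
      _ ≤ 2 * max (jb v) (jb w) ^ α := by
          refine mul_le_mul_of_nonneg_right ?_ (Real.rpow_nonneg hM.le _)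
          have := wv_two_rpow_le (r := α) (n := 1) (by push_cast; linarith)
          simpa using this
  have h2 := wv_key (a := a) (Q := QQ s a α) (β := α) (V := V) (by linarith) hm hmM hV
    (by linarith) (by linarith)
  rw [wv_min_max_sq] at h2
  unfold Tv Th
  rw [abs_mul, abs_mul, abs_of_nonneg (Real.rpow_nonneg (by linarith : (0 : ℝ) ≤ min (jb v) (jb w)) _),
    abs_sp, abs_of_nonneg hom]
  calc min (jb v) (jb w) ^ QQ s a α * |v e - w e| ^ α * om a V (min (jb v) (jb w))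
      ≤ min (jb v) (jb w) ^ QQ s a α * (2 * max (jb v) (jb w) ^ α) * om a V (min (jb v) (jb w)) :=
        mul_le_mul_of_nonneg_right
          (mul_le_mul_of_nonneg_left h1 (Real.rpow_nonneg (by linarith) _)) hom
    _ = 2 * (min (jb v) (jb w) ^ QQ s a α * max (jb v) (jb w) ^ α *
          om a V (min (jb v) (jb w))) := by ring
    _ ≤ 2 * (V ^ (a - 1) * (jb v ^ 2 * jb w ^ 2)) := by linarith
    _ = 2 * V ^ (a - 1) * (jb v ^ 2 * jb w ^ 2) := by ring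

lemma VTv_nonneg (P : PP s a α) (e : Fin d) (hV : 1 ≤ V) (v w : Vec d) :
    0 ≤ (v e - w e) * Tv e s a α V v w := by
  have hom : 0 ≤ om a V (min (jb v) (jb w)) :=
    om_nonneg (by linarith) (by linarith [wv_one_le_min v w])
  unfold Tv
  rw [← mul_assoc]
  exact mul_nonneg (VTh_nonneg P e v w) hom

lemma VTv_le (P : PP s a α) (e : Fin d) (hV : 1 ≤ V) (v w : Vec d) :
    (v e - w e) * Tv e s a α V v w ≤ 4 * V ^ (a - 1) * (jb v ^ 2 * jb w ^ 2) := by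
  obtain ⟨hα, ha, ha2, hk⟩ := P.hs0
  obtain ⟨hq1, hq2, hQ1, hQ⟩ := P.hq1
  have hαa := P.hαa
  have hm := wv_one_le_min v w
  have hmM : min (jb v) (jb w) ≤ max (jb v) (jb w) := min_le_max
  have hM : 0 < max (jb v) (jb w) := by linarith
  have hW := wv_abs_V_le_max e v w
  have hom : 0 ≤ om a V (min (jb v) (jb w)) := om_nonneg (by linarith) (by linarith)
  have h1 : |v e - w e| ^ (1 + α) ≤ 4 * max (jb v) (jb w) ^ (1 + α) := by
    calc |v e - w e| ^ (1 + α) ≤ (2 * max (jb v) (jb w)) ^ (1 + α) :=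
          Real.rpow_le_rpow (abs_nonneg _) hW (by linarith)
      _ = 2 ^ (1 + α) * max (jb v) (jb w) ^ (1 + α) := Real.mul_rpow (by norm_num) hM.le
      _ ≤ 4 * max (jb v) (jb w) ^ (1 + α) := by
          refine mul_le_mul_of_nonneg_right ?_ (Real.rpow_nonneg hM.le _)
          have := wv_two_rpow_le (r := 1 + α) (n := 2) (by push_cast; linarith)
          linarith
  have h2 := wv_key (a := a) (Q := QQ s a α) (β := 1 + α) (V := V) (by linarith) hm hmM hV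
    (by linarith) (by linarith)
  rw [wv_min_max_sq] at h2
  unfold Tv
  rw [← mul_assoc, wv_VTh_eq P]
  calc min (jb v) (jb w) ^ QQ s a α * |v e - w e| ^ (1 + α) * om a V (min (jb v) (jb w))
      ≤ min (jb v) (jb w) ^ QQ s a α * (4 * max (jb v) (jb w) ^ (1 + α)) *
          om a V (min (jb v) (jb w)) :=
        mul_le_mul_of_nonneg_right
          (mul_le_mul_of_nonneg_left h1 (Real.rpow_nonneg (by linarith) _)) hom
    _ = 4 * (min (jb v) (jb w) ^ QQ s a α * max (jb v) (jb w) ^ (1 + α) *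
          om a V (min (jb v) (jb w))) := by ring
    _ ≤ 4 * (V ^ (a - 1) * (jb v ^ 2 * jb w ^ 2)) := by linarith
    _ = 4 * V ^ (a - 1) * (jb v ^ 2 * jb w ^ 2) := by ring

lemma VTv_low (P : PP s a α) (e : Fin d) {δ ε : ℝ} (hδ : 0 < δ) (hδ1 : δ < 1) (hε : 0 < ε) :
    ∃ c : ℝ, 0 < c ∧ ∀ V : ℝ, 1 ≤ V → ∀ v w : Vec d,
      (v, w) ∈ (CmpS (δ / 2) ∩ NtS e ε (kpa s a) : Set (Vec d × Vec d)) →
      c * (len (v - w) ^ (1 + a) * RR v w ^ a * om a V (RR v w)) ≤ (v e - w e) * Tv e s a α V v w := by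
  obtain ⟨hα, ha, ha2, hk⟩ := P.hs0
  obtain ⟨c, hc, h⟩ := VTh_low (d := d) P e hδ hε
  refine ⟨c * (δ / 2) ^ 4, by positivity, fun V hV v w hvw => ?_⟩
  have h0 := h v w hvw
  have hR := RR_pos v w
  have hm : (δ / 2) * RR v w ≤ min (jb v) (jb w) := le_min hvw.1.1 hvw.1.2
  have h1 : (δ / 2) ^ (4 : ℕ) * om a V (RR v w) ≤ om a V (δ / 2 * RR v w) :=
    om_scale ha.le (by linarith) (by linarith) hR.le (by linarith) (by linarith)
  have h2 : om a V (δ / 2 * RR v w) ≤ om a V (min (jb v) (jb w)) :=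
    om_mono (by linarith) (by linarith) (by positivity) hm
  have h3 : 0 ≤ len (v - w) ^ (1 + a) * RR v w ^ a :=
    mul_nonneg (Real.rpow_nonneg (len_nonneg _) _) (Real.rpow_nonneg hR.le _)
  have h4 : 0 ≤ om a V (RR v w) := om_nonneg (by linarith) hR.le
  unfold Tv
  calc c * (δ / 2) ^ 4 * (len (v - w) ^ (1 + a) * RR v w ^ a * om a V (RR v w))
      = c * (len (v - w) ^ (1 + a) * RR v w ^ a) * ((δ / 2) ^ 4 * om a V (RR v w)) := by ring
    _ ≤ (v e - w e) * Th e s a α v w * om a V (min (jb v) (jb w)) :=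
        mul_le_mul h0 (h1.trans h2) (by positivity) (VTh_nonneg P e v w)
    _ = (v e - w e) * (Th e s a α v w * om a V (min (jb v) (jb w))) := by ring

end Pool.Agent.H25.PT
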